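import Pool.Agent.W789.Iso.Strong

/-! Existence of relative isoperimetric sets in bounded open sets. -/

set_option autoImplicit false

namespace Pool.Agent.W789.Iso

open MeasureTheory Set Filter Topology Metric
open scoped ENNReal

variable {n : ℕ}

/-- compactness -/
theorem compactness {Ω : Set (EuclideanSpace ℝ (Fin n))} (hΩ : IsOpen Ω)
    (hΩb : Bornology.IsBounded Ω) {A : ℕ → Set (EuclideanSpace ℝ (Fin n))}
    (hA : ∀ k, MeasurableSet (A k)) (hAΩ : ∀ k, A k ⊆ Ω) {P : ℝ} (hP : ∀ k, PerLE Ω (A k) P) :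
    ∃ B : Set (EuclideanSpace ℝ (Fin n)), MeasurableSet B ∧ B ⊆ Ω ∧
      ∃ φ : ℕ → ℕ, StrictMono φ ∧ ∀ h : EuclideanSpace ℝ (Fin n) → ℝ, BM h →
        Tendsto (fun k => ∫ x in A (φ k), h x) atTop (𝓝 (∫ x in B, h x)) := by
  have hfin : volume Ω < ⊤ := hΩb.measure_lt_top
  have : IsFiniteMeasure (volume.restrict Ω) := ⟨by simpa using hfin⟩
  obtain ⟨f, hf, hf01, φ, hφ, hlim⟩ := weak_sets (volume.restrict Ω) A hA
  have hlim' : ∀ h : EuclideanSpace ℝ (Fin n) → ℝ, BM h →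
      Tendsto (fun k => ∫ x in A (φ k), h x) atTop (𝓝 (∫ x in Ω, h x * f x)) := by
    intro h hh
    have h1 := hlim h hh
    have e : ∀ k, ∫ x in A (φ k), h x ∂(volume.restrict Ω) = ∫ x in A (φ k), h x := by
      intro k
      rw [Measure.restrict_restrict (hA _), inter_eq_self_of_subset_left (hAΩ _)]
    simpa only [e] using h1
  have hs : volume {x | x ∈ Ω ∧ f x * (1 - f x) ≠ 0} = 0 := by
    refine measure_null_of_locally_null _ fun x hx => ?_
    obtain ⟨r, hr, hrΩ⟩ := Metric.isOpen_iff.1 hΩ x hx.1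
    have hcl : closure (ball x (r / 2)) ⊆ Ω :=
      (closure_ball_subset_closedBall.trans (closedBall_subset_ball (by linarith))).trans hrΩ
    have hcc : IsCompact (closure (ball x (r / 2))) :=
      (isCompact_closedBall x (r / 2)).of_isClosed_subset isClosed_closure
        closure_ball_subset_closedBall
    have h1 := strong_on hΩ (fun k => hA (φ k)) (fun k => hP (φ k)) hf hf01 hlim'
      (isOpen_ball (x := x) (ε := r / 2)) hcc hcl
    refine ⟨{y | ¬ (y ∈ ball x (r / 2) → f y * (1 - f y) = 0)}, ?_, h1⟩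
    rw [mem_nhdsWithin]
    refine ⟨ball x (r / 2), isOpen_ball, mem_ball_self (by positivity), ?_⟩
    rintro y ⟨hy1, hy2⟩ h2
    exact hy2.2 (h2 hy1)
  let B : Set (EuclideanSpace ℝ (Fin n)) := {x | x ∈ Ω ∧ 1 / 2 < f x}
  have hB : MeasurableSet B := hΩ.measurableSet.inter (measurableSet_lt measurable_const hf)
  refine ⟨B, hB, fun x hx => hx.1, φ, hφ, fun h hh => ?_⟩
  have e : ∫ x in Ω, h x * f x = ∫ x in B, h x := by
    have hBΩ : B ⊆ Ω := fun x hx => hx.1
    have e2 : ∫ x in B, h x = ∫ x in Ω, B.indicator h x := by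
      rw [setIntegral_indicator hB, inter_eq_self_of_subset_right hBΩ]
    rw [e2]
    refine setIntegral_congr_ae hΩ.measurableSet ?_
    have h3 : ∀ᵐ x : EuclideanSpace ℝ (Fin n), ¬ (x ∈ Ω ∧ f x * (1 - f x) ≠ 0) := by
      rw [ae_iff]; simpa using hs
    filter_upwards [h3] with x hx hxΩ
    have hx0 : f x * (1 - f x) = 0 := by
      by_contra h4
      exact hx ⟨hxΩ, h4⟩
    rcases mul_eq_zero.1 hx0 with h5 | h5
    · have : x ∉ B := by
        intro h6
        have := h6.2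
        rw [h5] at this
        norm_num at this
      rw [indicator_of_notMem this, h5, mul_zero]
    · have h1 : f x = 1 := by linarith
      have : x ∈ B := ⟨hxΩ, by rw [h1]; norm_num⟩
      rw [indicator_of_mem this, h1, mul_one]
  rw [← e]
  exact hlim' h hh

lemma BM_dv {φ : EuclideanSpace ℝ (Fin n) → EuclideanSpace ℝ (Fin n)}
    (h : ContDiff ℝ 1 φ) (hc : HasCompactSupport φ) : BM (dv φ) := by
  obtain ⟨C, hC⟩ := (continuous_dv h).bounded_above_of_compact_support (hasCompactSupport_dv hc)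
  exact ⟨(continuous_dv h).measurable, C, fun x => by rw [← Real.norm_eq_abs]; exact hC x⟩

/-- existence of minimizers -/
theorem exists_min {Ω : Set (EuclideanSpace ℝ (Fin n))} (hΩ : IsOpen Ω)
    (hΩb : Bornology.IsBounded Ω) {F₀ : Set (EuclideanSpace ℝ (Fin n))}
    (hF₀ : MeasurableSet F₀) (hF₀Ω : F₀ ⊆ Ω) {C₀ : ℝ} (hP₀ : PerLE Ω F₀ C₀) :
    ∃ E : Set (EuclideanSpace ℝ (Fin n)), MeasurableSet E ∧ E ⊆ Ω ∧ volume E = volume F₀ ∧
      ∃ I : ℝ, PerLE Ω E I ∧ ∀ F : Set (EuclideanSpace ℝ (Fin n)), MeasurableSet F → F ⊆ Ω →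
        volume F = volume F₀ → ∀ C, PerLE Ω F C → I ≤ C := by
  let S : Set ℝ := {C | ∃ F : Set (EuclideanSpace ℝ (Fin n)), MeasurableSet F ∧ F ⊆ Ω ∧
    volume F = volume F₀ ∧ PerLE Ω F C}
  have hS : S.Nonempty := ⟨C₀, F₀, hF₀, hF₀Ω, rfl, hP₀⟩
  have hSb : BddBelow S := ⟨0, by
    rintro C ⟨F, -, -, -, h⟩
    exact h.nonneg⟩
  set I := sInf S with hI
  have hex : ∀ k : ℕ, ∃ F : Set (EuclideanSpace ℝ (Fin n)), MeasurableSet F ∧ F ⊆ Ω ∧
      volume F = volume F₀ ∧ PerLE Ω F (I + 1 / ((k : ℝ) + 1)) := by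
    intro k
    have : I < I + 1 / ((k : ℝ) + 1) := by
      have : (0 : ℝ) < 1 / ((k : ℝ) + 1) := by positivity
      linarith
    obtain ⟨C, ⟨F, h1, h2, h3, h4⟩, hC⟩ := exists_lt_of_csInf_lt hS this
    exact ⟨F, h1, h2, h3, fun φ hφ => (h4 φ hφ).trans hC.le⟩
  choose A hA hAΩ hAv hAP using hex
  have hP : ∀ k, PerLE Ω (A k) (I + 1) := fun k φ hφ => (hAP k φ hφ).trans (by
    have : 1 / ((k : ℝ) + 1) ≤ 1 := by
      rw [div_le_one (by positivity)]
      have : (0 : ℝ) ≤ k := by positivity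
      linarith
    linarith)
  obtain ⟨B, hB, hBΩ, φ, hφ, hlim⟩ := compactness hΩ hΩb hA hAΩ hP
  have hfin : volume Ω < ⊤ := hΩb.measure_lt_top
  refine ⟨B, hB, hBΩ, ?_, I, ?_, ?_⟩
  · have h1 := hlim (fun _ => 1) ⟨measurable_const, 1, by simp⟩
    have e : ∀ k, ∫ x in A (φ k), (1 : ℝ) = volume.real F₀ := by
      intro k
      simp [Measure.real, hAv]
    have e2 : ∫ x in B, (1 : ℝ) = volume.real B := by simp
    rw [e2] at h1
    simp only [e] at h1
    have h2 : volume.real F₀ = volume.real B := tendsto_nhds_unique tendsto_const_nhds h1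
    have hBf : volume B ≠ ⊤ := ((measure_mono hBΩ).trans_lt hfin).ne
    have hFf : volume F₀ ≠ ⊤ := ((measure_mono hF₀Ω).trans_lt hfin).ne
    exact ((ENNReal.toReal_eq_toReal_iff' hFf hBf).1 h2).symm
  · intro ψ hψ
    have h1 := hlim (dv ψ) (BM_dv hψ.smooth hψ.supp)
    have h2 : Tendsto (fun k : ℕ => I + 1 / ((φ k : ℝ) + 1)) atTop (𝓝 (I + 0)) :=
      tendsto_const_nhds.add (tendsto_one_div_add_atTop_nhds_zero_nat.comp hφ.tendsto_atTop)
    rw [add_zero] at h2
    exact le_of_tendsto_of_tendsto' h1 h2 fun k => hAP (φ k) ψ hψ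
  · intro F h1 h2 h3 C h4
    exact csInf_le hSb ⟨F, h1, h2, h3, h4⟩

end Pool.Agent.W789.Iso
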