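import Pool.Agent.W789.Iso.Lower3
import Pool.Agent.W789.Iso.Exist

/-! Assembly: no absolute proportion of a symmetric convex body can be trapped by cones. -/

set_option autoImplicit false

namespace Pool.Agent.W789.Iso

open MeasureTheory Set Filter Topology
open scoped ENNReal

lemma wf_bound {a t s : ℝ} (ha : 2 ≤ a) (ht : 0 < t) (ht' : 24 * t ≤ 1)
    (hs : -(3 * t / 4) ≤ s) (hs2 : s ≤ 2 * t) :
    ∀ x ∈ Ioo (-1 : ℝ) 1, √(x ^ 2 + wf t s x ^ 2) ≤ a := by
  intro x hx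
  rw [Real.sqrt_le_left (by linarith)]
  have h1 : x ^ 2 ≤ 1 := by nlinarith [hx.1, hx.2]
  have h2 : |wf t s x| ≤ 5 * t := by
    unfold wf
    rw [abs_le]
    constructor <;> nlinarith [hx.1, hx.2]
  have h3 : wf t s x ^ 2 ≤ 1 := by
    rw [← sq_abs]
    have : |wf t s x| ≤ 1 := by linarith
    nlinarith [abs_nonneg (wf t s x)]
  nlinarith

lemma integral_dv_zero {a h b : ℝ} {φ : E3 → E3} (hφ : Adm (Om a h b) φ) :
    ∫ p, dv φ p = 0 := by
  have h1 := div_graph' hφ.smooth hφ.supp (w := fun _ => h) contDiff_const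
  have h2 : ∫ p in {p : E3 | p 2 < h}, dv φ p = ∫ p, dv φ p := by
    apply setIntegral_eq_integral_of_forall_compl_eq_zero
    intro p hp
    apply dv_eq_zero_of_notMem
    intro hp2
    exact hp ((le_abs_self _).trans_lt (hφ.sub hp2).2.1)
  rw [← h2, h1]
  have h3 : ∀ x y : ℝ, φ (mk3 (x, y, h)) = 0 := by
    intro x y
    by_contra hcon
    have h4 := (hφ.sub (subset_tsupport _ hcon)).2.1
    simp only [mk3_2] at h4
    exact absurd h4 (not_lt.2 (le_abs_self h))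
  simp [h3]

lemma perLE_compl {a h b : ℝ} {E : Set E3} (hE : MeasurableSet E) (hEO : E ⊆ Om a h b) {I : ℝ}
    (hI : PerLE (Om a h b) E I) : PerLE (Om a h b) (Om a h b \ E) I := by
  intro φ hφ
  have hO : MeasurableSet (Om a h b) := (isOpen_Om a h b).measurableSet
  have hi : Integrable (dv φ) := integrable_dv hφ.smooth hφ.supp
  have h1 : ∫ p in Om a h b, dv φ p = 0 := by
    rw [← integral_dv_zero hφ]
    apply setIntegral_eq_integral_of_forall_compl_eq_zero
    intro p hp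
    exact dv_eq_zero_of_notMem fun hp2 => hp (hφ.sub hp2)
  have h2 : ∫ p in Om a h b \ E, dv φ p = -∫ p in E, dv φ p := by
    rw [setIntegral_sdiff hE hi.integrableOn hEO, h1, zero_sub]
  have h3 : Adm (Om a h b) (fun p => (-1 : ℝ) • φ p) := by
    have hsub : tsupport (fun p => (-1 : ℝ) • φ p) ⊆ tsupport φ :=
      tsupport_comp_subset (g := fun v : E3 => (-1 : ℝ) • v) (smul_zero _) φ
    refine ⟨hφ.smooth.const_smul _, hφ.supp.isCompact.of_isClosed_subset (isClosed_tsupport _)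
      hsub, hsub.trans hφ.sub, fun p => ?_⟩
    rw [norm_smul]
    simpa using hφ.bdd p
  have h4 := hI _ h3
  have h5 : ∫ p in E, dv (fun p => (-1 : ℝ) • φ p) p = (-1) * ∫ p in E, dv φ p := by
    rw [← integral_const_mul]
    congr 1
    funext p
    exact dv_const_smul _
  rw [h5] at h4
  rw [h2]
  linarith

/-- the numerical contradiction -/
lemma numeric {a b g r K I N T : ℝ} (hb : 0 < b) (hr : 0 < r)
    (hT : T = 1 - 1 / (2 * a)) (ha : 2 ≤ a) (hrg : 24 * r ≤ g / 2)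
    (hKb : 4 * (K * b) ^ 2 < g / 2) (hN : N ≤ √(1 + (K * b) ^ 2)) (hI0 : 0 ≤ I)
    (hI : I ≤ b * (4 * T - g)) (hlow : 4 * b * T * (1 - 6 * r) ≤ N * I) : False := by
  have hT1 : T ≤ 1 := by
    rw [hT]
    have : 0 ≤ 1 / (2 * a) := by positivity
    linarith
  have h1 : √(1 + (K * b) ^ 2) ≤ 1 + (K * b) ^ 2 := by
    rw [Real.sqrt_le_left (by positivity)]
    nlinarith [sq_nonneg (K * b), sq_nonneg ((K * b) ^ 2)]
  have h2 : N * I ≤ (1 + (K * b) ^ 2) * (b * (4 * T - g)) := by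
    calc N * I ≤ (1 + (K * b) ^ 2) * I := by gcongr; linarith
      _ ≤ _ := by gcongr
  have h3 : 4 * b * T * (1 - 6 * r) ≤ (1 + (K * b) ^ 2) * (b * (4 * T - g)) := hlow.trans h2
  have h4 : 4 * b * T * (1 - 6 * r) = b * (4 * T * (1 - 6 * r)) := by ring
  have h5 : (1 + (K * b) ^ 2) * (b * (4 * T - g)) = b * ((1 + (K * b) ^ 2) * (4 * T - g)) := by
    ring
  rw [h4, h5] at h3
  have h6 := le_of_mul_le_mul_left h3 hb
  have h7 : (K * b) ^ 2 * (4 * T - g) ≤ (K * b) ^ 2 * 4 := by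
    have : 4 * T - g ≤ 4 := by linarith
    gcongr
  have h8 : 4 * T * (6 * r) ≤ 24 * r := by nlinarith
  nlinarith

theorem main (c : ℝ) (hc : 0 < c) :
    ∃ Ω E : Set E3, IsOpen Ω ∧ Ω.Nonempty ∧ Convex ℝ Ω ∧ Bornology.IsBounded Ω ∧
      (∀ x ∈ Ω, -x ∈ Ω) ∧ MeasurableSet E ∧ E ⊆ Ω ∧ volume E = volume Ω / 2 ∧
      (∃ I : ℝ, PerLE Ω E I ∧ ∀ F : Set E3, MeasurableSet F → F ⊆ Ω →
        volume F = volume E → ∀ C, PerLE Ω F C → I ≤ C) ∧
      ∀ Γ : ConvexCone ℝ E3, volume ((Ω ∩ (Γ : Set E3)) \ E) = 0 →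
        volume ((Ω ∩ {x | -x ∈ Γ}) ∩ E) = 0 →
        ¬ ENNReal.ofReal c * volume Ω ≤ volume (Ω ∩ (Γ : Set E3)) := by
  obtain ⟨L, hL0, hL⟩ := exists_L
  set h : ℝ := 4 / c + 2 with hh
  have hh1 : 1 < h := by
    have : 0 < 4 / c := by positivity
    linarith
  have hch : 4 < c * h := by
    have : c * h = 4 + 2 * c := by
      have : c * (4 / c) = 4 := by field_simp
      rw [hh, mul_add, this]; ring
    linarith
  set a : ℝ := 2 * (h + 1) with ha
  have ha2 : 2 ≤ a := by linarith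
  have ha0 : 0 < a := by linarith
  set M : ℝ := 31.25 * (12 * a + 1) with hM
  have hM0 : 0 < M := by positivity
  set t : ℝ := Real.exp (-M) / 24 with ht
  have ht0 : 0 < t := by positivity
  have h24 : 24 * t = Real.exp (-M) := by rw [ht]; ring
  have ht1 : 24 * t ≤ 1 := by
    rw [h24]; exact Real.exp_le_one_iff.2 (by linarith)
  have hlog : 31.25 * (12 * a + 1) ≤ Real.log (1 / (24 * t)) := by
    rw [h24, one_div, ← Real.exp_neg, neg_neg, Real.log_exp]
  set g : ℝ := 2 * t ^ 2 / a with hg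
  have hg0 : 0 < g := by positivity
  set r : ℝ := min (1 / 24) (g / 48) with hr
  have hr0 : 0 < r := lt_min (by norm_num) (by positivity)
  have hr1 : r ≤ 1 / 24 := min_le_left _ _
  have hr2 : 24 * r ≤ g / 2 := by
    have : r ≤ g / 48 := min_le_right _ _
    linarith
  set K : ℝ := 48 * L * h ^ 2 / r with hK
  have hK0 : 0 < K := by positivity
  set b : ℝ := √g / (4 * K) with hb
  have hb0 : 0 < b := by
    have := Real.sqrt_pos.2 hg0
    positivity
  have hKb : 4 * (K * b) ^ 2 < g / 2 := by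
    have hKb' : K * b = √g / 4 := by
      rw [hb]
      have := hK0.ne'
      clear_value K
      field_simp
    have : (K * b) ^ 2 = g / 16 := by
      rw [hKb', div_pow, Real.sq_sqrt hg0.le]
      norm_num
    rw [this]
    linarith
  obtain ⟨s, hs1, hs2, hs3⟩ := exists_half (t := t) hh1 hb0 ht0 ht1
  set O := Om a h b with hO
  set F₀ := Fs a h b t s with hF₀
  have hP₀ : PerLE O F₀ (len a b (wf t s)) :=
    perLE_graph ha0 hb0 (contDiff_wf t s) (wf_bound ha2 ht0 ht1 hs1 hs2)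
  obtain ⟨E, hE, hEO, hEv, I, hI, hImin⟩ := exists_min (isOpen_Om a h b) (isBounded_Om ha0 hb0)
    (measurableSet_Fs a h b t s) (fun p hp => hp.1) hP₀
  have hIF := hImin F₀ (measurableSet_Fs a h b t s) (fun p hp => hp.1) rfl _ hP₀
  have hIle : I ≤ b * (4 * (1 - 1 / (2 * a)) - g) := by
    have h1 := len_le ha2 hb0 ht0 ht1 hs1 hs2 hlog
    have h2 : b * (4 - 2 / a - 2 * t ^ 2 / a) = b * (4 * (1 - 1 / (2 * a)) - g) := by
      rw [hg]
      field_simp
      ring
    rw [← h2]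
    exact hIF.trans h1
  refine ⟨O, E, isOpen_Om _ _ _, ⟨0, zero_mem_Om (by linarith) hb0⟩, convex_Om ha0 hb0,
    isBounded_Om ha0 hb0, fun x hx => neg_mem_Om hx, hE, hEO, ?_, ⟨I, hI, ?_⟩, ?_⟩
  · rw [hEv, hO, ← hs3, mul_comm]
    exact (ENNReal.mul_div_cancel_right (by norm_num) (by norm_num)).symm
  · intro F hF hFO hFv C hC
    exact hImin F hF hFO (hFv.trans hEv) C hC
  · intro Γ hΓ1 hΓ2 hΓ
    have fin : ∀ (C : Set E3) (E' : Set E3), MeasurableSet E' → PerLE O E' I →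
        volume ((O ∩ C) \ E') = 0 → volume ((O ∩ {x | -x ∈ C}) ∩ E') = 0 →
        ∀ sm w A B ρ : ℝ, |sm| ≤ 1 → 1 / (2 * h ^ 2) ≤ w → w ≤ 1 → 0 < ρ →
        Trap O C sm w A B ρ → False := by
      intro C E' hE' hI' hv1 hv2 sm w A B ρ k1 k2 k3 k4 T
      have hw0 : 0 < w := lt_of_lt_of_le (by positivity) k2
      have D : Dat h b r sm w ρ := ⟨hh1, hb0, hr0, hr1, k1, hw0, k3, k4⟩
      have hlow := lower_bound D T hL0 hL hE' hv1 hv2 hI'
      refine numeric (a := a) (b := b) (g := g) (r := r) (K := K) (I := I)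
        (N := √(1 + (24 * L * b / (w * r)) ^ 2)) (T := 1 - 1 / (2 * a)) hb0 hr0 rfl ha2 hr2 hKb
        ?_ hI'.nonneg hIle hlow
      apply Real.sqrt_le_sqrt
      have : 24 * L * b / (w * r) ≤ K * b := by
        have e : K * b = 24 * L * b / (1 / (2 * h ^ 2) * r) := by
          rw [hK]; field_simp; ring
        rw [e]
        gcongr
      gcongr
    rcases exists_trap hh1 hb0 hch Γ hΓ with
      ⟨sm, w, A, B, ρ, k1, k2, k3, k4, T⟩ | ⟨sm, w, A, B, ρ, k1, k2, k3, k4, T⟩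
    · exact fin _ E hE hI hΓ1 hΓ2 sm w A B ρ k1 k2 k3 k4 T
    · refine fin _ (O \ E) ((isOpen_Om _ _ _).measurableSet.diff hE) (perLE_compl hE hEO hI)
        ?_ ?_ sm w A B ρ k1 k2 k3 k4 T
      · refine measure_mono_null ?_ hΓ2
        rintro p ⟨hp1, hp2⟩
        refine ⟨hp1, ?_⟩
        by_contra hcon
        exact hp2 ⟨hp1.1, hcon⟩
      · refine measure_mono_null ?_ hΓ1
        rintro p ⟨⟨hp1, hp2⟩, hp3⟩
        refine ⟨⟨hp1, ?_⟩, hp3.2⟩
        have : - -p ∈ Γ := hp2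
        rwa [neg_neg] at this

end Pool.Agent.W789.Iso
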