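import Mathlib

/-! Coordinates on `ℝ³`. -/

set_option autoImplicit false

namespace Pool.Agent.W789.Iso

open MeasureTheory Set Filter Topology
open scoped ENNReal

/-- three dimensional space -/
abbrev E3 : Type := EuclideanSpace ℝ (Fin 3)

/-- point with given coordinates -/
noncomputable def mk3 (q : ℝ × ℝ × ℝ) : E3 := !₂[q.1, q.2.1, q.2.2]

@[simp] lemma mk3_0 (q : ℝ × ℝ × ℝ) : mk3 q 0 = q.1 := rfl
@[simp] lemma mk3_1 (q : ℝ × ℝ × ℝ) : mk3 q 1 = q.2.1 := rfl
@[simp] lemma mk3_2 (q : ℝ × ℝ × ℝ) : mk3 q 2 = q.2.2 := rfl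

lemma mk3_coord (p : E3) : mk3 (p 0, p 1, p 2) = p := by
  ext i
  fin_cases i <;> rfl

/-- coordinates as a measurable equivalence -/
noncomputable def e3 : E3 ≃ᵐ ℝ × ℝ × ℝ :=
  ((MeasurableEquiv.toLp 2 (Fin 3 → ℝ)).symm.trans
    (MeasurableEquiv.piFinSuccAbove (fun _ => ℝ) 0)).trans
    (MeasurableEquiv.prodCongr (MeasurableEquiv.refl ℝ) MeasurableEquiv.finTwoArrow)

lemma e3_apply (p : E3) : e3 p = (p 0, p 1, p 2) := rfl

lemma e3_symm (q : ℝ × ℝ × ℝ) : e3.symm q = mk3 q := by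
  apply e3.injective
  rw [MeasurableEquiv.apply_symm_apply, e3_apply]
  rfl

lemma mp_e3 : MeasurePreserving e3 volume volume := by
  refine (((EuclideanSpace.volume_preserving_symm_measurableEquiv_toLp (Fin 3)).trans
    (volume_preserving_piFinSuccAbove (fun _ : Fin 3 => ℝ) 0)).trans ?_)
  exact (MeasurePreserving.id volume).prod (volume_preserving_finTwoArrow ℝ)

lemma mp_mk3 : MeasurePreserving mk3 volume volume := by
  have h := mp_e3.symm
  have : (e3.symm : ℝ × ℝ × ℝ → E3) = mk3 := funext e3_symm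
  rwa [this] at h

lemma integral_mk3 {G : Type*} [NormedAddCommGroup G] [NormedSpace ℝ G] (f : E3 → G) :
    ∫ q : ℝ × ℝ × ℝ, f (mk3 q) = ∫ p, f p := by
  have h := mp_e3.symm.integral_comp' f
  simpa only [e3_symm] using h

lemma lintegral_mk3 (f : E3 → ℝ≥0∞) :
    ∫⁻ q : ℝ × ℝ × ℝ, f (mk3 q) = ∫⁻ p, f p := by
  have h := mp_e3.symm.lintegral_comp_emb e3.symm.measurableEmbedding f
  simpa only [e3_symm] using h

lemma integrable_mk3 {f : E3 → ℝ} : Integrable (fun q : ℝ × ℝ × ℝ => f (mk3 q)) ↔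
    Integrable f := by
  have h := mp_e3.symm.integrable_comp_emb (g := f) e3.symm.measurableEmbedding
  simpa only [Function.comp_def, e3_symm] using h

lemma continuous_mk3 : Continuous mk3 := by
  unfold mk3
  fun_prop

/-- volume of a set through coordinates -/
lemma volume_mk3 {S : Set E3} (hS : MeasurableSet S) :
    volume S = volume (mk3 ⁻¹' S) := (mp_mk3.measure_preimage hS.nullMeasurableSet).symm

end Pool.Agent.W789.Iso
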