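import Pool.Agent.W789.Iso.Defs
import Pool.Agent.W789.Iso.Coord

/-! The convex body. -/

set_option autoImplicit false

namespace Pool.Agent.W789.Iso

open MeasureTheory Set Filter Topology
open scoped ENNReal

/-- distance to the `y` axis -/
noncomputable def rr (p : E3) : ℝ := √((p 0) ^ 2 + (p 2) ^ 2)

lemma rr_eq (p : E3) : rr p = ‖(⟨p 0, p 2⟩ : ℂ)‖ := by
  rw [Complex.norm_eq_sqrt_sq_add_sq]; rfl

lemma rr_nonneg (p : E3) : 0 ≤ rr p := Real.sqrt_nonneg _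

lemma rr_add_le (p q : E3) : rr (p + q) ≤ rr p + rr q := by
  rw [rr_eq, rr_eq, rr_eq]
  exact norm_add_le (⟨p 0, p 2⟩ : ℂ) ⟨q 0, q 2⟩

lemma rr_smul (c : ℝ) (p : E3) : rr (c • p) = |c| * rr p := by
  unfold rr
  have : ((c • p) 0) ^ 2 + ((c • p) 2) ^ 2 = c ^ 2 * ((p 0) ^ 2 + (p 2) ^ 2) := by
    simp; ring
  rw [this, Real.sqrt_mul (sq_nonneg c), Real.sqrt_sq_eq_abs]

lemma rr_neg (p : E3) : rr (-p) = rr p := by
  unfold rr; simp

lemma continuous_rr : Continuous rr := by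
  unfold rr; fun_prop

lemma abs0_le_rr (p : E3) : |p 0| ≤ rr p := by
  unfold rr
  rw [← Real.sqrt_sq_eq_abs]
  exact Real.sqrt_le_sqrt (by nlinarith [sq_nonneg (p 2)])

lemma abs2_le_rr (p : E3) : |p 2| ≤ rr p := by
  unfold rr
  rw [← Real.sqrt_sq_eq_abs]
  exact Real.sqrt_le_sqrt (by nlinarith [sq_nonneg (p 0)])

lemma rr_le (p : E3) : rr p ≤ |p 0| + |p 2| := by
  unfold rr
  rw [Real.sqrt_le_left (by positivity)]
  have := mul_nonneg (abs_nonneg (p 0)) (abs_nonneg (p 2))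
  nlinarith [sq_abs (p 0), sq_abs (p 2)]

/-- the body -/
def Om (a h b : ℝ) : Set E3 := {p | |p 0| < 1 ∧ |p 2| < h ∧ |p 1| < b * (1 - rr p / a)}

lemma isOpen_Om (a h b : ℝ) : IsOpen (Om a h b) := by
  have h1 := continuous_rr
  have e : Om a h b = {p : E3 | |p 0| < 1} ∩ ({p : E3 | |p 2| < h} ∩
    {p : E3 | |p 1| < b * (1 - rr p / a)}) := rfl
  rw [e]
  refine (isOpen_lt (by fun_prop) (by fun_prop)).inter
    ((isOpen_lt (by fun_prop) (by fun_prop)).inter (isOpen_lt (by fun_prop) (by fun_prop)))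

lemma neg_mem_Om {a h b : ℝ} {p : E3} (hp : p ∈ Om a h b) : -p ∈ Om a h b := by
  obtain ⟨h1, h2, h3⟩ := hp
  refine ⟨by simpa using h1, by simpa using h2, ?_⟩
  rw [rr_neg]
  simpa using h3

lemma zero_mem_Om {a h b : ℝ} (hh : 0 < h) (hb : 0 < b) : (0 : E3) ∈ Om a h b := by
  refine ⟨by simp, by simpa using hh, ?_⟩
  simp [rr, hb]

lemma convex_Om {a h b : ℝ} (ha : 0 < a) (hb : 0 < b) : Convex ℝ (Om a h b) := by
  intro p hp q hq s t hs ht hst
  obtain ⟨h1, h2, h3⟩ := hp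
  obtain ⟨k1, k2, k3⟩ := hq
  have key : ∀ u v m : ℝ, |u| < m → |v| < m → |s * u + t * v| < m := by
    intro u v m hu hv
    rw [abs_lt] at hu hv ⊢
    rcases hs.eq_or_lt with h0 | h0
    · rw [← h0] at hst ⊢
      have : t = 1 := by linarith
      rw [this]; constructor <;> linarith [hv.1, hv.2]
    · constructor
      · nlinarith [mul_lt_mul_of_pos_left hu.1 h0, mul_le_mul_of_nonneg_left hv.1.le ht]
      · nlinarith [mul_lt_mul_of_pos_left hu.2 h0, mul_le_mul_of_nonneg_left hv.2.le ht]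
  refine ⟨by simpa using key _ _ _ h1 k1, by simpa using key _ _ _ h2 k2, ?_⟩
  have hr : rr (s • p + t • q) ≤ s * rr p + t * rr q := by
    refine (rr_add_le _ _).trans ?_
    rw [rr_smul, rr_smul, abs_of_nonneg hs, abs_of_nonneg ht]
  have hr2 : s * (1 - rr p / a) + t * (1 - rr q / a) ≤ 1 - rr (s • p + t • q) / a := by
    have : rr (s • p + t • q) / a ≤ (s * rr p + t * rr q) / a := by gcongr
    have e : (s * rr p + t * rr q) / a = s * (rr p / a) + t * (rr q / a) := by ring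
    rw [e] at this
    nlinarith
  have h4 : |s * p 1 + t * q 1| < s * (b * (1 - rr p / a)) + t * (b * (1 - rr q / a)) := by
    refine (abs_add_le _ _).trans_lt ?_
    rw [abs_mul, abs_mul, abs_of_nonneg hs, abs_of_nonneg ht]
    rcases hs.eq_or_lt with h0 | h0
    · rw [← h0] at hst ⊢
      have : t = 1 := by linarith
      rw [this]; linarith
    · have := mul_lt_mul_of_pos_left h3 h0
      have := mul_le_mul_of_nonneg_left k3.le ht
      linarith
  have h5 : (s • p + t • q) 1 = s * p 1 + t * q 1 := by simp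
  rw [h5]
  refine h4.trans_le ?_
  have := mul_le_mul_of_nonneg_left hr2 hb.le
  nlinarith

lemma abs1_lt {a h b : ℝ} (ha : 0 < a) (hb : 0 < b) {p : E3} (hp : p ∈ Om a h b) : |p 1| < b := by
  refine hp.2.2.trans_le ?_
  have : 0 ≤ rr p / a := div_nonneg (rr_nonneg p) ha.le
  nlinarith

lemma isBounded_Om {a h b : ℝ} (ha : 0 < a) (hb : 0 < b) : Bornology.IsBounded (Om a h b) := by
  rw [Metric.isBounded_iff_subset_closedBall 0]
  refine ⟨1 + b + h, fun p hp => ?_⟩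
  have h1 := hp.1
  have h2 := hp.2.1
  have h3 := abs1_lt ha hb hp
  rw [mem_closedBall_zero_iff]
  have : ‖p‖ ≤ |p 0| + |p 1| + |p 2| := by
    rw [EuclideanSpace.norm_eq, Fin.sum_univ_three, Real.sqrt_le_left (by positivity)]
    simp only [Real.norm_eq_abs]
    have := mul_nonneg (abs_nonneg (p 0)) (abs_nonneg (p 2))
    have := mul_nonneg (abs_nonneg (p 0)) (abs_nonneg (p 1))
    have := mul_nonneg (abs_nonneg (p 1)) (abs_nonneg (p 2))
    nlinarith
  linarith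

/-- lower bound for the thickness -/
lemma theta_gt {h : ℝ} (hh : 0 < h) {x z : ℝ} (hx : |x| < 1) (hz : |z| < h) :
    1 / 2 < 1 - √(x ^ 2 + z ^ 2) / (2 * (h + 1)) := by
  have h1 : √(x ^ 2 + z ^ 2) ≤ |x| + |z| := by
    rw [Real.sqrt_le_left (by positivity)]
    have := mul_nonneg (abs_nonneg x) (abs_nonneg z)
    nlinarith [sq_abs x, sq_abs z]
  have h2 : √(x ^ 2 + z ^ 2) < h + 1 := by linarith
  have : √(x ^ 2 + z ^ 2) / (2 * (h + 1)) < 1 / 2 := by
    rw [div_lt_div_iff₀ (by positivity) (by norm_num)]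
    linarith
  linarith

lemma box_sub {h b : ℝ} (hh : 0 < h) (hb : 0 < b) :
    {p : E3 | p 0 ∈ Ioo (-1) 1 ∧ p 1 ∈ Ioo (-(b / 2)) (b / 2) ∧ p 2 ∈ Ioo (-h) h} ⊆
      Om (2 * (h + 1)) h b := by
  rintro p ⟨h1, h2, h3⟩
  have hx : |p 0| < 1 := abs_lt.2 h1
  have hz : |p 2| < h := abs_lt.2 h3
  have hy : |p 1| < b / 2 := abs_lt.2 h2
  refine ⟨hx, hz, ?_⟩
  have := theta_gt hh hx hz
  have e : rr p = √((p 0) ^ 2 + (p 2) ^ 2) := rfl
  rw [e]
  nlinarith

lemma vol_box {I J K : Set ℝ} (hI : MeasurableSet I) (hJ : MeasurableSet J)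
    (hK : MeasurableSet K) :
    volume {p : E3 | p 0 ∈ I ∧ p 1 ∈ J ∧ p 2 ∈ K} = volume I * (volume J * volume K) := by
  have hm : MeasurableSet {p : E3 | p 0 ∈ I ∧ p 1 ∈ J ∧ p 2 ∈ K} := by
    have e : {p : E3 | p 0 ∈ I ∧ p 1 ∈ J ∧ p 2 ∈ K} =
        (fun p : E3 => p 0) ⁻¹' I ∩ ((fun p : E3 => p 1) ⁻¹' J ∩ (fun p : E3 => p 2) ⁻¹' K) := rfl
    rw [e]
    exact ((by fun_prop : Measurable fun p : E3 => p 0) hI).inter
      (((by fun_prop : Measurable fun p : E3 => p 1) hJ).inter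
        ((by fun_prop : Measurable fun p : E3 => p 2) hK))
  rw [volume_mk3 hm]
  have e : mk3 ⁻¹' {p : E3 | p 0 ∈ I ∧ p 1 ∈ J ∧ p 2 ∈ K} = I ×ˢ (J ×ˢ K) := by
    ext q
    simp [mem_prod]
  rw [e, Measure.volume_eq_prod, Measure.prod_prod, Measure.volume_eq_prod, Measure.prod_prod]

lemma vol_Om_ge {h b : ℝ} (hh : 0 < h) (hb : 0 < b) :
    ENNReal.ofReal (4 * h * b) ≤ volume (Om (2 * (h + 1)) h b) := by
  refine le_trans (le_of_eq ?_) (measure_mono (box_sub hh hb))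
  rw [vol_box measurableSet_Ioo measurableSet_Ioo measurableSet_Ioo, Real.volume_Ioo,
    Real.volume_Ioo, Real.volume_Ioo, ← ENNReal.ofReal_mul (by linarith),
    ← ENNReal.ofReal_mul (by norm_num)]
  congr 1
  ring

end Pool.Agent.W789.Iso
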