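import Pool.Agent.W789.Iso.Graph
import Pool.Agent.W789.Iso.Dom

/-! Upper bound for the relative perimeter of a subgraph. -/

set_option autoImplicit false

namespace Pool.Agent.W789.Iso

open MeasureTheory Set Filter Topology
open scoped ENNReal

theorem div_graph' {Φ : E3 → E3} (hΦ : ContDiff ℝ 1 Φ) (hc : HasCompactSupport Φ)
    {w : ℝ → ℝ} (hw : ContDiff ℝ 1 w) :
    ∫ p in {p : E3 | p 2 < w (p 0)}, dv Φ p =
      ∫ x, ∫ y, (Φ (mk3 (x, y, w x)) 2 - deriv w x * Φ (mk3 (x, y, w x)) 0) := by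
  have hwd : Continuous (deriv w) := hw.continuous_deriv (by norm_num)
  have hwc := hw.continuous
  have hm := continuous_mk3
  have hΦc := hΦ.continuous
  have hK : IsCompact ((fun p : E3 => (p 0, p 1)) '' tsupport Φ) :=
    hc.isCompact.image (by fun_prop)
  have c1 : ∀ i, Continuous fun r : ℝ × ℝ => Φ (mk3 (r.1, r.2, w r.1)) i := by
    intro i; fun_prop
  have k1 : ∀ i, HasCompactSupport fun r : ℝ × ℝ => Φ (mk3 (r.1, r.2, w r.1)) i := by
    intro i
    refine HasCompactSupport.intro hK fun r hr => ?_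
    have : mk3 (r.1, r.2, w r.1) ∉ tsupport Φ := fun h => hr ⟨_, h, rfl⟩
    rw [image_eq_zero_of_notMem_tsupport this]; rfl
  have c2 : Continuous fun r : ℝ × ℝ => deriv w r.1 * Φ (mk3 (r.1, r.2, w r.1)) 0 :=
    (hwd.comp continuous_fst).mul (c1 0)
  have k2 : HasCompactSupport fun r : ℝ × ℝ => deriv w r.1 * Φ (mk3 (r.1, r.2, w r.1)) 0 :=
    (k1 0).mul_left
  have i1 : Integrable fun r : ℝ × ℝ => Φ (mk3 (r.1, r.2, w r.1)) 2 :=
    (c1 2).integrable_of_hasCompactSupport (k1 2)
  have i2 : Integrable fun r : ℝ × ℝ => deriv w r.1 * Φ (mk3 (r.1, r.2, w r.1)) 0 :=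
    c2.integrable_of_hasCompactSupport k2
  rw [div_graph hΦ hc hw]
  have e1 := integral_prod (μ := (volume : Measure ℝ)) (ν := (volume : Measure ℝ)) _ i1
  have e2 := integral_prod (μ := (volume : Measure ℝ)) (ν := (volume : Measure ℝ)) _ i2
  have e3 := integral_prod (μ := (volume : Measure ℝ)) (ν := (volume : Measure ℝ)) _ (i1.sub i2)
  have e4 := integral_sub i1 i2
  rw [← Measure.volume_eq_prod] at e1 e2 e3
  simp only [Pi.sub_apply] at e1 e2 e3
  rw [← e1, ← e2, ← e3, ← e4]

/-- the weighted length of a graph -/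
noncomputable def len (a b : ℝ) (w : ℝ → ℝ) : ℝ :=
  ∫ x in Ioo (-1 : ℝ) 1, 2 * b * (1 - √(x ^ 2 + w x ^ 2) / a) * √(1 + deriv w x ^ 2)

theorem perLE_graph {a h b : ℝ} (ha : 0 < a) (hb : 0 < b) {w : ℝ → ℝ} (hw : ContDiff ℝ 1 w)
    (hwa : ∀ x ∈ Ioo (-1 : ℝ) 1, √(x ^ 2 + w x ^ 2) ≤ a) :
    PerLE (Om a h b) {p | p ∈ Om a h b ∧ p 2 < w (p 0)} (len a b w) := by
  intro φ hφ
  have hwd : Continuous (deriv w) := hw.continuous_deriv (by norm_num)
  have hwc := hw.continuous
  have hmO : MeasurableSet (Om a h b) := (isOpen_Om a h b).measurableSet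
  have hmL : MeasurableSet {p : E3 | p 2 < w (p 0)} :=
    (isOpen_lt (by fun_prop) (by fun_prop)).measurableSet
  have e1 : ∫ p in {p | p ∈ Om a h b ∧ p 2 < w (p 0)}, dv φ p =
      ∫ p in {p : E3 | p 2 < w (p 0)}, dv φ p := by
    have : {p | p ∈ Om a h b ∧ p 2 < w (p 0)} = {p : E3 | p 2 < w (p 0)} ∩ Om a h b := by
      ext p; exact and_comm
    rw [this, ← setIntegral_indicator hmO]
    refine setIntegral_congr_fun hmL fun p _ => ?_
    by_cases hp : p ∈ Om a h b
    · rw [indicator_of_mem hp]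
    · rw [indicator_of_notMem hp, dv_eq_zero_of_notMem fun h => hp (hφ.sub h)]
  rw [e1, div_graph' hφ.smooth hφ.supp hw]
  -- pointwise bound
  set θ : ℝ → ℝ := fun x => b * (1 - √(x ^ 2 + w x ^ 2) / a) with hθ
  have hpt : ∀ x y, |φ (mk3 (x, y, w x)) 2 - deriv w x * φ (mk3 (x, y, w x)) 0| ≤
      (Ioo (-1 : ℝ) 1).indicator (fun x => (Ioo (-θ x) (θ x)).indicator
        (fun _ => √(1 + deriv w x ^ 2)) y) x := by
    intro x y
    by_cases hp : mk3 (x, y, w x) ∈ Om a h b
    · have hx : x ∈ Ioo (-1 : ℝ) 1 := abs_lt.1 hp.1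
      have hy : y ∈ Ioo (-θ x) (θ x) := abs_lt.1 hp.2.2
      rw [indicator_of_mem hx, indicator_of_mem hy]
      have h1 := hφ.bdd (mk3 (x, y, w x))
      set v := φ (mk3 (x, y, w x))
      have h2 : (v 0) ^ 2 + (v 2) ^ 2 ≤ 1 := by
        have : ‖v‖ ^ 2 ≤ 1 := by nlinarith [norm_nonneg v]
        rw [EuclideanSpace.norm_sq_eq, Fin.sum_univ_three] at this
        simp only [Real.norm_eq_abs, sq_abs] at this
        nlinarith [sq_nonneg (v 1)]
      apply Real.abs_le_sqrt
      nlinarith [sq_nonneg (v 0 + deriv w x * v 2)]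
    · have : φ (mk3 (x, y, w x)) = 0 :=
        image_eq_zero_of_notMem_tsupport fun h => hp (hφ.sub h)
      rw [this]
      simp only [PiLp.zero_apply, mul_zero, sub_zero, abs_zero]
      refine indicator_nonneg (fun _ _ => indicator_nonneg (fun _ _ => Real.sqrt_nonneg _) _) _
  have hin : ∀ x, ‖∫ y, (φ (mk3 (x, y, w x)) 2 - deriv w x * φ (mk3 (x, y, w x)) 0)‖ ≤
      (Ioo (-1 : ℝ) 1).indicator
        (fun x => 2 * b * (1 - √(x ^ 2 + w x ^ 2) / a) * √(1 + deriv w x ^ 2)) x := by
    intro x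
    by_cases hx : x ∈ Ioo (-1 : ℝ) 1
    · rw [indicator_of_mem hx]
      have h1 := norm_integral_le_of_norm_le
        (f := fun y => φ (mk3 (x, y, w x)) 2 - deriv w x * φ (mk3 (x, y, w x)) 0)
        (g := fun y => (Ioo (-θ x) (θ x)).indicator (fun _ => √(1 + deriv w x ^ 2)) y)
        (μ := volume)
        ((integrable_indicator_iff measurableSet_Ioo).2 (integrableOn_const (by simp) (by simp)))
        (Eventually.of_forall fun y => by
          have := hpt x y
          rw [indicator_of_mem hx] at this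
          simpa [Real.norm_eq_abs] using this)
      refine h1.trans (le_of_eq ?_)
      rw [integral_indicator measurableSet_Ioo, setIntegral_const]
      have hθ0 : 0 ≤ θ x := by
        have : √(x ^ 2 + w x ^ 2) / a ≤ 1 := by
          rw [div_le_one ha]; exact hwa x hx
        have : 0 ≤ 1 - √(x ^ 2 + w x ^ 2) / a := by linarith
        positivity
      rw [Real.volume_real_Ioo_of_le (by linarith), smul_eq_mul]
      simp only [hθ]
      ring
    · rw [indicator_of_notMem hx]
      have : ∀ y, φ (mk3 (x, y, w x)) 2 - deriv w x * φ (mk3 (x, y, w x)) 0 = 0 := by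
        intro y
        have := hpt x y
        rw [indicator_of_notMem hx] at this
        exact abs_nonpos_iff.1 this
      simp_rw [this]; simp
  have hI : Integrable ((Ioo (-1 : ℝ) 1).indicator
      (fun x => 2 * b * (1 - √(x ^ 2 + w x ^ 2) / a) * √(1 + deriv w x ^ 2))) := by
    rw [integrable_indicator_iff measurableSet_Ioo]
    have : Continuous fun x => 2 * b * (1 - √(x ^ 2 + w x ^ 2) / a) * √(1 + deriv w x ^ 2) := by
      fun_prop
    exact (this.integrableOn_Icc (a := -1) (b := 1)).mono_set Ioo_subset_Icc_self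
  have h2 := norm_integral_le_of_norm_le hI (Eventually.of_forall hin)
  refine (le_abs_self _).trans ?_
  rw [← Real.norm_eq_abs]
  refine h2.trans (le_of_eq ?_)
  rw [integral_indicator measurableSet_Ioo]
  rfl

end Pool.Agent.W789.Iso
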