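import Mathlib

/-! Relative perimeter: definitions and the translation estimate. -/

set_option autoImplicit false

namespace Pool.Agent.W789.Iso

open MeasureTheory Set Filter Topology Metric
open scoped ENNReal ContDiff Manifold

variable {n : ℕ}

/-- the divergence -/
noncomputable def dv (φ : EuclideanSpace ℝ (Fin n) → EuclideanSpace ℝ (Fin n))
    (x : EuclideanSpace ℝ (Fin n)) : ℝ :=
  LinearMap.trace ℝ (EuclideanSpace ℝ (Fin n)) (fderiv ℝ φ x).toLinearMap

/-- admissible test fields in `Ω` -/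
structure Adm (Ω : Set (EuclideanSpace ℝ (Fin n)))
    (φ : EuclideanSpace ℝ (Fin n) → EuclideanSpace ℝ (Fin n)) : Prop where
  smooth : ContDiff ℝ 1 φ
  supp : HasCompactSupport φ
  sub : tsupport φ ⊆ Ω
  bdd : ∀ x, ‖φ x‖ ≤ 1

/-- the perimeter of `A` relative to `Ω` is at most `C` -/
def PerLE (Ω A : Set (EuclideanSpace ℝ (Fin n))) (C : ℝ) : Prop :=
  ∀ φ, Adm Ω φ → ∫ x in A, dv φ x ≤ C

lemma trace_clm (L : EuclideanSpace ℝ (Fin n) →L[ℝ] EuclideanSpace ℝ (Fin n)) :
    LinearMap.trace ℝ (EuclideanSpace ℝ (Fin n)) L.toLinearMap =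
      ∑ i, (L (EuclideanSpace.single i 1)) i := by
  rw [LinearMap.trace_eq_matrix_trace ℝ (EuclideanSpace.basisFun (Fin n) ℝ).toBasis]
  simp [Matrix.trace, LinearMap.toMatrix_apply]

lemma dv_eq_sum (φ : EuclideanSpace ℝ (Fin n) → EuclideanSpace ℝ (Fin n))
    (x : EuclideanSpace ℝ (Fin n)) :
    dv φ x = ∑ i, (fderiv ℝ φ x (EuclideanSpace.single i 1)) i := trace_clm _

lemma dv_congr {φ ψ : EuclideanSpace ℝ (Fin n) → EuclideanSpace ℝ (Fin n)}
    {x : EuclideanSpace ℝ (Fin n)} (h : φ =ᶠ[𝓝 x] ψ) : dv φ x = dv ψ x := by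
  unfold dv
  rw [h.fderiv_eq]

lemma dv_zero (x : EuclideanSpace ℝ (Fin n)) :
    dv (fun _ => (0 : EuclideanSpace ℝ (Fin n))) x = 0 := by
  unfold dv
  simp

lemma dv_eq_zero_of_notMem {φ : EuclideanSpace ℝ (Fin n) → EuclideanSpace ℝ (Fin n)}
    {x : EuclideanSpace ℝ (Fin n)} (h : x ∉ tsupport φ) : dv φ x = 0 := by
  have : φ =ᶠ[𝓝 x] fun _ => 0 := by
    rw [notMem_tsupport_iff_eventuallyEq] at h
    exact h
  rw [dv_congr this, dv_zero]

lemma continuous_dv {φ : EuclideanSpace ℝ (Fin n) → EuclideanSpace ℝ (Fin n)}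
    (h : ContDiff ℝ 1 φ) : Continuous (dv φ) := by
  have h1 : dv φ = fun x => ∑ i, (fderiv ℝ φ x (EuclideanSpace.single i 1)) i := by
    funext x; exact dv_eq_sum φ x
  rw [h1]
  have h2 := h.continuous_fderiv (by norm_num)
  fun_prop

lemma hasCompactSupport_dv {φ : EuclideanSpace ℝ (Fin n) → EuclideanSpace ℝ (Fin n)}
    (h : HasCompactSupport φ) : HasCompactSupport (dv φ) := by
  refine HasCompactSupport.intro h.isCompact fun x hx => dv_eq_zero_of_notMem hx

lemma integrable_dv {φ : EuclideanSpace ℝ (Fin n) → EuclideanSpace ℝ (Fin n)}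
    (h : ContDiff ℝ 1 φ) (hc : HasCompactSupport φ) : Integrable (dv φ) :=
  (continuous_dv h).integrable_of_hasCompactSupport (hasCompactSupport_dv hc)

lemma dv_smul_const {f : EuclideanSpace ℝ (Fin n) → ℝ} {v x : EuclideanSpace ℝ (Fin n)}
    (hf : DifferentiableAt ℝ f x) : dv (fun x => f x • v) x = fderiv ℝ f x v := by
  rw [dv_eq_sum]
  have h1 : HasFDerivAt (fun x => f x • v) ((fderiv ℝ f x).smulRight v) x :=
    hf.hasFDerivAt.smul_const v
  rw [h1.fderiv]
  have h2 : v = ∑ i, v i • EuclideanSpace.single i (1 : ℝ) := by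
    ext j
    simp [Finset.sum_apply, Pi.single_apply]
  conv_rhs => rw [h2, map_sum]
  refine Finset.sum_congr rfl fun i _ => ?_
  simp [mul_comm]

lemma dv_const_smul {φ : EuclideanSpace ℝ (Fin n) → EuclideanSpace ℝ (Fin n)}
    {x : EuclideanSpace ℝ (Fin n)} (c : ℝ) :
    dv (fun x => c • φ x) x = c * dv φ x := by
  unfold dv
  have : (fun x => c • φ x) = c • φ := rfl
  rw [this, fderiv_const_smul_field]
  simp

lemma PerLE.nonneg {Ω A : Set (EuclideanSpace ℝ (Fin n))} {C : ℝ} (h : PerLE Ω A C) : 0 ≤ C := by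
  have h1 := h (fun _ => 0) ⟨contDiff_const, HasCompactSupport.zero, by simp, by simp⟩
  simpa [dv_zero] using h1

end Pool.Agent.W789.Iso
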