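import Mathlib

/-! One dimensional cut-off functions. -/

set_option autoImplicit false

namespace Pool.Agent.W789.Iso

open MeasureTheory Set Filter Topology

/-- smooth step from `-1` to `1` -/
noncomputable def St (t : ℝ) : ℝ := Real.smoothTransition ((t + 1) / 2)

lemma contDiff_St {n : ℕ∞} : ContDiff ℝ n St := by
  unfold St
  exact Real.smoothTransition.contDiff.comp (by fun_prop)

lemma St_zero {t : ℝ} (h : t ≤ -1) : St t = 0 :=
  Real.smoothTransition.zero_of_nonpos (by linarith)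

lemma St_one {t : ℝ} (h : 1 ≤ t) : St t = 1 :=
  Real.smoothTransition.one_of_one_le (by linarith)

lemma St_nonneg (t : ℝ) : 0 ≤ St t := Real.smoothTransition.nonneg _

lemma St_le_one (t : ℝ) : St t ≤ 1 := Real.smoothTransition.le_one _

lemma monotone_St : Monotone St := by
  intro x y h
  exact Real.smoothTransition.monotone (by linarith)

lemma deriv_St_nonneg (t : ℝ) : 0 ≤ deriv St t := monotone_St.deriv_nonneg

lemma deriv_St_zero {t : ℝ} (h : 1 < |t|) : deriv St t = 0 := by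
  rcases lt_abs.1 h with h | h
  · have : St =ᶠ[𝓝 t] fun _ => 1 := by
      filter_upwards [Ioi_mem_nhds h] with x hx
      exact St_one (le_of_lt hx)
    rw [this.deriv_eq]; simp
  · have : St =ᶠ[𝓝 t] fun _ => 0 := by
      filter_upwards [Iio_mem_nhds (by linarith : t < -1)] with x hx
      exact St_zero (le_of_lt hx)
    rw [this.deriv_eq]; simp

lemma continuous_deriv_St : Continuous (deriv St) :=
  (contDiff_St (n := 1)).continuous_deriv (by norm_num)

lemma exists_L : ∃ L : ℝ, 0 < L ∧ ∀ t, deriv St t ≤ L := by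
  obtain ⟨L, hL⟩ := (isCompact_Icc (a := (-1 : ℝ)) (b := 1)).exists_bound_of_continuousOn
    continuous_deriv_St.continuousOn
  refine ⟨max L 1, by positivity, fun t => ?_⟩
  by_cases h : 1 < |t|
  · rw [deriv_St_zero h]; positivity
  · have := hL t (abs_le.1 (not_lt.1 h))
    exact ((le_abs_self _).trans this).trans (le_max_left _ _)

/-- smooth cut-off -/
noncomputable def cut (l₁ l₂ l₃ l₄ t : ℝ) : ℝ :=
  Real.smoothTransition ((t - l₁) / (l₂ - l₁)) * Real.smoothTransition ((l₄ - t) / (l₄ - l₃))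

lemma contDiff_cut {n : ℕ∞} (l₁ l₂ l₃ l₄ : ℝ) : ContDiff ℝ n (cut l₁ l₂ l₃ l₄) := by
  unfold cut
  refine ContDiff.mul ?_ ?_
  · exact Real.smoothTransition.contDiff.comp (by fun_prop)
  · exact Real.smoothTransition.contDiff.comp (by fun_prop)

lemma cut_nonneg (l₁ l₂ l₃ l₄ t : ℝ) : 0 ≤ cut l₁ l₂ l₃ l₄ t :=
  mul_nonneg (Real.smoothTransition.nonneg _) (Real.smoothTransition.nonneg _)

lemma cut_le_one (l₁ l₂ l₃ l₄ t : ℝ) : cut l₁ l₂ l₃ l₄ t ≤ 1 :=
  mul_le_one₀ (Real.smoothTransition.le_one _) (Real.smoothTransition.nonneg _)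
    (Real.smoothTransition.le_one _)

lemma cut_one {l₁ l₂ l₃ l₄ t : ℝ} (h₁ : l₁ < l₂) (h₂ : l₃ < l₄) (h₃ : l₂ ≤ t) (h₄ : t ≤ l₃) :
    cut l₁ l₂ l₃ l₄ t = 1 := by
  unfold cut
  rw [Real.smoothTransition.one_of_one_le, Real.smoothTransition.one_of_one_le, one_mul]
  · rw [one_le_div (by linarith)]; linarith
  · rw [one_le_div (by linarith)]; linarith

lemma cut_mem {l₁ l₂ l₃ l₄ t : ℝ} (h₁ : l₁ < l₂) (h₂ : l₃ < l₄) (h : cut l₁ l₂ l₃ l₄ t ≠ 0) :
    l₁ < t ∧ t < l₄ := by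
  constructor
  · by_contra hcon
    apply h
    unfold cut
    rw [Real.smoothTransition.zero_of_nonpos, zero_mul]
    exact div_nonpos_of_nonpos_of_nonneg (by linarith [not_lt.1 hcon]) (by linarith)
  · by_contra hcon
    apply h
    unfold cut
    rw [Real.smoothTransition.zero_of_nonpos (x := (l₄ - t) / (l₄ - l₃)), mul_zero]
    exact div_nonpos_of_nonpos_of_nonneg (by linarith [not_lt.1 hcon]) (by linarith)

/-- vertical cut-off -/
noncomputable def zt (r : ℝ) : ℝ → ℝ := cut (-(1 - r)) (-(1 - 2 * r)) (1 - 2 * r) (1 - r)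

lemma contDiff_zt {n : ℕ∞} (r : ℝ) : ContDiff ℝ n (zt r) := contDiff_cut _ _ _ _

lemma zt_nonneg (r t : ℝ) : 0 ≤ zt r t := cut_nonneg _ _ _ _ _
lemma zt_le_one (r t : ℝ) : zt r t ≤ 1 := cut_le_one _ _ _ _ _

lemma zt_zero {r t : ℝ} (hr : 0 < r) (h : 1 - r ≤ |t|) : zt r t = 0 := by
  by_contra hcon
  have := cut_mem (by linarith) (by linarith) hcon
  have : |t| < 1 - r := abs_lt.2 this
  linarith

lemma zt_one {r t : ℝ} (hr : 0 < r) (h : |t| ≤ 1 - 2 * r) : zt r t = 1 :=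
  cut_one (by linarith) (by linarith) (by linarith [(abs_le.1 h).1]) (abs_le.1 h).2

/-- mass of the vertical cut-off -/
noncomputable def mz (r : ℝ) : ℝ := ∫ t in (-1 : ℝ)..1, zt r t

lemma mz_pos {r : ℝ} (hr : 0 < r) (hr' : r < 1 / 2) : 0 < mz r := by
  have hc : Continuous (zt r) := (contDiff_zt (n := 0) r).continuous
  have h1 : ∫ t in (-(1 - 2 * r))..(1 - 2 * r), zt r t ≤ mz r := by
    refine intervalIntegral.integral_mono_interval (by linarith) (by linarith) (by linarith) ?_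
      (hc.intervalIntegrable _ _)
    exact Eventually.of_forall fun t => zt_nonneg r t
  have h2 : ∫ t in (-(1 - 2 * r))..(1 - 2 * r), zt r t = 2 * (1 - 2 * r) := by
    have : ∫ t in (-(1 - 2 * r))..(1 - 2 * r), zt r t =
        ∫ t in (-(1 - 2 * r))..(1 - 2 * r), (1 : ℝ) := by
      apply intervalIntegral.integral_congr
      intro t ht
      rw [uIcc_of_le (by linarith)] at ht
      exact zt_one hr (abs_le.2 ht)
    rw [this, intervalIntegral.integral_const, smul_eq_mul]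
    ring
  linarith

lemma mz_le {r : ℝ} : mz r ≤ 2 := by
  have hc : Continuous (zt r) := (contDiff_zt (n := 0) r).continuous
  have : mz r ≤ ∫ t in (-1 : ℝ)..1, (1 : ℝ) := by
    refine intervalIntegral.integral_mono_on (by norm_num) (hc.intervalIntegrable _ _)
      (by simp) fun t _ => zt_le_one r t
  rw [intervalIntegral.integral_const, smul_eq_mul] at this
  linarith

/-- normalised primitive -/
noncomputable def Zt (r t : ℝ) : ℝ := (∫ x in (-1 : ℝ)..t, zt r x) / mz r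

lemma hasDerivAt_Zt (r t : ℝ) : HasDerivAt (Zt r) (zt r t / mz r) t := by
  have hc : Continuous (zt r) := (contDiff_zt (n := 0) r).continuous
  exact (intervalIntegral.integral_hasDerivAt_right (hc.intervalIntegrable _ _)
    (hc.stronglyMeasurableAtFilter _ _) hc.continuousAt).div_const _

lemma contDiff_Zt (r : ℝ) : ContDiff ℝ 1 (Zt r) := by
  have hc : Continuous (zt r) := (contDiff_zt (n := 0) r).continuous
  rw [contDiff_one_iff_deriv]
  refine ⟨fun t => (hasDerivAt_Zt r t).differentiableAt, ?_⟩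
  have : deriv (Zt r) = fun t => zt r t / mz r := funext fun t => (hasDerivAt_Zt r t).deriv
  rw [this]
  fun_prop

lemma Zt_zero {r t : ℝ} (hr : 0 < r) (h : t ≤ -(1 - r)) : Zt r t = 0 := by
  have : ∫ x in (-1 : ℝ)..t, zt r x = ∫ x in (-1 : ℝ)..t, (0 : ℝ) := by
    apply intervalIntegral.integral_congr
    intro x hx
    have hx' : x ≤ -(1 - r) := by
      rw [uIcc, mem_Icc] at hx
      exact hx.2.trans (max_le (by linarith) h)
    by_cases hr1 : r ≤ 1
    · exact zt_zero hr (by rw [abs_of_nonpos (by linarith)]; linarith)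
    · exact zt_zero hr (by linarith [abs_nonneg x])
  unfold Zt
  rw [this]
  simp

lemma Zt_one {r t : ℝ} (hr : 0 < r) (hr' : r < 1 / 2) (h : 1 - r ≤ t) : Zt r t = 1 := by
  have hc : Continuous (zt r) := (contDiff_zt (n := 0) r).continuous
  have h1 : ∫ x in (1 : ℝ)..t, zt r x = ∫ x in (1 : ℝ)..t, (0 : ℝ) := by
    apply intervalIntegral.integral_congr
    intro x hx
    have hx' : 1 - r ≤ x := by
      rw [uIcc, mem_Icc] at hx
      exact (le_min (by linarith) h).trans hx.1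
    exact zt_zero hr (by rw [abs_of_nonneg (by linarith)]; linarith)
  unfold Zt
  rw [← intervalIntegral.integral_add_adjacent_intervals (hc.intervalIntegrable (-1) 1)
    (hc.intervalIntegrable 1 t), h1]
  simp only [intervalIntegral.integral_zero, add_zero]
  exact div_self (mz_pos hr hr').ne'

lemma monotone_Zt {r : ℝ} (hr : 0 < r) (hr' : r < 1 / 2) : Monotone (Zt r) := by
  apply monotone_of_deriv_nonneg
  · exact fun t => (hasDerivAt_Zt r t).differentiableAt
  · intro t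
    rw [(hasDerivAt_Zt r t).deriv]
    exact div_nonneg (zt_nonneg r t) (mz_pos hr hr').le

lemma Zt_nonneg {r : ℝ} (hr : 0 < r) (hr' : r < 1 / 2) (t : ℝ) : 0 ≤ Zt r t := by
  have h1 := monotone_Zt hr hr' (min_le_left t (-1))
  rwa [Zt_zero hr (by have := min_le_right t (-1); linarith)] at h1

lemma Zt_le_one {r : ℝ} (hr : 0 < r) (hr' : r < 1 / 2) (t : ℝ) : Zt r t ≤ 1 := by
  have h1 := monotone_Zt hr hr' (le_max_left t 1)
  rwa [Zt_one (t := max t 1) hr hr' (by have := le_max_right t 1; linarith)] at h1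

/-- radial cut-off, as a function of the square of the radius -/
noncomputable def zr (r : ℝ) : ℝ → ℝ :=
  cut (r ^ 2) (4 * r ^ 2) ((1 - 2 * r) ^ 2) ((1 - r) ^ 2)

lemma contDiff_zr {n : ℕ∞} (r : ℝ) : ContDiff ℝ n (zr r) := contDiff_cut _ _ _ _
lemma zr_nonneg (r t : ℝ) : 0 ≤ zr r t := cut_nonneg _ _ _ _ _
lemma zr_le_one (r t : ℝ) : zr r t ≤ 1 := cut_le_one _ _ _ _ _

lemma zr_mem {r q : ℝ} (hr : 0 < r) (hr' : r < 1 / 4) (h : zr r q ≠ 0) :
    r ^ 2 < q ∧ q < (1 - r) ^ 2 :=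
  cut_mem (by nlinarith) (by nlinarith) h

lemma zr_one {r q : ℝ} (hr : 0 < r) (hr' : r < 1 / 4) (h : 4 * r ^ 2 ≤ q)
    (h' : q ≤ (1 - 2 * r) ^ 2) : zr r q = 1 :=
  cut_one (by nlinarith) (by nlinarith) h h'

/-- auxiliary -/
noncomputable def mr (r q : ℝ) : ℝ :=
  cut (r ^ 2 / 2) (r ^ 2) ((1 - r) ^ 2) 1 q * q + (1 - cut (r ^ 2 / 2) (r ^ 2) ((1 - r) ^ 2) 1 q)

lemma mr_mem {r : ℝ} (hr : 0 < r) (hr' : r < 1 / 4) (q : ℝ) : 0 < mr r q ∧ mr r q ≤ 1 := by
  unfold mr
  set c := cut (r ^ 2 / 2) (r ^ 2) ((1 - r) ^ 2) 1 q with hc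
  have h0 : 0 ≤ c := cut_nonneg _ _ _ _ _
  have h1 : c ≤ 1 := cut_le_one _ _ _ _ _
  by_cases h : c = 0
  · rw [h]; norm_num
  · have h2 := cut_mem (by nlinarith) (by nlinarith) h
    have hq : 0 < q := by nlinarith [h2.1]
    have hc0 : 0 < c := lt_of_le_of_ne h0 (Ne.symm h)
    constructor
    · have := mul_pos hc0 hq
      linarith
    · nlinarith [h2.2]

/-- the regularised radius -/
noncomputable def Rr (r q : ℝ) : ℝ := √(mr r q)

lemma contDiff_Rr {r : ℝ} (hr : 0 < r) (hr' : r < 1 / 4) {n : ℕ∞} : ContDiff ℝ n (Rr r) := by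
  have h1 : ContDiff ℝ n (mr r) := by
    have := contDiff_cut (n := n) (r ^ 2 / 2) (r ^ 2) ((1 - r) ^ 2) 1
    unfold mr
    fun_prop
  exact h1.sqrt fun q => (mr_mem hr hr' q).1.ne'

lemma Rr_pos {r : ℝ} (hr : 0 < r) (hr' : r < 1 / 4) (q : ℝ) : 0 < Rr r q :=
  Real.sqrt_pos.2 (mr_mem hr hr' q).1

lemma Rr_le_one {r : ℝ} (hr : 0 < r) (hr' : r < 1 / 4) (q : ℝ) : Rr r q ≤ 1 :=
  Real.sqrt_le_one.2 (mr_mem hr hr' q).2

lemma Rr_eq {r q : ℝ} (hr : 0 < r) (hr' : r < 1 / 4) (h : r ^ 2 ≤ q) (h' : q ≤ (1 - r) ^ 2) :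
    Rr r q = √q := by
  unfold Rr mr
  rw [cut_one (by nlinarith) (by nlinarith) h h']
  simp

end Pool.Agent.W789.Iso
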