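import Pool.Agent.W789.Iso.Trap
import Pool.Agent.W789.Iso.Fns

/-! The rotational test field and its divergence. -/

set_option autoImplicit false

namespace Pool.Agent.W789.Iso

open MeasureTheory Set Filter Topology
open scoped ENNReal

lemma dv_eq_of {Φ : E3 → E3} (hΦ : ContDiff ℝ 1 Φ) {x y z a b c : ℝ}
    (h0 : HasDerivAt (fun t => Φ (mk3 (t, y, z)) 0) a x)
    (h1 : HasDerivAt (fun t => Φ (mk3 (x, t, z)) 1) b y)
    (h2 : HasDerivAt (fun t => Φ (mk3 (x, y, t)) 2) c z) :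
    dv Φ (mk3 (x, y, z)) = a + b + c := by
  rw [dv_eq_sum, Fin.sum_univ_three]
  rw [(hasDerivAt_comp hΦ 0 (hasDerivAt_mk3_0 x y z)).unique h0,
    (hasDerivAt_comp hΦ 1 (hasDerivAt_mk3_1 x y z)).unique h1,
    (hasDerivAt_comp hΦ 2 (hasDerivAt_mk3_2 x y z)).unique h2]

section General

variable (g η κ k z₂ X X₁ H Z : ℝ → ℝ) (s A B ρ : ℝ)

/-- potential part -/
noncomputable def PP (x y z : ℝ) : ℝ :=
  g (x ^ 2 + z ^ 2) * z₂ (y * η (x ^ 2 + z ^ 2)) * X ((x - s * z) * κ (x ^ 2 + z ^ 2))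

/-- vertical part -/
noncomputable def QQ (x y z : ℝ) : ℝ :=
  k (x ^ 2 + z ^ 2) * X₁ ((x - s * z) * κ (x ^ 2 + z ^ 2)) * (z + s * x) *
    (H ((y - (A * x + B * z)) / ρ) - Z (y * η (x ^ 2 + z ^ 2)))

/-- the field -/
noncomputable def fld (p : E3) : E3 :=
  !₂[p 2 * PP g η κ z₂ X s (p 0) (p 1) (p 2),
    QQ η κ k X₁ H Z s A B ρ (p 0) (p 1) (p 2),
    -(p 0 * PP g η κ z₂ X s (p 0) (p 1) (p 2))]

lemma fld_0 (p : E3) : fld g η κ k z₂ X X₁ H Z s A B ρ p 0 =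
    p 2 * PP g η κ z₂ X s (p 0) (p 1) (p 2) := rfl

lemma fld_1 (p : E3) : fld g η κ k z₂ X X₁ H Z s A B ρ p 1 =
    QQ η κ k X₁ H Z s A B ρ (p 0) (p 1) (p 2) := rfl

lemma fld_2 (p : E3) : fld g η κ k z₂ X X₁ H Z s A B ρ p 2 =
    -(p 0 * PP g η κ z₂ X s (p 0) (p 1) (p 2)) := rfl

variable {g η κ k z₂ X X₁ H Z : ℝ → ℝ} {s A B ρ : ℝ}

lemma contDiff_fld (hg : ContDiff ℝ 1 g) (hη : ContDiff ℝ 1 η) (hκ : ContDiff ℝ 1 κ)
    (hk : ContDiff ℝ 1 k) (hz₂ : ContDiff ℝ 1 z₂) (hX : ContDiff ℝ 1 X)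
    (hX₁ : ContDiff ℝ 1 X₁) (hH : ContDiff ℝ 1 H) (hZ : ContDiff ℝ 1 Z) :
    ContDiff ℝ 1 (fld g η κ k z₂ X X₁ H Z s A B ρ) := by
  rw [contDiff_euclidean]
  intro i
  fin_cases i
  · show ContDiff ℝ 1 fun p : E3 => p 2 * PP g η κ z₂ X s (p 0) (p 1) (p 2)
    unfold PP
    fun_prop
  · show ContDiff ℝ 1 fun p : E3 => QQ η κ k X₁ H Z s A B ρ (p 0) (p 1) (p 2)
    unfold QQ
    fun_prop
  · show ContDiff ℝ 1 fun p : E3 => -(p 0 * PP g η κ z₂ X s (p 0) (p 1) (p 2))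
    unfold PP
    fun_prop

theorem dv_fld (hg : ContDiff ℝ 1 g) (hη : ContDiff ℝ 1 η) (hκ : ContDiff ℝ 1 κ)
    (hk : ContDiff ℝ 1 k) (hz₂ : ContDiff ℝ 1 z₂) (hX : ContDiff ℝ 1 X)
    (hX₁ : ContDiff ℝ 1 X₁) (hH : ContDiff ℝ 1 H) (hZ : ContDiff ℝ 1 Z)
    {m : ℝ} (hm : m ≠ 0) (hXd : ∀ t, HasDerivAt X (X₁ t) t)
    (hZd : ∀ t, HasDerivAt Z (z₂ t / m) t) (hkη : ∀ q, k q * η q = m * g q * κ q)
    (x y z : ℝ) :
    dv (fld g η κ k z₂ X X₁ H Z s A B ρ) (mk3 (x, y, z)) =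
      k (x ^ 2 + z ^ 2) * X₁ ((x - s * z) * κ (x ^ 2 + z ^ 2)) * (z + s * x) *
        (deriv H ((y - (A * x + B * z)) / ρ) / ρ) := by
  set q := x ^ 2 + z ^ 2 with hq
  have dg : HasDerivAt g (deriv g q) q := (hg.differentiable (by norm_num) q).hasDerivAt
  have dη : HasDerivAt η (deriv η q) q := (hη.differentiable (by norm_num) q).hasDerivAt
  have dκ : HasDerivAt κ (deriv κ q) q := (hκ.differentiable (by norm_num) q).hasDerivAt
  have dz : HasDerivAt z₂ (deriv z₂ (y * η q)) (y * η q) :=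
    (hz₂.differentiable (by norm_num) _).hasDerivAt
  have dH : HasDerivAt H (deriv H ((y - (A * x + B * z)) / ρ)) ((y - (A * x + B * z)) / ρ) :=
    (hH.differentiable (by norm_num) _).hasDerivAt
  -- radial variable
  have qx : HasDerivAt (fun t : ℝ => t ^ 2 + z ^ 2) (2 * x) x := by
    simpa using (hasDerivAt_pow 2 x).add_const (z ^ 2)
  have qz : HasDerivAt (fun t : ℝ => x ^ 2 + t ^ 2) (2 * z) z := by
    simpa using (hasDerivAt_pow 2 z).const_add (x ^ 2)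
  have ux : HasDerivAt (fun t : ℝ => t - s * z) 1 x := (hasDerivAt_id x).sub_const _
  have uz : HasDerivAt (fun t : ℝ => x - s * t) (-s) z := by
    simpa using ((hasDerivAt_id z).const_mul s).const_sub x
  -- generic chain rule for `PP`
  have key : ∀ (qf uf : ℝ → ℝ) (t₀ q' u' : ℝ), qf t₀ = q → uf t₀ = x - s * z →
      HasDerivAt qf q' t₀ → HasDerivAt uf u' t₀ →
      HasDerivAt (fun t => g (qf t) * z₂ (y * η (qf t)) * X (uf t * κ (qf t)))
        (((deriv g q * q') * z₂ (y * η q) + g q * (deriv z₂ (y * η q) * (y * (deriv η q * q')))) *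
          X ((x - s * z) * κ q) + g q * z₂ (y * η q) *
            (X₁ ((x - s * z) * κ q) * (u' * κ q + (x - s * z) * (deriv κ q * q')))) t₀ := by
    intro qf uf t₀ q' u' e1 e2 hqf huf
    have a1 : HasDerivAt (fun t => g (qf t)) (deriv g q * q') t₀ := by
      rw [← e1] at dg ⊢
      exact dg.comp t₀ hqf
    have a2 : HasDerivAt (fun t => η (qf t)) (deriv η q * q') t₀ := by
      rw [← e1] at dη ⊢
      exact dη.comp t₀ hqf
    have a3 : HasDerivAt (fun t => κ (qf t)) (deriv κ q * q') t₀ := by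
      rw [← e1] at dκ ⊢
      exact dκ.comp t₀ hqf
    have a4 : HasDerivAt (fun t => z₂ (y * η (qf t)))
        (deriv z₂ (y * η q) * (y * (deriv η q * q'))) t₀ := by
      have := a2.const_mul y
      rw [← e1] at dz ⊢
      rw [← e1] at this
      exact HasDerivAt.comp (h₂ := z₂) (h := fun t => y * η (qf t)) t₀ dz this
    have a5 : HasDerivAt (fun t => uf t * κ (qf t))
        (u' * κ q + (x - s * z) * (deriv κ q * q')) t₀ := by
      have := huf.mul a3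
      rw [e1, e2] at this
      exact this
    have a6 : HasDerivAt (fun t => X (uf t * κ (qf t)))
        (X₁ ((x - s * z) * κ q) * (u' * κ q + (x - s * z) * (deriv κ q * q'))) t₀ := by
      have h3 : HasDerivAt X (X₁ ((x - s * z) * κ q)) (uf t₀ * κ (qf t₀)) := by
        rw [e1, e2]; exact hXd _
      exact HasDerivAt.comp (h₂ := X) (h := fun t => uf t * κ (qf t)) t₀ h3 a5
    have a7 := (a1.mul a4).mul a6
    simp only [Pi.mul_apply] at a7
    rw [e1, e2] at a7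
    exact a7
  have hPx : HasDerivAt (fun t => PP g η κ z₂ X s t y z) _ x :=
    key (fun t => t ^ 2 + z ^ 2) (fun t => t - s * z) x (2 * x) 1 rfl rfl qx ux
  have hPz : HasDerivAt (fun t => PP g η κ z₂ X s x y t) _ z :=
    key (fun t => x ^ 2 + t ^ 2) (fun t => x - s * t) z (2 * z) (-s) rfl rfl qz uz
  have h0 : HasDerivAt (fun t => fld g η κ k z₂ X X₁ H Z s A B ρ (mk3 (t, y, z)) 0) _ x :=
    hPx.const_mul z
  have h2 : HasDerivAt (fun t => fld g η κ k z₂ X X₁ H Z s A B ρ (mk3 (x, y, t)) 2) _ z :=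
    (hPz.const_mul x).neg
  have h1 : HasDerivAt (fun t => fld g η κ k z₂ X X₁ H Z s A B ρ (mk3 (x, t, z)) 1)
      (k q * X₁ ((x - s * z) * κ q) * (z + s * x) *
        (deriv H ((y - (A * x + B * z)) / ρ) / ρ - z₂ (y * η q) / m * η q)) y := by
    have b1 : HasDerivAt (fun t : ℝ => (t - (A * x + B * z)) / ρ) (1 / ρ) y :=
      ((hasDerivAt_id y).sub_const _).div_const ρ
    have b2 : HasDerivAt (fun t : ℝ => H ((t - (A * x + B * z)) / ρ))
        (deriv H ((y - (A * x + B * z)) / ρ) * (1 / ρ)) y :=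
      HasDerivAt.comp (h₂ := H) (h := fun t : ℝ => (t - (A * x + B * z)) / ρ) y dH b1
    have b3 : HasDerivAt (fun t : ℝ => t * η q) (η q) y := by
      simpa using (hasDerivAt_id y).mul_const (η q)
    have b4 : HasDerivAt (fun t : ℝ => Z (t * η q)) (z₂ (y * η q) / m * η q) y :=
      HasDerivAt.comp (h₂ := Z) (h := fun t : ℝ => t * η q) y (hZd _) b3
    have b5 := (b2.sub b4).const_mul (k q * X₁ ((x - s * z) * κ q) * (z + s * x))
    rw [mul_one_div] at b5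
    exact b5
  rw [dv_eq_of (contDiff_fld hg hη hκ hk hz₂ hX hX₁ hH hZ) h0 h1 h2]
  have e := hkη q
  have e' : k q * X₁ ((x - s * z) * κ q) * (z + s * x) * (z₂ (y * η q) / m * η q) =
      g q * κ q * X₁ ((x - s * z) * κ q) * (z + s * x) * z₂ (y * η q) := by
    have : k q * X₁ ((x - s * z) * κ q) * (z + s * x) * (z₂ (y * η q) / m * η q) =
      (k q * η q) / m * X₁ ((x - s * z) * κ q) * (z + s * x) * z₂ (y * η q) := by ring
    rw [this, e]
    field_simp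
  rw [mul_sub, e']
  ring

end General

end Pool.Agent.W789.Iso
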