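import Pool.Agent.W789.Iso.Defs
import Pool.Agent.W789.Iso.Coord

/-! Divergence theorem for subgraphs in `ℝ³`. -/

set_option autoImplicit false

namespace Pool.Agent.W789.Iso

open MeasureTheory Set Filter Topology
open scoped ENNReal

lemma hasDerivAt_mk3_0 (x y z : ℝ) :
    HasDerivAt (fun t => mk3 (t, y, z)) (EuclideanSpace.single (0 : Fin 3) (1 : ℝ)) x := by
  have : (fun t => mk3 (t, y, z)) = fun t => mk3 (0, y, z) +
      t • EuclideanSpace.single (0 : Fin 3) (1 : ℝ) := by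
    funext t; ext i; fin_cases i <;> simp [mk3]
  rw [this]
  simpa using ((hasDerivAt_id x).smul_const
    (EuclideanSpace.single (0 : Fin 3) (1 : ℝ))).const_add (mk3 (0, y, z))

lemma hasDerivAt_mk3_1 (x y z : ℝ) :
    HasDerivAt (fun t => mk3 (x, t, z)) (EuclideanSpace.single (1 : Fin 3) (1 : ℝ)) y := by
  have : (fun t => mk3 (x, t, z)) = fun t => mk3 (x, 0, z) +
      t • EuclideanSpace.single (1 : Fin 3) (1 : ℝ) := by
    funext t; ext i; fin_cases i <;> simp [mk3]
  rw [this]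
  simpa using ((hasDerivAt_id y).smul_const
    (EuclideanSpace.single (1 : Fin 3) (1 : ℝ))).const_add (mk3 (x, 0, z))

lemma hasDerivAt_mk3_2 (x y z : ℝ) :
    HasDerivAt (fun t => mk3 (x, y, t)) (EuclideanSpace.single (2 : Fin 3) (1 : ℝ)) z := by
  have : (fun t => mk3 (x, y, t)) = fun t => mk3 (x, y, 0) +
      t • EuclideanSpace.single (2 : Fin 3) (1 : ℝ) := by
    funext t; ext i; fin_cases i <;> simp [mk3]
  rw [this]
  simpa using ((hasDerivAt_id z).smul_const
    (EuclideanSpace.single (2 : Fin 3) (1 : ℝ))).const_add (mk3 (x, y, 0))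

/-- partial derivative of a component -/
noncomputable def pd (Φ : E3 → E3) (i j : Fin 3) (q : ℝ × ℝ × ℝ) : ℝ :=
  (fderiv ℝ Φ (mk3 q) (EuclideanSpace.single j 1)) i

lemma hasDerivAt_comp {Φ : E3 → E3} (hΦ : ContDiff ℝ 1 Φ) (i : Fin 3) {c : ℝ → E3} {c' : E3}
    {t : ℝ} (hc : HasDerivAt c c' t) :
    HasDerivAt (fun s => Φ (c s) i) ((fderiv ℝ Φ (c t) c') i) t := by
  have h1 : HasFDerivAt Φ (fderiv ℝ Φ (c t)) (c t) :=
    (hΦ.differentiable (by norm_num) (c t)).hasFDerivAt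
  have h2 := h1.comp_hasDerivAt t hc
  exact (EuclideanSpace.proj (𝕜 := ℝ) i).hasFDerivAt.comp_hasDerivAt t h2

section Fub

variable {F : ℝ × ℝ × ℝ → ℝ} (hF : Continuous F) (hc : HasCompactSupport F)
  {S : Set (ℝ × ℝ × ℝ)} (hS : MeasurableSet S)

include hF hc hS

lemma fub_int : Integrable (S.indicator F) :=
  (hF.integrable_of_hasCompactSupport hc).indicator hS

lemma fub_slice (x : ℝ) : Integrable (fun r : ℝ × ℝ => S.indicator F (x, r)) := by
  have h1 : Continuous (fun r : ℝ × ℝ => F (x, r)) := hF.comp (by fun_prop)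
  have h2 : HasCompactSupport (fun r : ℝ × ℝ => F (x, r)) := by
    refine HasCompactSupport.intro (hc.isCompact.image continuous_snd) fun r hr => ?_
    by_contra h
    exact hr ⟨(x, r), subset_tsupport _ h, rfl⟩
  have h3 : (fun r : ℝ × ℝ => S.indicator F (x, r)) =
      (Prod.mk x ⁻¹' S).indicator (fun r => F (x, r)) := rfl
  rw [h3]
  exact (h1.integrable_of_hasCompactSupport h2).indicator (measurable_prodMk_left hS)

lemma fub_xyz : ∫ q in S, F q = ∫ x, ∫ y, ∫ z, S.indicator F (x, y, z) := by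
  rw [← integral_indicator hS]
  have h := integral_prod (μ := (volume : Measure ℝ)) (ν := (volume : Measure (ℝ × ℝ)))
    (S.indicator F) (fub_int hF hc hS)
  rw [← Measure.volume_eq_prod] at h
  rw [h]
  congr 1
  funext x
  have h2 := integral_prod (μ := (volume : Measure ℝ)) (ν := (volume : Measure ℝ))
    (fun r : ℝ × ℝ => S.indicator F (x, r)) (fub_slice hF hc hS x)
  rw [← Measure.volume_eq_prod] at h2
  exact h2

lemma fub_xzy : ∫ q in S, F q = ∫ x, ∫ z, ∫ y, S.indicator F (x, y, z) := by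
  rw [← integral_indicator hS]
  have h := integral_prod (μ := (volume : Measure ℝ)) (ν := (volume : Measure (ℝ × ℝ)))
    (S.indicator F) (fub_int hF hc hS)
  rw [← Measure.volume_eq_prod] at h
  rw [h]
  congr 1
  funext x
  have h2 := integral_prod_symm (μ := (volume : Measure ℝ)) (ν := (volume : Measure ℝ))
    (fun r : ℝ × ℝ => S.indicator F (x, r)) (fub_slice hF hc hS x)
  rw [← Measure.volume_eq_prod] at h2
  exact h2

lemma fub_yzx : ∫ q in S, F q = ∫ r : ℝ × ℝ, ∫ x, S.indicator F (x, r) := by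
  rw [← integral_indicator hS]
  have h := integral_prod_symm (μ := (volume : Measure ℝ)) (ν := (volume : Measure (ℝ × ℝ)))
    (S.indicator F) (fub_int hF hc hS)
  rw [← Measure.volume_eq_prod] at h
  exact h

end Fub

section Main

variable {Φ : E3 → E3} (hΦ : ContDiff ℝ 1 Φ) (hc : HasCompactSupport Φ)

include hΦ in
lemma continuous_pd (i j : Fin 3) : Continuous (pd Φ i j) := by
  have h2 := hΦ.continuous_fderiv (by norm_num)
  have h3 := continuous_mk3
  unfold pd
  fun_prop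

lemma compact_of_zero {X : Type*} [TopologicalSpace X] {f : ℝ × ℝ × ℝ → ℝ}
    (hc : HasCompactSupport Φ)
    (h : ∀ q, mk3 q ∉ tsupport Φ → f q = 0) : HasCompactSupport f := by
  have hK : IsCompact (e3 '' tsupport Φ) := by
    have : (e3 : E3 → ℝ × ℝ × ℝ) = fun p => (p 0, p 1, p 2) := funext e3_apply
    rw [this]
    exact hc.isCompact.image (by fun_prop)
  refine HasCompactSupport.intro hK fun q hq => h q fun h2 => hq ⟨mk3 q, h2, ?_⟩
  rw [← e3_symm, MeasurableEquiv.apply_symm_apply]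

include hc in
lemma compact_pd (i j : Fin 3) : HasCompactSupport (pd Φ i j) := by
  refine compact_of_zero (X := ℝ) hc fun q hq => ?_
  have h1 : fderiv ℝ Φ (mk3 q) = 0 := by
    have : Φ =ᶠ[𝓝 (mk3 q)] fun _ => 0 := by
      rw [notMem_tsupport_iff_eventuallyEq] at hq
      exact hq
    rw [this.fderiv_eq]; simp
  unfold pd
  rw [h1]; simp

include hc in
lemma compact_line {c : ℝ → E3} (hcl : IsClosedEmbedding c) (i : Fin 3) :
    HasCompactSupport (fun t => Φ (c t) i) := by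
  have h1 : HasCompactSupport (fun t => Φ (c t)) := hc.comp_isClosedEmbedding hcl
  exact h1.comp_left (g := fun v : E3 => v i) rfl

lemma hcs_shift {f : ℝ × ℝ × ℝ → ℝ} (hf : HasCompactSupport f) {w : ℝ → ℝ} (hw : Continuous w) :
    HasCompactSupport (fun q : ℝ × ℝ × ℝ => f (q.1, q.2.1, q.2.2 + w q.1)) := by
  have hK : IsCompact ((fun q : ℝ × ℝ × ℝ => (q.1, q.2.1, q.2.2 - w q.1)) '' tsupport f) :=
    hf.isCompact.image (by fun_prop)
  refine HasCompactSupport.intro hK fun q hq => ?_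
  by_contra h
  exact hq ⟨(q.1, q.2.1, q.2.2 + w q.1), subset_tsupport _ h, by simp⟩

lemma ind_low {F : ℝ × ℝ × ℝ → ℝ} (w : ℝ → ℝ) (x y z : ℝ) :
    ({q : ℝ × ℝ × ℝ | q.2.2 < w q.1}).indicator F (x, y, z) =
      (Iio (w x)).indicator (fun z => F (x, y, z)) z := rfl

lemma meas_low {w : ℝ → ℝ} (hw : Continuous w) :
    MeasurableSet {q : ℝ × ℝ × ℝ | q.2.2 < w q.1} :=
  (isOpen_lt (by fun_prop) (by fun_prop)).measurableSet

/-- the integral of the derivative along a line of a compactly supported function over a half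
line -/
lemma int_Iio {g g' : ℝ → ℝ} (hg : ∀ t, HasDerivAt g (g' t) t) (hg' : Continuous g')
    (hcg : HasCompactSupport g) (hcg' : HasCompactSupport g') (s : ℝ) :
    ∫ t in Iio s, g' t = g s := by
  rw [← integral_Iic_eq_integral_Iio,
    integral_Iic_of_hasDerivAt_of_tendsto (m := 0) (f := g) ?_ ?_ ?_ ?_, sub_zero]
  · exact (hg s).continuousAt.continuousWithinAt
  · exact fun t _ => hg t
  · exact (hg'.integrable_of_hasCompactSupport hcg').integrableOn
  · have h1 : g =ᶠ[atBot] fun _ => 0 := by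
      have h2 := hcg.isCompact.isBounded.bddBelow
      obtain ⟨B, hB⟩ := h2
      filter_upwards [eventually_lt_atBot B] with t ht
      by_contra h
      exact absurd (hB (subset_tsupport _ h)) (not_le.2 ht)
    exact (tendsto_congr' h1).2 tendsto_const_nhds

lemma int_line {g g' : ℝ → ℝ} (hg : ∀ t, HasDerivAt g (g' t) t) (hg' : Continuous g')
    (hcg : HasCompactSupport g) (hcg' : HasCompactSupport g') :
    ∫ t, g' t = 0 := by
  have hgc : Continuous g := continuous_iff_continuousAt.2 fun t => (hg t).continuousAt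
  exact integral_eq_zero_of_hasDerivAt_of_integrable hg
    (hg'.integrable_of_hasCompactSupport hcg') (hgc.integrable_of_hasCompactSupport hcg)

omit hΦ hc in
lemma hcs_x {f : ℝ × ℝ × ℝ → ℝ} (hf : HasCompactSupport f) (y z : ℝ) :
    HasCompactSupport (fun t => f (t, y, z)) := by
  refine HasCompactSupport.intro (hf.isCompact.image continuous_fst) fun t ht => ?_
  by_contra h
  exact ht ⟨(t, y, z), subset_tsupport _ h, rfl⟩

omit hΦ hc in
lemma hcs_y {f : ℝ × ℝ × ℝ → ℝ} (hf : HasCompactSupport f) (x z : ℝ) :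
    HasCompactSupport (fun t => f (x, t, z)) := by
  refine HasCompactSupport.intro (hf.isCompact.image (continuous_fst.comp continuous_snd))
    fun t ht => ?_
  by_contra h
  exact ht ⟨(x, t, z), subset_tsupport _ h, rfl⟩

omit hΦ hc in
lemma hcs_z {f : ℝ × ℝ × ℝ → ℝ} (hf : HasCompactSupport f) (x y : ℝ) :
    HasCompactSupport (fun t => f (x, y, t)) := by
  refine HasCompactSupport.intro (hf.isCompact.image (continuous_snd.comp continuous_snd))
    fun t ht => ?_
  by_contra h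
  exact ht ⟨(x, y, t), subset_tsupport _ h, rfl⟩

include hc in
lemma compact_comp (i : Fin 3) : HasCompactSupport (fun q => Φ (mk3 q) i) := by
  refine compact_of_zero (X := ℝ) hc fun q hq => ?_
  rw [image_eq_zero_of_notMem_tsupport hq]; rfl

include hΦ in
lemma continuous_comp3 (i : Fin 3) : Continuous (fun q => Φ (mk3 q) i) := by
  have h2 := hΦ.continuous
  have h3 := continuous_mk3
  fun_prop

include hΦ hc in
/-- the `z` derivative -/
lemma int_z {w : ℝ → ℝ} (hw : Continuous w) :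
    ∫ q in {q : ℝ × ℝ × ℝ | q.2.2 < w q.1}, pd Φ 2 2 q =
      ∫ x, ∫ y, Φ (mk3 (x, y, w x)) 2 := by
  rw [fub_xyz (continuous_pd hΦ 2 2) (compact_pd hc 2 2) (meas_low hw)]
  congr 1; funext x; congr 1; funext y
  simp_rw [ind_low]
  rw [integral_indicator measurableSet_Iio]
  exact int_Iio (g := fun z => Φ (mk3 (x, y, z)) 2)
    (fun t => hasDerivAt_comp hΦ 2 (hasDerivAt_mk3_2 x y t))
    ((continuous_pd hΦ 2 2).comp (by fun_prop)) (hcs_z (compact_comp hc 2) x y)
    (hcs_z (compact_pd hc 2 2) x y) (w x)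

include hΦ hc in
/-- the `y` derivative -/
lemma int_y {w : ℝ → ℝ} (hw : Continuous w) :
    ∫ q in {q : ℝ × ℝ × ℝ | q.2.2 < w q.1}, pd Φ 1 1 q = 0 := by
  rw [fub_xzy (continuous_pd hΦ 1 1) (compact_pd hc 1 1) (meas_low hw)]
  have : ∀ x z : ℝ, ∫ y, ({q : ℝ × ℝ × ℝ | q.2.2 < w q.1}).indicator (pd Φ 1 1) (x, y, z) = 0 := by
    intro x z
    by_cases hz : z < w x
    · have h1 : ∀ y, ({q : ℝ × ℝ × ℝ | q.2.2 < w q.1}).indicator (pd Φ 1 1) (x, y, z) =
          pd Φ 1 1 (x, y, z) := fun y => indicator_of_mem (by exact hz) _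
      simp_rw [h1]
      exact int_line (g := fun y => Φ (mk3 (x, y, z)) 1)
        (fun t => hasDerivAt_comp hΦ 1 (hasDerivAt_mk3_1 x t z))
        ((continuous_pd hΦ 1 1).comp (by fun_prop)) (hcs_y (compact_comp hc 1) x z)
        (hcs_y (compact_pd hc 1 1) x z)
    · have h1 : ∀ y, ({q : ℝ × ℝ × ℝ | q.2.2 < w q.1}).indicator (pd Φ 1 1) (x, y, z) = 0 :=
        fun y => indicator_of_notMem (by exact hz) _
      simp_rw [h1]; simp
  simp_rw [this]; simp

include hΦ hc in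
/-- the `x` derivative -/
lemma int_x {w : ℝ → ℝ} (hw : ContDiff ℝ 1 w) :
    ∫ q in {q : ℝ × ℝ × ℝ | q.2.2 < w q.1}, pd Φ 0 0 q =
      - ∫ x, ∫ y, deriv w x * Φ (mk3 (x, y, w x)) 0 := by
  have hwc := hw.continuous
  have hwd : Continuous (deriv w) := hw.continuous_deriv (by norm_num)
  -- shift
  have e1 : ∫ q in {q : ℝ × ℝ × ℝ | q.2.2 < w q.1}, pd Φ 0 0 q =
      ∫ q in {q : ℝ × ℝ × ℝ | q.2.2 < 0}, pd Φ 0 0 (q.1, q.2.1, q.2.2 + w q.1) := by
    have c1 : Continuous fun q : ℝ × ℝ × ℝ => pd Φ 0 0 (q.1, q.2.1, q.2.2 + w q.1) :=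
      (continuous_pd hΦ 0 0).comp (by fun_prop)
    rw [fub_xyz (continuous_pd hΦ 0 0) (compact_pd hc 0 0) (meas_low hwc),
      fub_xyz c1 (hcs_shift (compact_pd hc 0 0) hwc)
        (isOpen_lt (by fun_prop) (by fun_prop)).measurableSet]
    congr 1; funext x; congr 1; funext y
    rw [← integral_add_right_eq_self _ (w x)]
    congr 1; funext z
    by_cases hz : z < 0
    · have h1 : (x, y, z + w x) ∈ {q : ℝ × ℝ × ℝ | q.2.2 < w q.1} := by
        show z + w x < w x; linarith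
      have h2 : (x, y, z) ∈ {q : ℝ × ℝ × ℝ | q.2.2 < 0} := hz
      rw [indicator_of_mem h1, indicator_of_mem h2]
    · have h1 : (x, y, z + w x) ∉ {q : ℝ × ℝ × ℝ | q.2.2 < w q.1} := by
        show ¬ (z + w x < w x)
        intro h; exact hz (by linarith)
      have h2 : (x, y, z) ∉ {q : ℝ × ℝ × ℝ | q.2.2 < 0} := hz
      rw [indicator_of_notMem h1, indicator_of_notMem h2]
  -- the total derivative in x
  let G : ℝ × ℝ × ℝ → ℝ := fun q => pd Φ 0 0 (q.1, q.2.1, q.2.2 + w q.1) +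
    deriv w q.1 * pd Φ 0 2 (q.1, q.2.1, q.2.2 + w q.1)
  have cG1 : Continuous fun q : ℝ × ℝ × ℝ => pd Φ 0 0 (q.1, q.2.1, q.2.2 + w q.1) :=
    (continuous_pd hΦ 0 0).comp (by fun_prop)
  have cG2 : Continuous fun q : ℝ × ℝ × ℝ =>
      deriv w q.1 * pd Φ 0 2 (q.1, q.2.1, q.2.2 + w q.1) :=
    (hwd.comp continuous_fst).mul ((continuous_pd hΦ 0 2).comp (by fun_prop))
  have hG1 : HasCompactSupport fun q : ℝ × ℝ × ℝ => pd Φ 0 0 (q.1, q.2.1, q.2.2 + w q.1) :=
    hcs_shift (compact_pd hc 0 0) hwc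
  have hG2 : HasCompactSupport fun q : ℝ × ℝ × ℝ =>
      deriv w q.1 * pd Φ 0 2 (q.1, q.2.1, q.2.2 + w q.1) :=
    (hcs_shift (compact_pd hc 0 2) hwc).mul_left
  have hGz : ∫ q in {q : ℝ × ℝ × ℝ | q.2.2 < 0}, G q = 0 := by
    have cG : Continuous G := cG1.add cG2
    have hG : HasCompactSupport G := hG1.add hG2
    rw [fub_yzx cG hG (isOpen_lt (by fun_prop) (by fun_prop)).measurableSet]
    have : ∀ r : ℝ × ℝ, ∫ x, ({q : ℝ × ℝ × ℝ | q.2.2 < 0}).indicator G (x, r) = 0 := by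
      rintro ⟨y, z⟩
      by_cases hz : z < 0
      · have h1 : ∀ x, ({q : ℝ × ℝ × ℝ | q.2.2 < 0}).indicator G (x, y, z) =
            G (x, y, z) := fun x => indicator_of_mem (by exact hz) _
        simp_rw [h1]
        refine int_line (g := fun x => Φ (mk3 (x, y, z + w x)) 0) ?_
          (cG.comp (by fun_prop)) (hcs_x (hcs_shift (compact_comp hc 0) hwc) y z) (hcs_x hG y z)
        intro t
        have h3 : HasDerivAt (fun x => mk3 (x, y, z + w x))
            (EuclideanSpace.single (0 : Fin 3) (1 : ℝ) +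
              deriv w t • EuclideanSpace.single (2 : Fin 3) (1 : ℝ)) t := by
          have e : (fun x => mk3 (x, y, z + w x)) = fun x => mk3 (x, y, 0) +
              (z + w x) • EuclideanSpace.single (2 : Fin 3) (1 : ℝ) := by
            funext x; ext i; fin_cases i <;> simp [mk3]
          rw [e]
          have h5 : HasDerivAt (fun x => z + w x) (deriv w t) t :=
            ((hw.differentiable (by norm_num) t).hasDerivAt).const_add z
          exact (hasDerivAt_mk3_0 t y 0).add (h5.smul_const _)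
        have h4 := hasDerivAt_comp hΦ 0 h3
        convert h4 using 1
        simp only [G, pd, map_add, map_smul]
        simp
      · have h1 : ∀ x, ({q : ℝ × ℝ × ℝ | q.2.2 < 0}).indicator G (x, y, z) = 0 :=
          fun x => indicator_of_notMem (by exact hz) _
        simp_rw [h1]; simp
    simp_rw [this]; simp
  have hsplit : ∫ q in {q : ℝ × ℝ × ℝ | q.2.2 < 0}, G q =
      (∫ q in {q : ℝ × ℝ × ℝ | q.2.2 < 0}, pd Φ 0 0 (q.1, q.2.1, q.2.2 + w q.1)) +
      ∫ q in {q : ℝ × ℝ × ℝ | q.2.2 < 0}, deriv w q.1 * pd Φ 0 2 (q.1, q.2.1, q.2.2 + w q.1) :=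
    integral_add (cG1.integrable_of_hasCompactSupport hG1).integrableOn
      (cG2.integrable_of_hasCompactSupport hG2).integrableOn
  have e2 : ∫ q in {q : ℝ × ℝ × ℝ | q.2.2 < 0},
      deriv w q.1 * pd Φ 0 2 (q.1, q.2.1, q.2.2 + w q.1) =
      ∫ x, ∫ y, deriv w x * Φ (mk3 (x, y, w x)) 0 := by
    rw [fub_xyz cG2 hG2 (isOpen_lt (by fun_prop) (by fun_prop)).measurableSet]
    congr 1; funext x; congr 1; funext y
    have h1 : ∀ z, ({q : ℝ × ℝ × ℝ | q.2.2 < 0}).indicator
        (fun q : ℝ × ℝ × ℝ => deriv w q.1 * pd Φ 0 2 (q.1, q.2.1, q.2.2 + w q.1)) (x, y, z) =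
        (Iio (0 : ℝ)).indicator (fun z => deriv w x * pd Φ 0 2 (x, y, z + w x)) z := fun z => rfl
    simp_rw [h1]
    rw [integral_indicator measurableSet_Iio, integral_const_mul]
    congr 1
    have h2 := int_Iio (g := fun z => Φ (mk3 (x, y, z + w x)) 0)
      (g' := fun z => pd Φ 0 2 (x, y, z + w x)) ?_ ?_ ?_ ?_ 0
    · rw [zero_add] at h2
      exact h2
    · intro t
      have h3 := (hasDerivAt_comp hΦ 0 (hasDerivAt_mk3_2 x y (t + w x)))
      exact h3.comp_add_const t (w x)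
    · exact (continuous_pd hΦ 0 2).comp (by fun_prop)
    · exact hcs_z (hcs_shift (compact_comp hc 0) hwc) x y
    · exact hcs_z (hcs_shift (compact_pd hc 0 2) hwc) x y
  rw [e1, ← e2]
  linarith

include hΦ hc in
/-- divergence theorem below a graph -/
theorem div_graph {w : ℝ → ℝ} (hw : ContDiff ℝ 1 w) :
    ∫ p in {p : E3 | p 2 < w (p 0)}, dv Φ p =
      (∫ x, ∫ y, Φ (mk3 (x, y, w x)) 2) - ∫ x, ∫ y, deriv w x * Φ (mk3 (x, y, w x)) 0 := by
  have hwc := hw.continuous
  have hm : MeasurableSet {p : E3 | p 2 < w (p 0)} :=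
    (isOpen_lt (by fun_prop) (by fun_prop)).measurableSet
  rw [← integral_indicator hm, ← integral_mk3]
  have h1 : ∀ q : ℝ × ℝ × ℝ, ({p : E3 | p 2 < w (p 0)}).indicator (dv Φ) (mk3 q) =
      ({q : ℝ × ℝ × ℝ | q.2.2 < w q.1}).indicator
        (fun q => pd Φ 0 0 q + pd Φ 1 1 q + pd Φ 2 2 q) q := by
    intro q
    by_cases hq : q.2.2 < w q.1
    · have a1 : mk3 q ∈ {p : E3 | p 2 < w (p 0)} := hq
      have a2 : q ∈ {q : ℝ × ℝ × ℝ | q.2.2 < w q.1} := hq
      rw [indicator_of_mem a1, indicator_of_mem a2, dv_eq_sum, Fin.sum_univ_three]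
      rfl
    · have a1 : mk3 q ∉ {p : E3 | p 2 < w (p 0)} := hq
      have a2 : q ∉ {q : ℝ × ℝ × ℝ | q.2.2 < w q.1} := hq
      rw [indicator_of_notMem a1, indicator_of_notMem a2]
  simp_rw [h1]
  rw [integral_indicator (meas_low hwc)]
  have i : ∀ j, IntegrableOn (pd Φ j j) {q : ℝ × ℝ × ℝ | q.2.2 < w q.1} := fun j =>
    ((continuous_pd hΦ j j).integrable_of_hasCompactSupport (compact_pd hc j j)).integrableOn
  have h2 : ∫ q in {q : ℝ × ℝ × ℝ | q.2.2 < w q.1}, (pd Φ 0 0 q + pd Φ 1 1 q + pd Φ 2 2 q) =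
      (∫ q in {q : ℝ × ℝ × ℝ | q.2.2 < w q.1}, (pd Φ 0 0 q + pd Φ 1 1 q)) +
        ∫ q in {q : ℝ × ℝ × ℝ | q.2.2 < w q.1}, pd Φ 2 2 q := integral_add ((i 0).add (i 1)) (i 2)
  have h3 : ∫ q in {q : ℝ × ℝ × ℝ | q.2.2 < w q.1}, (pd Φ 0 0 q + pd Φ 1 1 q) =
      (∫ q in {q : ℝ × ℝ × ℝ | q.2.2 < w q.1}, pd Φ 0 0 q) +
        ∫ q in {q : ℝ × ℝ × ℝ | q.2.2 < w q.1}, pd Φ 1 1 q := integral_add (i 0) (i 1)
  rw [h2, h3, int_x hΦ hc hw, int_y hΦ hc hwc, int_z hΦ hc hwc]
  ring

end Main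

end Pool.Agent.W789.Iso
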