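import Pool.Agent.W789.Iso.Len

/-! Choosing the bent graph of half volume. -/

set_option autoImplicit false

namespace Pool.Agent.W789.Iso

open MeasureTheory Set Filter Topology
open scoped ENNReal

lemma vol_slices_le {S : Set E3} (hS : MeasurableSet S) {I J : Set ℝ} (hI : MeasurableSet I)
    (hJ : MeasurableSet J) (hsub : ∀ p ∈ S, p 0 ∈ I ∧ p 1 ∈ J) {c : ℝ≥0∞}
    (hc : ∀ x y : ℝ, volume {z : ℝ | mk3 (x, y, z) ∈ S} ≤ c) :
    volume S ≤ volume I * (volume J * c) := by
  rw [volume_mk3 hS]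
  have hS' : MeasurableSet (mk3 ⁻¹' S) := continuous_mk3.measurable hS
  rw [Measure.volume_eq_prod, Measure.prod_apply hS']
  have h1 : ∀ x : ℝ, volume (Prod.mk x ⁻¹' (mk3 ⁻¹' S)) ≤
      I.indicator (fun _ => volume J * c) x := by
    intro x
    have hSx : MeasurableSet (Prod.mk x ⁻¹' (mk3 ⁻¹' S)) := measurable_prodMk_left hS'
    rw [Measure.volume_eq_prod, Measure.prod_apply hSx]
    by_cases hx : x ∈ I
    · rw [indicator_of_mem hx]
      have h2 : ∀ y : ℝ, volume (Prod.mk y ⁻¹' (Prod.mk x ⁻¹' (mk3 ⁻¹' S))) ≤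
          J.indicator (fun _ => c) y := by
        intro y
        by_cases hy : y ∈ J
        · rw [indicator_of_mem hy]
          exact hc x y
        · rw [indicator_of_notMem hy]
          have : Prod.mk y ⁻¹' (Prod.mk x ⁻¹' (mk3 ⁻¹' S)) = ∅ := by
            ext z
            simp only [mem_preimage, mem_empty_iff_false, iff_false]
            intro hz
            exact hy (hsub _ hz).2
          rw [this, measure_empty]
      refine (lintegral_mono h2).trans ?_
      rw [lintegral_indicator hJ, setLIntegral_const, mul_comm]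
    · rw [indicator_of_notMem hx]
      have h2 : ∀ y : ℝ, volume (Prod.mk y ⁻¹' (Prod.mk x ⁻¹' (mk3 ⁻¹' S))) = 0 := by
        intro y
        have : Prod.mk y ⁻¹' (Prod.mk x ⁻¹' (mk3 ⁻¹' S)) = ∅ := by
          ext z
          simp only [mem_preimage, mem_empty_iff_false, iff_false]
          intro hz
          exact hx (hsub _ hz).1
        rw [this, measure_empty]
      simp [h2]
  refine (lintegral_mono h1).trans ?_
  rw [lintegral_indicator hI, setLIntegral_const, mul_comm]

/-- the competitor -/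
def Fs (a h b t s : ℝ) : Set E3 := {p | p ∈ Om a h b ∧ p 2 < wf t s (p 0)}

/-- the lower half -/
def Hs (a h b : ℝ) : Set E3 := {p | p ∈ Om a h b ∧ p 2 < 0}

lemma measurableSet_Fs (a h b t s : ℝ) : MeasurableSet (Fs a h b t s) := by
  have hc := (contDiff_wf t s).continuous
  have h1 : IsOpen {p : E3 | p 2 < wf t s (p 0)} := isOpen_lt (by fun_prop) (by fun_prop)
  exact ((isOpen_Om a h b).inter h1).measurableSet

lemma measurableSet_Hs (a h b : ℝ) : MeasurableSet (Hs a h b) := by
  have h1 : IsOpen {p : E3 | p 2 < 0} := isOpen_lt (by fun_prop) (by fun_prop)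
  exact ((isOpen_Om a h b).inter h1).measurableSet

lemma vol_Om_ne_top {a h b : ℝ} (ha : 0 < a) (hb : 0 < b) : volume (Om a h b) ≠ ∞ :=
  (isBounded_Om ha hb).measure_lt_top.ne

lemma vol_plane : volume {p : E3 | p 2 = 0} = 0 := by
  have h := vol_box (I := univ) (J := univ) (K := {0}) MeasurableSet.univ MeasurableSet.univ
    (measurableSet_singleton _)
  have e : {p : E3 | p 2 = 0} = {p : E3 | p 0 ∈ (univ : Set ℝ) ∧ p 1 ∈ (univ : Set ℝ) ∧
      p 2 ∈ ({0} : Set ℝ)} := by
    ext p; simp
  rw [e, h]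
  simp

lemma vol_Hs {a h b : ℝ} : 2 * volume (Hs a h b) = volume (Om a h b) := by
  set P : Set E3 := {p | p ∈ Om a h b ∧ 0 < p 2} with hP
  have hPo : IsOpen {p : E3 | 0 < p 2} := isOpen_lt (by fun_prop) (by fun_prop)
  have hPm : MeasurableSet P := ((isOpen_Om a h b).inter hPo).measurableSet
  have h1 : volume P = volume (Hs a h b) := by
    have : (fun p : E3 => -p) ⁻¹' (Hs a h b) = P := by
      ext p
      simp only [mem_preimage, Hs, hP, mem_setOf_eq]
      constructor
      · rintro ⟨h1, h2⟩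
        refine ⟨by simpa using neg_mem_Om h1, ?_⟩
        simpa using h2
      · rintro ⟨h1, h2⟩
        exact ⟨neg_mem_Om h1, by simpa using h2⟩
    rw [← this]
    exact (Measure.measurePreserving_neg (volume : Measure E3)).measure_preimage
      (measurableSet_Hs a h b).nullMeasurableSet
  have h2 : Hs a h b ∪ P ⊆ Om a h b := by
    rintro p (hp | hp)
    · exact hp.1
    · exact hp.1
  have h3 : Om a h b ⊆ (Hs a h b ∪ P) ∪ {p : E3 | p 2 = 0} := by
    intro p hp
    rcases lt_trichotomy (p 2) 0 with h | h | h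
    · exact Or.inl (Or.inl ⟨hp, h⟩)
    · exact Or.inr h
    · exact Or.inl (Or.inr ⟨hp, h⟩)
  have h4 : volume (Hs a h b ∪ P) = 2 * volume (Hs a h b) := by
    rw [measure_union _ hPm, h1, two_mul]
    rw [Set.disjoint_left]
    rintro p ⟨-, h⟩ ⟨-, h'⟩
    exact lt_asymm h h'
  apply le_antisymm
  · rw [← h4]; exact measure_mono h2
  · refine (measure_mono h3).trans ((measure_union_le _ _).trans ?_)
    rw [vol_plane, h4, add_zero]

lemma vol_Fs_lip {a h b t s s' : ℝ} (ha : 0 < a) (hb : 0 < b) :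
    volume (Fs a h b t s') ≤ volume (Fs a h b t s) + ENNReal.ofReal (4 * b * (s' - s)) := by
  have h1 : Fs a h b t s' ⊆ Fs a h b t s ∪ (Fs a h b t s' \ Fs a h b t s) := by
    intro p hp
    by_cases h : p ∈ Fs a h b t s
    · exact Or.inl h
    · exact Or.inr ⟨hp, h⟩
  refine (measure_mono h1).trans ((measure_union_le _ _).trans ?_)
  gcongr
  have h2 := vol_slices_le (S := Fs a h b t s' \ Fs a h b t s)
    ((measurableSet_Fs a h b t s').diff (measurableSet_Fs a h b t s))
    (I := Ioo (-1) 1) (J := Ioo (-b) b) measurableSet_Ioo measurableSet_Ioo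
    (fun p hp => ⟨abs_lt.1 hp.1.1.1, abs_lt.1 (abs1_lt ha hb hp.1.1)⟩)
    (c := ENNReal.ofReal (s' - s)) (by
      intro x y
      have : {z : ℝ | mk3 (x, y, z) ∈ Fs a h b t s' \ Fs a h b t s} ⊆
          Ico (wf t s x) (wf t s' x) := by
        rintro z ⟨hz1, hz2⟩
        refine ⟨?_, hz1.2⟩
        by_contra hcon
        exact hz2 ⟨hz1.1, not_le.1 hcon⟩
      refine (measure_mono this).trans (le_of_eq ?_)
      rw [Real.volume_Ico]
      congr 1
      unfold wf
      ring)
  refine h2.trans (le_of_eq ?_)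
  rw [Real.volume_Ioo, Real.volume_Ioo, ← ENNReal.ofReal_mul (by linarith),
    ← ENNReal.ofReal_mul (by norm_num)]
  congr 1
  ring

lemma vol_Fs_top {a h b t : ℝ} (ht : 0 < t) : volume (Hs a h b) ≤ volume (Fs a h b t (2 * t)) := by
  apply measure_mono
  rintro p ⟨h1, h2⟩
  refine ⟨h1, h2.trans_le ?_⟩
  unfold wf
  have hx := abs_lt.1 h1.1
  have : (p 0) ^ 2 ≤ 1 := by nlinarith [hx.1, hx.2]
  nlinarith

lemma vol_Fs_bot {h b t : ℝ} (hh : 1 < h) (hb : 0 < b) (ht : 0 < t) (ht' : 24 * t ≤ 1) :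
    volume (Fs (2 * (h + 1)) h b t (-(3 * t / 4))) ≤ volume (Hs (2 * (h + 1)) h b) := by
  set a := 2 * (h + 1) with ha
  have ha0 : 0 < a := by rw [ha]; linarith
  set F := Fs a h b t (-(3 * t / 4)) with hF
  set H := Hs a h b with hH
  have hFm : MeasurableSet F := measurableSet_Fs _ _ _ _ _
  have hHm : MeasurableSet H := measurableSet_Hs _ _ _
  have hfin : volume (H \ F) ≠ ∞ :=
    ((measure_mono (fun p hp => hp.1.1 : H \ F ⊆ Om a h b)).trans_lt
      (vol_Om_ne_top ha0 hb).lt_top).ne
  have e1 : volume F + volume (H \ F) = volume H + volume (F \ H) := by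
    rw [← measure_union disjoint_sdiff_right (hHm.diff hFm),
      ← measure_union disjoint_sdiff_right (hFm.diff hHm), union_sdiff_self, union_sdiff_self,
      union_comm]
  have g1 : volume (F \ H) ≤ ENNReal.ofReal (b * t / 3) := by
    have h2 := vol_slices_le (S := F \ H) (hFm.diff hHm)
      (I := Ioo (-(1 / 3)) (1 / 3)) (J := Ioo (-b) b) measurableSet_Ioo measurableSet_Ioo
      (by
        rintro p ⟨hp1, hp2⟩
        refine ⟨?_, abs_lt.1 (abs1_lt ha0 hb hp1.1)⟩
        have h3 : 0 ≤ p 2 := by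
          by_contra hcon
          exact hp2 ⟨hp1.1, not_le.1 hcon⟩
        have h4 := hp1.2
        unfold wf at h4
        have h5 : (p 0) ^ 2 < 1 / 9 := by
          have : 0 < t * (1 / 4 - 3 * (p 0) ^ 2) := by nlinarith
          have := (mul_pos_iff_of_pos_left ht).1 this
          linarith
        have h6 : |p 0| < 1 / 3 := by
          apply abs_lt_of_sq_lt_sq _ (by norm_num)
          linarith
        exact abs_lt.1 h6)
      (c := ENNReal.ofReal (t / 4)) (by
        intro x y
        have : {z : ℝ | mk3 (x, y, z) ∈ F \ H} ⊆ Ico 0 (t / 4) := by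
          rintro z ⟨hz1, hz2⟩
          have h3 : 0 ≤ z := by
            by_contra hcon
            exact hz2 ⟨hz1.1, not_le.1 hcon⟩
          refine ⟨h3, ?_⟩
          have h4 := hz1.2
          unfold wf at h4
          simp only [mk3_0, mk3_2] at h4
          nlinarith [sq_nonneg x, mul_nonneg ht.le (sq_nonneg x)]
        refine (measure_mono this).trans (le_of_eq ?_)
        rw [Real.volume_Ico]
        congr 1
        ring)
    refine h2.trans (le_of_eq ?_)
    rw [Real.volume_Ioo, Real.volume_Ioo, ← ENNReal.ofReal_mul (by linarith),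
      ← ENNReal.ofReal_mul (by norm_num)]
    congr 1
    ring
  have g2 : ENNReal.ofReal (b * t / 2) ≤ volume (H \ F) := by
    have hsub : {p : E3 | p 0 ∈ (Ioo (-1) (-(1 / 2)) ∪ Ioo (1 / 2) 1 : Set ℝ) ∧
        p 1 ∈ Ioo (-(b / 2)) (b / 2) ∧ p 2 ∈ Ico (-(t / 2)) 0} ⊆ H \ F := by
      rintro p ⟨h1, h2, h3⟩
      have k1 : |p 0| < 1 ∧ 1 / 4 ≤ (p 0) ^ 2 := by
        rcases h1 with h1 | h1
        · exact ⟨abs_lt.2 ⟨h1.1, by linarith [h1.2]⟩, by nlinarith [h1.2]⟩
        · exact ⟨abs_lt.2 ⟨by linarith [h1.1], h1.2⟩, by nlinarith [h1.1]⟩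
      have hOm : p ∈ Om a h b := by
        apply box_sub (by linarith) hb
        refine ⟨abs_lt.1 k1.1, h2, by linarith [h3.1], by linarith [h3.2]⟩
      refine ⟨⟨hOm, h3.2⟩, fun hcon => ?_⟩
      have h4 := hcon.2
      unfold wf at h4
      nlinarith [h3.1, mul_le_mul_of_nonneg_left k1.2 ht.le]
    refine le_trans (le_of_eq ?_) (measure_mono hsub)
    rw [vol_box (measurableSet_Ioo.union measurableSet_Ioo) measurableSet_Ioo measurableSet_Ico,
      measure_union _ measurableSet_Ioo, Real.volume_Ioo, Real.volume_Ioo, Real.volume_Ioo,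
      Real.volume_Ico, ← ENNReal.ofReal_add (by norm_num) (by norm_num),
      ← ENNReal.ofReal_mul (by linarith), ← ENNReal.ofReal_mul (by norm_num)]
    · congr 1
      ring
    · rw [Set.disjoint_left]
      rintro x ⟨_, hx⟩ ⟨hx', _⟩
      linarith
  have g3 : ENNReal.ofReal (b * t / 3) ≤ ENNReal.ofReal (b * t / 2) := by
    apply ENNReal.ofReal_le_ofReal
    have : 0 < b * t := by positivity
    linarith
  have g4 : volume F + volume (H \ F) ≤ volume H + volume (H \ F) := by
    rw [e1]
    exact add_le_add le_rfl (g1.trans (g3.trans g2))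
  exact (ENNReal.add_le_add_iff_right hfin).1 g4

theorem exists_half {h b t : ℝ} (hh : 1 < h) (hb : 0 < b) (ht : 0 < t) (ht' : 24 * t ≤ 1) :
    ∃ s : ℝ, -(3 * t / 4) ≤ s ∧ s ≤ 2 * t ∧
      2 * volume (Fs (2 * (h + 1)) h b t s) = volume (Om (2 * (h + 1)) h b) := by
  set a := 2 * (h + 1) with ha
  have ha0 : 0 < a := by rw [ha]; linarith
  have hfin : ∀ s, volume (Fs a h b t s) ≠ ∞ := fun s =>
    ((measure_mono (fun p hp => hp.1 : Fs a h b t s ⊆ Om a h b)).trans_lt
      (vol_Om_ne_top ha0 hb).lt_top).ne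
  have hfinH : volume (Hs a h b) ≠ ∞ :=
    ((measure_mono (fun p hp => hp.1 : Hs a h b ⊆ Om a h b)).trans_lt
      (vol_Om_ne_top ha0 hb).lt_top).ne
  set f : ℝ → ℝ := fun s => (volume (Fs a h b t s)).toReal with hf
  have hmono : ∀ s s', s ≤ s' → f s ≤ f s' := by
    intro s s' hs
    refine ENNReal.toReal_mono (hfin s') (measure_mono ?_)
    rintro p ⟨h1, h2⟩
    refine ⟨h1, h2.trans_le ?_⟩
    unfold wf
    linarith
  have hlip : ∀ s s', s ≤ s' → f s' ≤ f s + 4 * b * (s' - s) := by
    intro s s' hs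
    have h1 := ENNReal.toReal_mono (by simp [hfin s]) (vol_Fs_lip (h := h) (t := t) (s := s) (s' := s') ha0 hb)
    rw [ENNReal.toReal_add (hfin s) (by simp), ENNReal.toReal_ofReal (by
      have : 0 ≤ s' - s := by linarith
      positivity)] at h1
    exact h1
  have hc : Continuous f := by
    have hL : LipschitzWith (Real.toNNReal (4 * b)) f := by
      apply LipschitzWith.of_le_add_mul
      intro s s'
      rw [Real.coe_toNNReal _ (by positivity), Real.dist_eq]
      rcases le_total s s' with h | h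
      · have := hmono s s' h
        have : 0 ≤ 4 * b * |s - s'| := by positivity
        linarith
      · have := hlip s' s h
        rw [abs_of_nonneg (by linarith)]
        exact this
    exact hL.continuous
  have hivt := intermediate_value_Icc (a := -(3 * t / 4)) (b := 2 * t) (by linarith)
    hc.continuousOn
  have hmem : (volume (Hs a h b)).toReal ∈ Icc (f (-(3 * t / 4))) (f (2 * t)) :=
    ⟨ENNReal.toReal_mono hfinH (vol_Fs_bot hh hb ht ht'),
      ENNReal.toReal_mono (hfin _) (vol_Fs_top ht)⟩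
  obtain ⟨s, hs, hs2⟩ := hivt hmem
  refine ⟨s, hs.1, hs.2, ?_⟩
  rw [(ENNReal.toReal_eq_toReal_iff' (hfin s) hfinH).1 hs2, vol_Hs]

end Pool.Agent.W789.Iso
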