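import Pool.Agent.W789.Iso.Comp

/-! The weighted length of the bent graph. -/

set_option autoImplicit false

namespace Pool.Agent.W789.Iso

open MeasureTheory Set Filter Topology
open scoped ENNReal

/-- the bent profile -/
noncomputable def wf (t s : ℝ) (x : ℝ) : ℝ := t * (1 - 3 * x ^ 2) + s

lemma contDiff_wf (t s : ℝ) : ContDiff ℝ 1 (wf t s) := by
  unfold wf; fun_prop

lemma deriv_wf (t s x : ℝ) : deriv (wf t s) x = -(6 * t * x) := by
  have h : HasDerivAt (wf t s) (-(6 * t * x)) x := by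
    unfold wf
    have h1 : HasDerivAt (fun x : ℝ => t * (1 - 3 * x ^ 2) + s) (t * (0 - 3 * (2 * x))) x := by
      have h2 : HasDerivAt (fun x : ℝ => x ^ 2) (2 * x) x := by
        simpa using hasDerivAt_pow 2 x
      exact (((hasDerivAt_const x 1).sub (h2.const_mul 3)).const_mul t).add_const s
    convert h1 using 1
    ring
  exact h.deriv

lemma sqrt_lower {t x w : ℝ} (ht : 0 < t) (hx : 3 * t ≤ x) (hw : t / 5 ≤ w) :
    x + t ^ 2 / 62.5 * x⁻¹ ≤ √(x ^ 2 + w ^ 2) := by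
  have hx0 : 0 < x := by linarith
  apply Real.le_sqrt_of_sq_le
  have h1 : (x + t ^ 2 / 62.5 * x⁻¹) ^ 2 =
      x ^ 2 + 2 * (t ^ 2 / 62.5) + (t ^ 2 / 62.5) ^ 2 * (x⁻¹) ^ 2 := by
    field_simp
    ring
  rw [h1]
  have h2 : (t / 5) ^ 2 ≤ w ^ 2 := by gcongr
  have h3 : x⁻¹ ^ 2 * t ^ 2 ≤ 1 / 9 := by
    rw [inv_pow, inv_mul_le_iff₀ (by positivity)]
    nlinarith
  have h4 : (t ^ 2 / 62.5) ^ 2 * (x⁻¹) ^ 2 ≤ t ^ 2 * (1 / 62.5 ^ 2 * (1 / 9)) := by
    have : (t ^ 2 / 62.5) ^ 2 * (x⁻¹) ^ 2 = t ^ 2 * (1 / 62.5 ^ 2 * (x⁻¹ ^ 2 * t ^ 2)) := by ring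
    rw [this]
    gcongr
  have h5 : t ^ 2 * (1 / 62.5 ^ 2 * (1 / 9)) ≤ t ^ 2 * (1 / 10000) := by
    gcongr
    norm_num
  have h6 : (t / 5) ^ 2 = t ^ 2 / 25 := by ring
  have h7 : t ^ 2 / 62.5 = t ^ 2 * (2 / 125) := by ring
  rw [h6] at h2
  have h8 : 0 < t ^ 2 := by positivity
  rw [h7] at h4 ⊢
  linarith

lemma wf_lower {t s x : ℝ} (ht : 0 < t) (hs : -(3 * t / 4) ≤ s) (hx : |x| ≤ 1 / 8) :
    t / 5 ≤ wf t s x := by
  unfold wf
  have h1 : x ^ 2 ≤ 1 / 64 := by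
    have := sq_le_sq' (abs_le.1 hx).1 (abs_le.1 hx).2
    norm_num at this ⊢
    linarith
  nlinarith

lemma int_half {t s : ℝ} (ht : 0 < t) (ht' : 24 * t ≤ 1) (hs : -(3 * t / 4) ≤ s) :
    1 / 2 + t ^ 2 / 62.5 * Real.log (1 / (24 * t)) ≤
      ∫ x in (0 : ℝ)..1, √(x ^ 2 + wf t s x ^ 2) := by
  have hcw : Continuous (wf t s) := (contDiff_wf t s).continuous
  have hc : Continuous fun x => √(x ^ 2 + wf t s x ^ 2) := by fun_prop
  have hc2 : Continuous fun x => √(x ^ 2 + wf t s x ^ 2) - x := by fun_prop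
  have h1 : ∫ x in (0 : ℝ)..1, √(x ^ 2 + wf t s x ^ 2) =
      (∫ x in (0 : ℝ)..1, (√(x ^ 2 + wf t s x ^ 2) - x)) + 1 / 2 := by
    have hid : Continuous fun x : ℝ => x := continuous_id
    rw [intervalIntegral.integral_sub (hc.intervalIntegrable _ _)
      (hid.intervalIntegrable _ _)]
    have : ∫ x in (0 : ℝ)..1, x = 1 / 2 := by
      rw [integral_id]; norm_num
    rw [this]; ring
  have h2 : ∫ x in (3 * t)..(1 / 8), (√(x ^ 2 + wf t s x ^ 2) - x) ≤
      ∫ x in (0 : ℝ)..1, (√(x ^ 2 + wf t s x ^ 2) - x) := by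
    refine intervalIntegral.integral_mono_interval (by linarith) (by linarith) (by norm_num) ?_
      (hc2.intervalIntegrable _ _)
    filter_upwards [ae_restrict_mem measurableSet_Ioc] with x hx
    simp only [Pi.zero_apply, sub_nonneg]
    apply Real.le_sqrt_of_sq_le
    nlinarith [sq_nonneg (wf t s x)]
  have h3 : ∫ x in (3 * t)..(1 / 8), (t ^ 2 / 62.5 * x⁻¹) ≤
      ∫ x in (3 * t)..(1 / 8), (√(x ^ 2 + wf t s x ^ 2) - x) := by
    refine intervalIntegral.integral_mono_on (by linarith) ?_ (hc2.intervalIntegrable _ _) ?_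
    · refine ContinuousOn.intervalIntegrable ?_
      rw [uIcc_of_le (by linarith)]
      refine continuousOn_const.mul (continuousOn_id.inv₀ fun x hx => ?_)
      have : 0 < x := by linarith [hx.1]
      exact this.ne'
    · intro x hx
      have hw : t / 5 ≤ wf t s x := wf_lower (x := x) ht hs (by
        rw [abs_of_nonneg (by linarith [hx.1])]; exact hx.2)
      have := sqrt_lower ht hx.1 hw
      linarith
  have h4 : ∫ x in (3 * t)..(1 / 8), (t ^ 2 / 62.5 * x⁻¹) =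
      t ^ 2 / 62.5 * Real.log (1 / (24 * t)) := by
    rw [intervalIntegral.integral_const_mul, integral_inv_of_pos (by linarith) (by norm_num)]
    congr 2
    field_simp
    norm_num
  linarith

lemma int_full {t s : ℝ} (ht : 0 < t) (ht' : 24 * t ≤ 1) (hs : -(3 * t / 4) ≤ s) :
    1 + t ^ 2 / 31.25 * Real.log (1 / (24 * t)) ≤
      ∫ x in (-1 : ℝ)..1, √(x ^ 2 + wf t s x ^ 2) := by
  have hcw : Continuous (wf t s) := (contDiff_wf t s).continuous
  have hc : Continuous fun x => √(x ^ 2 + wf t s x ^ 2) := by fun_prop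
  have h1 := int_half ht ht' hs
  have h2 : ∫ x in (-1 : ℝ)..0, √(x ^ 2 + wf t s x ^ 2) =
      ∫ x in (0 : ℝ)..1, √(x ^ 2 + wf t s x ^ 2) := by
    have := intervalIntegral.integral_comp_neg (a := 0) (b := 1)
      (fun x => √(x ^ 2 + wf t s x ^ 2))
    simp only [neg_zero] at this
    rw [← this]
    congr 1
    funext x
    unfold wf
    simp
  rw [← intervalIntegral.integral_add_adjacent_intervals (hc.intervalIntegrable (-1) 0)
    (hc.intervalIntegrable 0 1), h2]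
  have : t ^ 2 / 31.25 * Real.log (1 / (24 * t)) =
    2 * (t ^ 2 / 62.5 * Real.log (1 / (24 * t))) := by ring
  linarith

/-- the bent graph is shorter -/
theorem len_le {a b t s : ℝ} (ha : 2 ≤ a) (hb : 0 < b) (ht : 0 < t) (ht' : 24 * t ≤ 1)
    (hs : -(3 * t / 4) ≤ s) (hs2 : s ≤ 2 * t)
    (hlog : 31.25 * (12 * a + 1) ≤ Real.log (1 / (24 * t))) :
    len a b (wf t s) ≤ b * (4 - 2 / a - 2 * t ^ 2 / a) := by
  have hcw : Continuous (wf t s) := (contDiff_wf t s).continuous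
  have ha0 : 0 < a := by linarith
  have hwb : ∀ x ∈ Ioo (-1 : ℝ) 1, √(x ^ 2 + wf t s x ^ 2) ≤ a := by
    intro x hx
    rw [Real.sqrt_le_left (by linarith)]
    have h1 : x ^ 2 ≤ 1 := by nlinarith [hx.1, hx.2]
    have h2 : |wf t s x| ≤ 5 * t := by
      unfold wf
      rw [abs_le]
      constructor <;> nlinarith [hx.1, hx.2]
    have h3 : wf t s x ^ 2 ≤ 1 := by
      rw [← sq_abs]
      have : |wf t s x| ≤ 1 := by linarith
      nlinarith [abs_nonneg (wf t s x)]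
    nlinarith
  unfold len
  have hle : ∀ x ∈ Ioo (-1 : ℝ) 1,
      2 * b * (1 - √(x ^ 2 + wf t s x ^ 2) / a) * √(1 + deriv (wf t s) x ^ 2) ≤
        2 * b * ((1 + 18 * t ^ 2 * x ^ 2) - √(x ^ 2 + wf t s x ^ 2) * a⁻¹) := by
    intro x hx
    rw [deriv_wf]
    have h1 : √(1 + (-(6 * t * x)) ^ 2) ≤ 1 + 18 * t ^ 2 * x ^ 2 := by
      rw [Real.sqrt_le_left (by positivity)]
      nlinarith [sq_nonneg (t ^ 2 * x ^ 2)]
    have h2 : 0 ≤ 1 - √(x ^ 2 + wf t s x ^ 2) / a := by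
      have : √(x ^ 2 + wf t s x ^ 2) / a ≤ 1 := by
        rw [div_le_one ha0]; exact hwb x hx
      linarith
    have h3 : 0 ≤ √(x ^ 2 + wf t s x ^ 2) / a := by positivity
    have h4 : (1 - √(x ^ 2 + wf t s x ^ 2) / a) * √(1 + (-(6 * t * x)) ^ 2) ≤
        (1 + 18 * t ^ 2 * x ^ 2) - √(x ^ 2 + wf t s x ^ 2) / a := by
      have h5 : (1 - √(x ^ 2 + wf t s x ^ 2) / a) * √(1 + (-(6 * t * x)) ^ 2) ≤
          (1 - √(x ^ 2 + wf t s x ^ 2) / a) * (1 + 18 * t ^ 2 * x ^ 2) := by gcongr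
      have h6 : 0 ≤ 18 * t ^ 2 * x ^ 2 := by positivity
      nlinarith
    rw [mul_assoc]
    have : √(x ^ 2 + wf t s x ^ 2) * a⁻¹ = √(x ^ 2 + wf t s x ^ 2) / a := by ring
    rw [this]
    gcongr
  have hcd : Continuous (deriv (wf t s)) := (contDiff_wf t s).continuous_deriv (by norm_num)
  have i1 : IntegrableOn (fun x => 2 * b * (1 - √(x ^ 2 + wf t s x ^ 2) / a) *
      √(1 + deriv (wf t s) x ^ 2)) (Ioo (-1 : ℝ) 1) := by
    have : Continuous fun x => 2 * b * (1 - √(x ^ 2 + wf t s x ^ 2) / a) *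
      √(1 + deriv (wf t s) x ^ 2) := by fun_prop
    exact (this.integrableOn_Icc (a := -1) (b := 1)).mono_set Ioo_subset_Icc_self
  have i2 : IntegrableOn (fun x => 2 * b * ((1 + 18 * t ^ 2 * x ^ 2) -
      √(x ^ 2 + wf t s x ^ 2) * a⁻¹)) (Ioo (-1 : ℝ) 1) := by
    have : Continuous fun x => 2 * b * ((1 + 18 * t ^ 2 * x ^ 2) -
      √(x ^ 2 + wf t s x ^ 2) * a⁻¹) := by fun_prop
    exact (this.integrableOn_Icc (a := -1) (b := 1)).mono_set Ioo_subset_Icc_self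
  refine (setIntegral_mono_on i1 i2 measurableSet_Ioo hle).trans ?_
  rw [← integral_Ioc_eq_integral_Ioo, ← intervalIntegral.integral_of_le (by norm_num),
    intervalIntegral.integral_const_mul, intervalIntegral.integral_sub, intervalIntegral.integral_mul_const]
  · have e1 : ∫ x in (-1 : ℝ)..1, (1 + 18 * t ^ 2 * x ^ 2) = 2 + 12 * t ^ 2 := by
      rw [intervalIntegral.integral_add (by simp) (Continuous.intervalIntegrable (by fun_prop) _ _),
        intervalIntegral.integral_const_mul, integral_pow]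
      simp
      ring
    rw [e1]
    have h1 := int_full ht ht' hs
    have h2 : t ^ 2 / 31.25 * (31.25 * (12 * a + 1)) ≤
        t ^ 2 / 31.25 * Real.log (1 / (24 * t)) := by gcongr
    have h3 : 1 + t ^ 2 * (12 * a + 1) ≤ ∫ x in (-1 : ℝ)..1, √(x ^ 2 + wf t s x ^ 2) := by
      have : t ^ 2 / 31.25 * (31.25 * (12 * a + 1)) = t ^ 2 * (12 * a + 1) := by ring
      linarith
    have h4 : (1 + t ^ 2 * (12 * a + 1)) * a⁻¹ ≤
        (∫ x in (-1 : ℝ)..1, √(x ^ 2 + wf t s x ^ 2)) * a⁻¹ := by gcongr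
    have h5 : (1 + t ^ 2 * (12 * a + 1)) * a⁻¹ = 1 / a + 12 * t ^ 2 + t ^ 2 / a := by
      field_simp
      ring
    have h6 : b * (4 - 2 / a - 2 * t ^ 2 / a) =
        2 * b * (2 + 12 * t ^ 2 - (1 / a + 12 * t ^ 2 + t ^ 2 / a)) := by ring
    rw [h6]
    gcongr
    linarith
  · exact Continuous.intervalIntegrable (by fun_prop) _ _
  · exact Continuous.intervalIntegrable (by fun_prop) _ _

end Pool.Agent.W789.Iso
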