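import Pool.Agent.W789.Iso.Field

/-! The test field adapted to a trapped sector: pointwise properties. -/

set_option autoImplicit false

namespace Pool.Agent.W789.Iso

open MeasureTheory Set Filter Topology
open scoped ENNReal

/-- parameters -/
structure Dat (h b r s w ρ : ℝ) : Prop where
  hh : 1 < h
  hb : 0 < b
  hr : 0 < r
  hr' : r ≤ 1 / 24
  hs : |s| ≤ 1
  hw : 0 < w
  hw' : w ≤ 1
  hρ : 0 < ρ

/-- thickness function -/
noncomputable def th (h b r q : ℝ) : ℝ := b * (1 - Rr r q / (2 * (h + 1)))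
/-- coefficient -/
noncomputable def cg (r q : ℝ) : ℝ := zr r q / Rr r q
/-- coefficient -/
noncomputable def ce (h b r q : ℝ) : ℝ := (th h b r q)⁻¹
/-- coefficient -/
noncomputable def ck (w r q : ℝ) : ℝ := (w / 3 * Rr r q)⁻¹
/-- coefficient -/
noncomputable def cb (h b r w q : ℝ) : ℝ := mz r * th h b r q * zr r q * ck w r q / Rr r q
/-- odd step -/
noncomputable def X0 (t : ℝ) : ℝ := 2 * St t - 1
/-- its derivative -/
noncomputable def X1 (t : ℝ) : ℝ := 2 * deriv St t

/-- the test field -/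
noncomputable def TF (h b r s w A B ρ : ℝ) : E3 → E3 :=
  fld (cg r) (ce h b r) (ck w r) (cb h b r w) (zt r) X0 X1 St (Zt r) s A B (ρ * r / 6)

section

variable {h b r s w ρ A B : ℝ} (D : Dat h b r s w ρ)

include D

lemma r4 : r < 1 / 4 := by have := D.hr'; linarith

lemma R_pos (q : ℝ) : 0 < Rr r q := Rr_pos D.hr (r4 D) q
lemma R_le (q : ℝ) : Rr r q ≤ 1 := Rr_le_one D.hr (r4 D) q

lemma th_pos (q : ℝ) : b / 2 < th h b r q := by
  have h1 := R_le D q
  have h2 := D.hh
  have h3 := D.hb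
  unfold th
  have : Rr r q / (2 * (h + 1)) < 1 / 2 := by
    rw [div_lt_div_iff₀ (by linarith) (by norm_num)]
    linarith
  nlinarith

lemma th_pos' (q : ℝ) : 0 < th h b r q := by
  have := th_pos D q
  have := D.hb
  linarith

lemma th_le (q : ℝ) : th h b r q ≤ b := by
  have h1 := R_pos D q
  have h2 := D.hh
  have h3 := D.hb
  unfold th
  have : 0 ≤ Rr r q / (2 * (h + 1)) := by positivity
  nlinarith

lemma contDiff_th : ContDiff ℝ 1 (th h b r) := by
  have := contDiff_Rr (n := 1) D.hr (r4 D)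
  unfold th
  fun_prop

lemma contDiff_cg : ContDiff ℝ 1 (cg r) :=
  (contDiff_zr (n := 1) r).div (contDiff_Rr (n := 1) D.hr (r4 D)) fun q => (R_pos D q).ne'

lemma contDiff_ce : ContDiff ℝ 1 (ce h b r) :=
  (contDiff_th D).inv fun q => (th_pos' D q).ne'

lemma ckd_pos (q : ℝ) : 0 < w / 3 * Rr r q := by
  have := R_pos D q
  have := D.hw
  positivity

lemma contDiff_ck : ContDiff ℝ 1 (ck w r) := by
  have h1 : ContDiff ℝ 1 fun q => w / 3 * Rr r q := by
    have := contDiff_Rr (n := 1) D.hr (r4 D)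
    fun_prop
  exact h1.inv fun q => (ckd_pos D q).ne'

lemma contDiff_cb : ContDiff ℝ 1 (cb h b r w) := by
  have h1 := contDiff_Rr (n := 1) D.hr (r4 D)
  have h2 := contDiff_ck D
  have h3 := contDiff_th D
  have h4 := contDiff_zr (n := 1) r
  unfold cb
  refine ContDiff.div (by fun_prop) h1 fun q => (R_pos D q).ne'

omit D in
lemma contDiff_X0 : ContDiff ℝ 1 X0 := by
  have := contDiff_St (n := 1)
  unfold X0
  fun_prop

omit D in
lemma contDiff_X1 : ContDiff ℝ 1 X1 := by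
  have h1 := contDiff_St (n := ⊤)
  have : ContDiff ℝ 1 (deriv St) := by
    have := (contDiff_infty_iff_deriv.1 h1).2
    exact this.of_le (by exact_mod_cast le_top)
  unfold X1
  fun_prop

omit D in
lemma hasDerivAt_X0 (t : ℝ) : HasDerivAt X0 (X1 t) t := by
  have h1 : HasDerivAt St (deriv St t) t :=
    ((contDiff_St (n := 1)).differentiable (by norm_num) t).hasDerivAt
  exact (h1.const_mul 2).sub_const 1

lemma contDiff_TF : ContDiff ℝ 1 (TF h b r s w A B ρ) :=
  contDiff_fld (contDiff_cg D) (contDiff_ce D) (contDiff_ck D) (contDiff_cb D)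
    (contDiff_zt (n := 1) r) contDiff_X0 contDiff_X1 (contDiff_St (n := 1)) (contDiff_Zt r)

lemma mz_pos' : 0 < mz r := mz_pos D.hr (by have := D.hr'; linarith)

theorem dv_TF (x y z : ℝ) :
    dv (TF h b r s w A B ρ) (mk3 (x, y, z)) =
      cb h b r w (x ^ 2 + z ^ 2) * X1 ((x - s * z) * ck w r (x ^ 2 + z ^ 2)) * (z + s * x) *
        (deriv St ((y - (A * x + B * z)) / (ρ * r / 6)) / (ρ * r / 6)) := by
  refine dv_fld (contDiff_cg D) (contDiff_ce D) (contDiff_ck D) (contDiff_cb D)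
    (contDiff_zt (n := 1) r) contDiff_X0 contDiff_X1 (contDiff_St (n := 1)) (contDiff_Zt r)
    (mz_pos' D).ne' hasDerivAt_X0 (hasDerivAt_Zt r) ?_ x y z
  intro q
  have h1 := (th_pos' D q).ne'
  have h2 := (R_pos D q).ne'
  unfold cb ce cg
  field_simp

/-- geometry of the sector in which the step varies -/
lemma sector {x z : ℝ} (hz : zr r (x ^ 2 + z ^ 2) ≠ 0)
    (hX : deriv St ((x - s * z) * ck w r (x ^ 2 + z ^ 2)) ≠ 0) :
    Rr r (x ^ 2 + z ^ 2) = √(x ^ 2 + z ^ 2) ∧ r ≤ √(x ^ 2 + z ^ 2) ∧ √(x ^ 2 + z ^ 2) < 1 ∧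
      r / 3 ≤ |z| ∧ |x - s * z| ≤ w * |z| := by
  have hr := D.hr
  have hr4 := r4 D
  have hm := zr_mem hr hr4 hz
  have hR : Rr r (x ^ 2 + z ^ 2) = √(x ^ 2 + z ^ 2) := Rr_eq hr hr4 hm.1.le hm.2.le
  have h1 : r ≤ √(x ^ 2 + z ^ 2) := Real.le_sqrt_of_sq_le hm.1.le
  have h2 : √(x ^ 2 + z ^ 2) < 1 := by
    rw [Real.sqrt_lt' one_pos]
    nlinarith [hm.2]
  have h3 : |(x - s * z) * ck w r (x ^ 2 + z ^ 2)| ≤ 1 := by
    by_contra hcon
    exact hX (deriv_St_zero (not_le.1 hcon))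
  have hd := ckd_pos D (x ^ 2 + z ^ 2)
  have h4 : |x - s * z| ≤ w / 3 * √(x ^ 2 + z ^ 2) := by
    unfold ck at h3
    rw [abs_mul, abs_inv, abs_of_pos hd, ← div_eq_mul_inv, div_le_one hd, hR] at h3
    exact h3
  have h5 : √(x ^ 2 + z ^ 2) ≤ |x| + |z| := by
    rw [Real.sqrt_le_left (by positivity)]
    have := mul_nonneg (abs_nonneg x) (abs_nonneg z)
    nlinarith [sq_abs x, sq_abs z]
  have h6 : |x| ≤ |x - s * z| + |z| := by
    have e : x = (x - s * z) + s * z := by ring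
    have h7 : |x| ≤ |x - s * z| + |s * z| := by
      calc |x| = |(x - s * z) + s * z| := by rw [← e]
        _ ≤ _ := abs_add_le _ _
    have h8 : |s * z| ≤ |z| := by
      rw [abs_mul]
      have := D.hs
      nlinarith [abs_nonneg z]
    linarith
  have hw := D.hw
  have hw' := D.hw'
  have hu0 := abs_nonneg (x - s * z)
  have hz0 := abs_nonneg z
  -- √q ≤ 3|z|
  have h9 : √(x ^ 2 + z ^ 2) ≤ 3 * |z| := by
    have : w / 3 * √(x ^ 2 + z ^ 2) ≤ 1 / 3 * √(x ^ 2 + z ^ 2) := by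
      have : 0 ≤ √(x ^ 2 + z ^ 2) := Real.sqrt_nonneg _
      nlinarith
    linarith
  refine ⟨hR, h1, h2, by linarith, ?_⟩
  have : w / 3 * √(x ^ 2 + z ^ 2) ≤ w / 3 * (3 * |z|) := by gcongr
  linarith

variable {C : Set E3} (T : Trap (Om (2 * (h + 1)) h b) C s w A B ρ)

include T

/-- points of the trapped sector -/
lemma trapped {x y z : ℝ} (hz : zr r (x ^ 2 + z ^ 2) ≠ 0)
    (hX : deriv St ((x - s * z) * ck w r (x ^ 2 + z ^ 2)) ≠ 0)
    (hy : |y - (A * x + B * z)| ≤ ρ * |z|) :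
    (0 < z ∧ mk3 (x, y, z) ∈ Om (2 * (h + 1)) h b ∧ mk3 (x, y, z) ∈ C) ∨
    (z < 0 ∧ mk3 (x, y, z) ∈ Om (2 * (h + 1)) h b ∧ -mk3 (x, y, z) ∈ C) := by
  obtain ⟨h1, h2, h3, h4, h5⟩ := sector D hz hX
  have hr := D.hr
  have hz0 : z ≠ 0 := by
    rintro rfl
    rw [abs_zero] at h4
    linarith
  rcases lt_or_gt_of_ne hz0 with h0 | h0
  · right
    rw [abs_of_neg h0] at h5 hy
    have := T (-mk3 (x, y, z)) (by simpa using h0) (by
      have e : (-mk3 (x, y, z)) 0 - s * (-mk3 (x, y, z)) 2 = -(x - s * z) := by simp; ring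
      rw [e, abs_neg]
      simpa using h5) (by
      rw [rr_neg]
      simpa [rr] using h3) (by
      have e : (-mk3 (x, y, z)) 1 - (A * (-mk3 (x, y, z)) 0 + B * (-mk3 (x, y, z)) 2) =
        -(y - (A * x + B * z)) := by simp; ring
      rw [e, abs_neg]
      simpa using hy)
    refine ⟨h0, ?_, this.2⟩
    simpa using neg_mem_Om this.1
  · left
    rw [abs_of_pos h0] at h5 hy
    exact ⟨h0, T (mk3 (x, y, z)) h0 h5 (by simpa [rr] using h3) hy⟩

/-- position of the central plane in the sector -/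
lemma plane_pos {x z : ℝ} (hz : zr r (x ^ 2 + z ^ 2) ≠ 0)
    (hX : deriv St ((x - s * z) * ck w r (x ^ 2 + z ^ 2)) ≠ 0) :
    |A * x + B * z| + 2 * (ρ * r / 6) < th h b r (x ^ 2 + z ^ 2) := by
  obtain ⟨h1, h2, h3, h4, h5⟩ := sector D hz hX
  have hρ := D.hρ
  have hr := D.hr
  have k1 : ∀ y : ℝ, |y - (A * x + B * z)| ≤ ρ * |z| → |y| < th h b r (x ^ 2 + z ^ 2) := by
    intro y hy
    have hO : mk3 (x, y, z) ∈ Om (2 * (h + 1)) h b := by
      rcases trapped D T hz hX hy with h | h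
      · exact h.2.1
      · exact h.2.1
    have := hO.2.2
    unfold th
    rw [h1]
    simpa [rr] using this
  have k2 : 2 * (ρ * r / 6) ≤ ρ * |z| := by nlinarith
  rcases abs_cases (A * x + B * z) with ⟨he, -⟩ | ⟨he, -⟩
  · have := k1 (A * x + B * z + 2 * (ρ * r / 6)) (by
      rw [add_sub_cancel_left, abs_of_pos (by positivity)]
      exact k2)
    rw [he]
    exact (le_abs_self _).trans_lt this
  · have := k1 (A * x + B * z - 2 * (ρ * r / 6)) (by
      have e : A * x + B * z - 2 * (ρ * r / 6) - (A * x + B * z) = -(2 * (ρ * r / 6)) := by ring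
      rw [e, abs_neg, abs_of_pos (by positivity)]
      exact k2)
    rw [he]
    have h6 := (neg_abs_le (A * x + B * z - 2 * (ρ * r / 6)))
    linarith

/-- the divergence is signed and lives in the trapped region -/
theorem dv_TF_sign {p : E3} (hp : dv (TF h b r s w A B ρ) p ≠ 0) :
    (0 < p 2 ∧ p ∈ Om (2 * (h + 1)) h b ∧ p ∈ C ∧ 0 < dv (TF h b r s w A B ρ) p) ∨
    (p 2 < 0 ∧ p ∈ Om (2 * (h + 1)) h b ∧ -p ∈ C ∧ dv (TF h b r s w A B ρ) p < 0) := by
  obtain ⟨x, y, z, rfl⟩ : ∃ x y z, p = mk3 (x, y, z) := ⟨_, _, _, (mk3_coord p).symm⟩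
  have e := dv_TF (A := A) (B := B) D x y z
  rw [e] at hp ⊢
  set q := x ^ 2 + z ^ 2 with hq
  have hρ := D.hρ
  have hr := D.hr
  have n1 : zr r q ≠ 0 := by
    intro h0
    apply hp
    unfold cb
    rw [h0]
    simp
  have n2 : deriv St ((x - s * z) * ck w r q) ≠ 0 := by
    intro h0
    apply hp
    unfold X1
    rw [h0]
    simp
  have n3 : deriv St ((y - (A * x + B * z)) / (ρ * r / 6)) ≠ 0 := by
    intro h0
    apply hp
    rw [h0]
    simp
  obtain ⟨h1, h2, h3, h4, h5⟩ := sector D n1 n2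
  have hy1 : |y - (A * x + B * z)| ≤ ρ * |z| := by
    have : |(y - (A * x + B * z)) / (ρ * r / 6)| ≤ 1 := by
      by_contra hcon
      exact n3 (deriv_St_zero (not_le.1 hcon))
    have hp1 : 0 < ρ * r / 6 := by positivity
    rw [abs_div, abs_of_pos hp1, div_le_one hp1] at this
    nlinarith
  have c1 : 0 < cb h b r w q := by
    have := mz_pos' D
    have := th_pos' D q
    have := R_pos D q
    have h6 : 0 < ck w r q := inv_pos.2 (ckd_pos D q)
    have h7 : 0 < zr r q := lt_of_le_of_ne (zr_nonneg r q) (Ne.symm n1)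
    unfold cb
    positivity
  have c2 : 0 < X1 ((x - s * z) * ck w r q) := by
    have := lt_of_le_of_ne (deriv_St_nonneg ((x - s * z) * ck w r q)) (Ne.symm n2)
    unfold X1
    linarith
  have c3 : 0 < deriv St ((y - (A * x + B * z)) / (ρ * r / 6)) / (ρ * r / 6) := by
    have := lt_of_le_of_ne (deriv_St_nonneg ((y - (A * x + B * z)) / (ρ * r / 6))) (Ne.symm n3)
    positivity
  have hne : z + s * x ≠ 0 := by
    intro h0
    apply hp
    rw [h0]
    simp
  have hsu : |s * (x - s * z)| ≤ |z| := by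
    rw [abs_mul]
    have h6 : |s| * |x - s * z| ≤ 1 * (w * |z|) := by
      have := D.hs
      gcongr
    have h7 : w * |z| ≤ 1 * |z| := by
      have := D.hw'
      gcongr
    linarith
  rw [abs_le] at hsu
  have esx : z + s * x = z + s ^ 2 * z + s * (x - s * z) := by ring
  rcases trapped D T n1 n2 hy1 with ⟨k1, k2, k3⟩ | ⟨k1, k2, k3⟩
  · left
    refine ⟨k1, k2, k3, ?_⟩
    have : 0 ≤ z + s * x := by
      rw [abs_of_pos k1] at hsu
      have : 0 ≤ s ^ 2 * z := by positivity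
      rw [esx]
      linarith [hsu.1]
    have : 0 < z + s * x := lt_of_le_of_ne this (Ne.symm hne)
    positivity
  · right
    refine ⟨k1, k2, k3, ?_⟩
    have : z + s * x ≤ 0 := by
      rw [abs_of_neg k1] at hsu
      have : s ^ 2 * z ≤ 0 := mul_nonpos_of_nonneg_of_nonpos (sq_nonneg s) k1.le
      rw [esx]
      linarith [hsu.2]
    have h8 : z + s * x < 0 := lt_of_le_of_ne this hne
    have h9 : 0 < cb h b r w q * X1 ((x - s * z) * ck w r q) := mul_pos c1 c2
    exact mul_neg_of_neg_of_pos (mul_neg_of_pos_of_neg h9 h8) c3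

end

end Pool.Agent.W789.Iso
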