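import Pool.Agent.W789.Iso.Lower

/-! The test field adapted to a trapped sector: norm and support. -/

set_option autoImplicit false

namespace Pool.Agent.W789.Iso

open MeasureTheory Set Filter Topology
open scoped ENNReal

section

variable {h b r s w ρ A B : ℝ} (D : Dat h b r s w ρ)

include D

omit D in
lemma TF_zero_of_zr {p : E3} (hp : zr r ((p 0) ^ 2 + (p 2) ^ 2) = 0) :
    TF h b r s w A B ρ p = 0 := by
  ext i
  fin_cases i
  · show p 2 * PP (cg r) (ce h b r) (ck w r) (zt r) X0 s (p 0) (p 1) (p 2) = 0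
    unfold PP cg
    rw [hp]; simp
  · show QQ (ce h b r) (ck w r) (cb h b r w) X1 St (Zt r) s A B (ρ * r / 6) (p 0) (p 1) (p 2) = 0
    unfold QQ cb
    rw [hp]; simp
  · show -(p 0 * PP (cg r) (ce h b r) (ck w r) (zt r) X0 s (p 0) (p 1) (p 2)) = 0
    unfold PP cg
    rw [hp]; simp

omit D in
lemma abs_X0_le (t : ℝ) : |X0 t| ≤ 1 := by
  unfold X0
  rw [abs_le]
  constructor <;> linarith [St_nonneg t, St_le_one t]

theorem norm_TF_le {L : ℝ} (hL0 : 0 < L) (hL : ∀ t, deriv St t ≤ L) (p : E3) :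
    ‖TF h b r s w A B ρ p‖ ≤ √(1 + (24 * L * b / (w * r)) ^ 2) := by
  have hr := D.hr
  have hw := D.hw
  have hb := D.hb
  have hr4 := r4 D
  have hr12 : r < 1 / 2 := by linarith
  by_cases hz : zr r ((p 0) ^ 2 + (p 2) ^ 2) = 0
  · rw [TF_zero_of_zr hz]
    simp
  set q := (p 0) ^ 2 + (p 2) ^ 2 with hq
  have hm := zr_mem hr hr4 hz
  have hR : Rr r q = √q := Rr_eq hr hr4 hm.1.le hm.2.le
  have hRp := R_pos D q
  have hq0 : 0 ≤ q := by positivity
  have hRq : Rr r q ^ 2 = q := by rw [hR, Real.sq_sqrt hq0]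
  have hrR : r ≤ Rr r q := by rw [hR]; exact Real.le_sqrt_of_sq_le hm.1.le
  rw [EuclideanSpace.norm_eq, Fin.sum_univ_three]
  apply Real.sqrt_le_sqrt
  simp only [Real.norm_eq_abs, sq_abs]
  set P := PP (cg r) (ce h b r) (ck w r) (zt r) X0 s (p 0) (p 1) (p 2) with hP
  set Q := QQ (ce h b r) (ck w r) (cb h b r w) X1 St (Zt r) s A B (ρ * r / 6) (p 0) (p 1) (p 2)
    with hQ
  have e0 : TF h b r s w A B ρ p 0 = p 2 * P := rfl
  have e1 : TF h b r s w A B ρ p 1 = Q := rfl
  have e2 : TF h b r s w A B ρ p 2 = -(p 0 * P) := rfl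
  rw [e0, e1, e2]
  have hPb : |P| ≤ 1 / Rr r q := by
    rw [hP]
    unfold PP cg
    rw [abs_mul, abs_mul, abs_div, abs_of_nonneg (zr_nonneg r _), abs_of_pos hRp,
      abs_of_nonneg (zt_nonneg r _)]
    calc zr r q / Rr r q * zt r (p 1 * ce h b r q) * |X0 ((p 0 - s * p 2) * ck w r q)| ≤
        1 / Rr r q * 1 * 1 := by
          gcongr
          · exact zt_nonneg r _
          · exact zr_le_one r _
          · exact zt_le_one r _
          · exact abs_X0_le _
      _ = 1 / Rr r q := by ring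
  have hP2 : P ^ 2 * q ≤ 1 := by
    have h1 : |P| ^ 2 ≤ (1 / Rr r q) ^ 2 := by gcongr
    rw [sq_abs] at h1
    have h2 : P ^ 2 * q ≤ (1 / Rr r q) ^ 2 * q := by gcongr
    have h3 : (1 / Rr r q) ^ 2 * q = 1 := by
      nth_rewrite 2 [← hRq]
      field_simp
    linarith
  have hx : |p 0| ≤ Rr r q := by
    rw [hR]; exact Real.abs_le_sqrt (by nlinarith [sq_nonneg (p 2)])
  have hzb : |p 2| ≤ Rr r q := by
    rw [hR]; exact Real.abs_le_sqrt (by nlinarith [sq_nonneg (p 0)])
  have hQb : |Q| ≤ 24 * L * b / (w * r) := by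
    have c1 : |cb h b r w q| ≤ 2 * b * 1 * (w / 3 * Rr r q)⁻¹ / Rr r q := by
      have hth := th_pos' D q
      have hmz := mz_pos' D
      have hck : 0 < ck w r q := inv_pos.2 (ckd_pos D q)
      have hzr := zr_nonneg r q
      unfold cb
      rw [abs_of_nonneg (by positivity)]
      have h1 := th_le D q
      have h2 := mz_le (r := r)
      have h3 := zr_le_one r q
      have h4 : 0 < (w / 3 * Rr r q)⁻¹ := hck
      unfold ck
      gcongr
    have c2 : |X1 ((p 0 - s * p 2) * ck w r q)| ≤ 2 * L := by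
      unfold X1
      rw [abs_mul, abs_of_pos (by norm_num : (0 : ℝ) < 2), abs_of_nonneg (deriv_St_nonneg _)]
      have := hL ((p 0 - s * p 2) * ck w r q)
      linarith
    have c3 : |p 2 + s * p 0| ≤ 2 * Rr r q := by
      have h1 : |s * p 0| ≤ 1 * Rr r q := by
        rw [abs_mul]
        have := D.hs
        gcongr
      have h2 := abs_add_le (p 2) (s * p 0)
      linarith
    have c4 : |St ((p 1 - (A * p 0 + B * p 2)) / (ρ * r / 6)) - Zt r (p 1 * ce h b r q)| ≤ 1 := by
      rw [abs_le]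
      have := St_nonneg ((p 1 - (A * p 0 + B * p 2)) / (ρ * r / 6))
      have := St_le_one ((p 1 - (A * p 0 + B * p 2)) / (ρ * r / 6))
      have := Zt_nonneg hr hr12 (p 1 * ce h b r q)
      have := Zt_le_one hr hr12 (p 1 * ce h b r q)
      constructor <;> linarith
    rw [hQ]
    unfold QQ
    rw [abs_mul, abs_mul, abs_mul]
    calc |cb h b r w q| * |X1 ((p 0 - s * p 2) * ck w r q)| * |p 2 + s * p 0| *
          |St ((p 1 - (A * p 0 + B * p 2)) / (ρ * r / 6)) - Zt r (p 1 * ce h b r q)| ≤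
        (2 * b * 1 * (w / 3 * Rr r q)⁻¹ / Rr r q) * (2 * L) * (2 * Rr r q) * 1 := by
          gcongr
      _ = 24 * L * b / (w * Rr r q) := by
          field_simp
          ring
      _ ≤ 24 * L * b / (w * r) := by gcongr
  have hQ2 : Q ^ 2 ≤ (24 * L * b / (w * r)) ^ 2 := by
    rw [← sq_abs Q]
    gcongr
  have : (p 2 * P) ^ 2 + Q ^ 2 + (-(p 0 * P)) ^ 2 = P ^ 2 * q + Q ^ 2 := by
    rw [hq]; ring
  rw [this]
  linarith

/-- the compact set carrying the field -/
def KK (h b r ρ : ℝ) : Set E3 :=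
  {p | r ^ 2 ≤ (p 0) ^ 2 + (p 2) ^ 2 ∧ (p 0) ^ 2 + (p 2) ^ 2 ≤ (1 - r) ^ 2 ∧
    |p 1| ≤ (1 - min r (ρ * r / 6 / b)) * (b * (1 - rr p / (2 * (h + 1))))}

omit D in
lemma isClosed_KK : IsClosed (KK h b r ρ) := by
  have h0 := continuous_rr
  have h1 : IsClosed {p : E3 | r ^ 2 ≤ (p 0) ^ 2 + (p 2) ^ 2} :=
    isClosed_le (by fun_prop) (by fun_prop)
  have h2 : IsClosed {p : E3 | (p 0) ^ 2 + (p 2) ^ 2 ≤ (1 - r) ^ 2} :=
    isClosed_le (by fun_prop) (by fun_prop)
  have h3 : IsClosed {p : E3 | |p 1| ≤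
      (1 - min r (ρ * r / 6 / b)) * (b * (1 - rr p / (2 * (h + 1))))} :=
    isClosed_le (by fun_prop) (by fun_prop)
  exact h1.inter (h2.inter h3)

lemma KK_sub : KK h b r ρ ⊆ Om (2 * (h + 1)) h b := by
  rintro p ⟨h1, h2, h3⟩
  have hr := D.hr
  have hr' := D.hr'
  have hb := D.hb
  have hh := D.hh
  have hρ := D.hρ
  have hrr : rr p ≤ 1 - r := by
    unfold rr
    rw [Real.sqrt_le_left (by linarith)]
    exact h2
  have hx := (abs0_le_rr p)
  have hz := (abs2_le_rr p)
  refine ⟨by linarith, by linarith, h3.trans_lt ?_⟩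
  have hm : 0 < min r (ρ * r / 6 / b) := lt_min hr (by positivity)
  have ht : 0 < b * (1 - rr p / (2 * (h + 1))) := by
    have : rr p / (2 * (h + 1)) < 1 := by
      rw [div_lt_one (by linarith)]
      linarith
    have : 0 < 1 - rr p / (2 * (h + 1)) := by linarith
    positivity
  nlinarith

variable {C : Set E3} (T : Trap (Om (2 * (h + 1)) h b) C s w A B ρ)

include T

theorem TF_support {p : E3} (hp : TF h b r s w A B ρ p ≠ 0) : p ∈ KK h b r ρ := by
  have hr := D.hr
  have hb := D.hb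
  have hρ := D.hρ
  have hr4 := r4 D
  have hr12 : r < 1 / 2 := by linarith
  have hz : zr r ((p 0) ^ 2 + (p 2) ^ 2) ≠ 0 := fun h0 => hp (TF_zero_of_zr h0)
  set q := (p 0) ^ 2 + (p 2) ^ 2 with hq
  have hm := zr_mem hr hr4 hz
  have hR : Rr r q = rr p := Rr_eq hr hr4 hm.1.le hm.2.le
  refine ⟨hm.1.le, hm.2.le, ?_⟩
  have eth : b * (1 - rr p / (2 * (h + 1))) = th h b r q := by
    unfold th; rw [hR]
  rw [eth]
  set δ := min r (ρ * r / 6 / b) with hδ
  have hδr : δ ≤ r := min_le_left _ _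
  have hδ0 : 0 < δ := lt_min hr (by positivity)
  have hth := th_pos' D q
  have hδt : δ * th h b r q ≤ ρ * r / 6 := by
    calc δ * th h b r q ≤ (ρ * r / 6 / b) * b := by
          have := th_le D q
          have : δ ≤ ρ * r / 6 / b := min_le_right _ _
          gcongr
      _ = ρ * r / 6 := by field_simp
  by_contra hcon
  push Not at hcon
  apply hp
  have hyc : 1 - r ≤ |p 1 * ce h b r q| := by
    unfold ce
    rw [abs_mul, abs_inv, abs_of_pos hth, ← div_eq_mul_inv, le_div_iff₀ hth]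
    nlinarith
  have hP : PP (cg r) (ce h b r) (ck w r) (zt r) X0 s (p 0) (p 1) (p 2) = 0 := by
    unfold PP
    rw [zt_zero hr hyc]
    simp
  have hQ : QQ (ce h b r) (ck w r) (cb h b r w) X1 St (Zt r) s A B (ρ * r / 6)
      (p 0) (p 1) (p 2) = 0 := by
    unfold QQ
    rw [← hq]
    by_cases hX : deriv St ((p 0 - s * p 2) * ck w r q) = 0
    · unfold X1
      rw [hX]; simp
    have hpl := plane_pos (A := A) (B := B) D T hz hX
    rw [← hq] at hpl
    have hY := abs_le.1 (le_of_lt (lt_sub_iff_add_lt.2 hpl))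
    have hρ1 : 0 < ρ * r / 6 := by positivity
    have : St ((p 1 - (A * p 0 + B * p 2)) / (ρ * r / 6)) - Zt r (p 1 * ce h b r q) = 0 := by
      rcases abs_cases (p 1) with ⟨he, h0⟩ | ⟨he, h0⟩
      · rw [he] at hcon
        rw [St_one, Zt_one hr hr12, sub_self]
        · unfold ce
          rw [← div_eq_mul_inv, le_div_iff₀ hth]
          nlinarith
        · rw [one_le_div hρ1]
          nlinarith [hY.2]
      · rw [he] at hcon
        rw [St_zero, Zt_zero hr, sub_self]
        · unfold ce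
          rw [← div_eq_mul_inv, div_le_iff₀ hth]
          nlinarith
        · rw [div_le_iff₀ hρ1]
          nlinarith [hY.1]
    rw [this, mul_zero]
  ext i
  fin_cases i
  · show p 2 * PP (cg r) (ce h b r) (ck w r) (zt r) X0 s (p 0) (p 1) (p 2) = 0
    rw [hP, mul_zero]
  · exact hQ
  · show -(p 0 * PP (cg r) (ce h b r) (ck w r) (zt r) X0 s (p 0) (p 1) (p 2)) = 0
    rw [hP, mul_zero, neg_zero]

lemma tsupport_TF : tsupport (TF h b r s w A B ρ) ⊆ KK h b r ρ :=
  closure_minimal (fun _ hp => TF_support D T hp) isClosed_KK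

lemma compact_TF : HasCompactSupport (TF h b r s w A B ρ) := by
  have h1 : Bornology.IsBounded (tsupport (TF h b r s w A B ρ)) :=
    (isBounded_Om (by have := D.hh; linarith) D.hb).subset
      ((tsupport_TF D T).trans (KK_sub D))
  exact Metric.isCompact_of_isClosed_isBounded (isClosed_tsupport _) h1

end

end Pool.Agent.W789.Iso
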