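import Pool.Agent.W789.Iso.Lower2

/-! Lower bound for the perimeter of a set trapped by a sector. -/

set_option autoImplicit false

namespace Pool.Agent.W789.Iso

open MeasureTheory Set Filter Topology
open scoped ENNReal

lemma integral_zt_ge {r : ℝ} (hr : 0 < r) (hr' : r < 1 / 4) : 2 * (1 - 2 * r) ≤ ∫ y, zt r y := by
  have hc : Continuous (zt r) := (contDiff_zt (n := 0) r).continuous
  have hcs : HasCompactSupport (zt r) := by
    refine HasCompactSupport.intro (isCompact_Icc (a := (-1 : ℝ)) (b := 1)) fun y hy => ?_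
    apply zt_zero hr
    by_contra hcon
    apply hy
    exact abs_le.1 (by linarith)
  have hi : Integrable (zt r) := hc.integrable_of_hasCompactSupport hcs
  have h1 : ∫ y in Icc (-(1 - 2 * r)) (1 - 2 * r), zt r y ≤ ∫ y, zt r y :=
    setIntegral_le_integral hi (Eventually.of_forall fun y => zt_nonneg r y)
  have h2 : ∫ y in Icc (-(1 - 2 * r)) (1 - 2 * r), zt r y =
      ∫ y in Icc (-(1 - 2 * r)) (1 - 2 * r), (1 : ℝ) :=
    setIntegral_congr_fun measurableSet_Icc fun y hy => zt_one hr (abs_le.2 hy)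
  rw [h2] at h1
  simp only [integral_const, MeasurableSet.univ, measureReal_restrict_apply, univ_inter,
    Real.volume_real_Icc, smul_eq_mul, mul_one] at h1
  have h3 : 1 - 2 * r - -(1 - 2 * r) = 2 * (1 - 2 * r) := by ring
  rw [h3, max_eq_left (by linarith)] at h1
  exact h1

section

variable {h b r s w ρ A B : ℝ} (D : Dat h b r s w ρ)

include D

lemma integral_radial_ge :
    2 * (b * ((1 - 4 * r) * (1 - 1 / (2 * (2 * (h + 1)))))) ≤
      ∫ x : ℝ, zr r (x ^ 2) * th h b r (x ^ 2) := by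
  have hr := D.hr
  have hr' := D.hr'
  have hb := D.hb
  have hh := D.hh
  have hr4 := r4 D
  have h1 := integral_comp_abs (f := fun x : ℝ => zr r (x ^ 2) * th h b r (x ^ 2))
  simp only [sq_abs] at h1
  rw [h1]
  have hc : Continuous fun x : ℝ => zr r (x ^ 2) * th h b r (x ^ 2) := by
    have h2 : Continuous (zr r) := (contDiff_zr (n := 0) r).continuous
    have h3 : Continuous (th h b r) := (contDiff_th D).continuous
    fun_prop
  have hcs : HasCompactSupport fun x : ℝ => zr r (x ^ 2) * th h b r (x ^ 2) := by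
    refine HasCompactSupport.intro (isCompact_Icc (a := (-1 : ℝ)) (b := 1)) fun y hy => ?_
    by_contra hcon
    apply hy
    have h2 := zr_mem hr hr4 (left_ne_zero_of_mul hcon)
    apply abs_le.1
    rw [← sq_le_one_iff_abs_le_one]
    nlinarith [h2.2]
  have hi := hc.integrable_of_hasCompactSupport (μ := volume) hcs
  have h2 : ∫ x in Ioc (2 * r) (1 - 2 * r), zr r (x ^ 2) * th h b r (x ^ 2) ≤
      ∫ x in Ioi (0 : ℝ), zr r (x ^ 2) * th h b r (x ^ 2) := by
    refine setIntegral_mono_set hi.integrableOn ?_ ?_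
    · exact Eventually.of_forall fun x => mul_nonneg (zr_nonneg r _) (th_pos' D _).le
    · exact LE.le.eventuallyLE (fun x hx => mem_Ioi.2 (by linarith [hx.1]) :
        Ioc (2 * r) (1 - 2 * r) ⊆ Ioi (0 : ℝ))
  have h3 : ∫ x in Ioc (2 * r) (1 - 2 * r), zr r (x ^ 2) * th h b r (x ^ 2) =
      ∫ x in Ioc (2 * r) (1 - 2 * r), (b - b / (2 * (h + 1)) * x) := by
    refine setIntegral_congr_fun measurableSet_Ioc fun x hx => ?_
    have k1 : r ^ 2 ≤ x ^ 2 := by nlinarith [hx.1]
    have k2 : x ^ 2 ≤ (1 - 2 * r) ^ 2 := by nlinarith [hx.1, hx.2]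
    have k3 : 4 * r ^ 2 ≤ x ^ 2 := by nlinarith [hx.1]
    have k4 : x ^ 2 ≤ (1 - r) ^ 2 := by nlinarith
    show zr r (x ^ 2) * th h b r (x ^ 2) = b - b / (2 * (h + 1)) * x
    unfold th
    rw [zr_one hr hr4 k3 k2, Rr_eq hr hr4 k1 k4, Real.sqrt_sq (by linarith [hx.1])]
    ring
  rw [h3, ← intervalIntegral.integral_of_le (by linarith), intervalIntegral.integral_sub
    (by simp) (Continuous.intervalIntegrable (by fun_prop) _ _),
    intervalIntegral.integral_const_mul, integral_id, intervalIntegral.integral_const,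
    smul_eq_mul] at h2
  have h4 : (1 - 2 * r - 2 * r) * b - b / (2 * (h + 1)) * (((1 - 2 * r) ^ 2 - (2 * r) ^ 2) / 2) =
      b * ((1 - 4 * r) * (1 - 1 / (2 * (2 * (h + 1))))) := by
    have : h + 1 ≠ 0 := by linarith
    field_simp
    ring
  rw [h4] at h2
  linarith

/-- the flux through the horizontal plane -/
lemma flux_plane :
    ∫ x : ℝ, ∫ y : ℝ, (TF h b r s w A B ρ (mk3 (x, y, 0)) 2) =
      -((∫ y, zt r y) * ∫ x : ℝ, zr r (x ^ 2) * th h b r (x ^ 2)) := by
  have hr := D.hr
  have hw := D.hw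
  have hw' := D.hw'
  have hr4 := r4 D
  rw [← integral_const_mul, ← integral_neg]
  congr 1
  funext x
  have key : ∀ y : ℝ, TF h b r s w A B ρ (mk3 (x, y, 0)) 2 =
      -(zr r (x ^ 2) * zt r (y * (th h b r (x ^ 2))⁻¹)) := by
    intro y
    show -(x * PP (cg r) (ce h b r) (ck w r) (zt r) X0 s x y 0) = _
    unfold PP cg ce
    have e1 : x ^ 2 + (0 : ℝ) ^ 2 = x ^ 2 := by ring
    rw [e1, mul_zero, sub_zero]
    by_cases hz : zr r (x ^ 2) = 0
    · rw [hz]; simp
    have hm := zr_mem hr hr4 hz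
    have hR : Rr r (x ^ 2) = |x| := by
      rw [Rr_eq hr hr4 hm.1.le hm.2.le, Real.sqrt_sq_eq_abs]
    have hx0 : x ≠ 0 := by
      rintro rfl
      have := hm.1
      nlinarith
    unfold ck
    rw [hR]
    rcases lt_or_gt_of_ne hx0 with h0 | h0
    · have : X0 (x * (w / 3 * |x|)⁻¹) = -1 := by
        unfold X0
        rw [St_zero, mul_zero, zero_sub]
        rw [abs_of_neg h0]
        have : x * (w / 3 * -x)⁻¹ = -(3 / w) := by
          have := hx0
          field_simp
        rw [this]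
        have : 3 ≤ 3 / w := by rw [le_div_iff₀ hw]; linarith
        linarith
      rw [this, abs_of_neg h0]
      field_simp
    · have : X0 (x * (w / 3 * |x|)⁻¹) = 1 := by
        unfold X0
        rw [St_one]
        · norm_num
        rw [abs_of_pos h0]
        have : x * (w / 3 * x)⁻¹ = 3 / w := by
          have := hx0
          field_simp
        rw [this]
        have : 3 ≤ 3 / w := by rw [le_div_iff₀ hw]; linarith
        linarith
      rw [this, abs_of_pos h0]
      field_simp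
  simp only [key]
  rw [integral_neg, integral_const_mul]
  have h1 := Measure.integral_comp_mul_right (fun y => zt r y) (th h b r (x ^ 2))⁻¹
  rw [h1, inv_inv, abs_of_pos (th_pos' D _), smul_eq_mul]
  ring

variable {C : Set E3} (T : Trap (Om (2 * (h + 1)) h b) C s w A B ρ)

include T

lemma integral_dv_TF : ∫ p, dv (TF h b r s w A B ρ) p = 0 := by
  have hΦ := contDiff_TF (A := A) (B := B) D
  have hcs := compact_TF D T
  have h1 := div_graph' hΦ hcs (w := fun _ => h) contDiff_const
  have h2 : ∫ p in {p : E3 | p 2 < h}, dv (TF h b r s w A B ρ) p =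
      ∫ p, dv (TF h b r s w A B ρ) p := by
    apply setIntegral_eq_integral_of_forall_compl_eq_zero
    intro p hp
    apply dv_eq_zero_of_notMem
    intro hp2
    have h3 := (KK_sub D (tsupport_TF D T hp2)).2.1
    exact hp ((le_abs_self _).trans_lt h3)
  rw [← h2, h1]
  have h3 : ∀ x y : ℝ, TF h b r s w A B ρ (mk3 (x, y, h)) = 0 := by
    intro x y
    by_contra hcon
    have h4 := (KK_sub D (TF_support D T hcon)).2.1
    simp only [mk3_2] at h4
    exact absurd h4 (not_lt.2 (le_abs_self h))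
  simp [h3]

theorem lower_bound {L : ℝ} (hL0 : 0 < L) (hL : ∀ t, deriv St t ≤ L) {E : Set E3}
    (hE : MeasurableSet E)
    (h1 : volume ((Om (2 * (h + 1)) h b ∩ C) \ E) = 0)
    (h2 : volume ((Om (2 * (h + 1)) h b ∩ {x | -x ∈ C}) ∩ E) = 0) {I : ℝ}
    (hI : PerLE (Om (2 * (h + 1)) h b) E I) :
    4 * b * (1 - 1 / (2 * (2 * (h + 1)))) * (1 - 6 * r) ≤
      √(1 + (24 * L * b / (w * r)) ^ 2) * I := by
  have hr := D.hr
  have hr' := D.hr'
  have hb := D.hb
  have hh := D.hh
  have hr4 := r4 D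
  set Φ := TF h b r s w A B ρ with hΦdef
  have hΦ : ContDiff ℝ 1 Φ := contDiff_TF D
  have hcs : HasCompactSupport Φ := compact_TF D T
  set N := √(1 + (24 * L * b / (w * r)) ^ 2) with hN
  have hN0 : 0 < N := Real.sqrt_pos.2 (by positivity)
  have hadm : Adm (Om (2 * (h + 1)) h b) (fun p => N⁻¹ • Φ p) := by
    have hsub : tsupport (fun p => N⁻¹ • Φ p) ⊆ tsupport Φ :=
      tsupport_comp_subset (g := fun v : E3 => N⁻¹ • v) (smul_zero _) Φ
    refine ⟨hΦ.const_smul _, hcs.isCompact.of_isClosed_subset (isClosed_tsupport _) hsub, ?_, ?_⟩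
    · exact hsub.trans ((tsupport_TF D T).trans (KK_sub D))
    · intro p
      rw [norm_smul, norm_inv, Real.norm_eq_abs, abs_of_pos hN0, inv_mul_le_iff₀ hN0, mul_one]
      exact norm_TF_le D hL0 hL p
  have h3 := hI _ hadm
  have h4 : ∫ p in E, dv (fun p => N⁻¹ • Φ p) p = N⁻¹ * ∫ p in E, dv Φ p := by
    rw [← integral_const_mul]
    congr 1
    funext p
    exact dv_const_smul _
  rw [h4, inv_mul_le_iff₀ hN0] at h3
  refine le_trans ?_ h3
  -- the integral over `E` is the integral over the upper half space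
  have hup : MeasurableSet {p : E3 | 0 < p 2} := by
    have : IsOpen {p : E3 | 0 < p 2} := isOpen_lt (by fun_prop) (by fun_prop)
    exact this.measurableSet
  have hlo : MeasurableSet {p : E3 | p 2 < 0} := by
    have : IsOpen {p : E3 | p 2 < 0} := isOpen_lt (by fun_prop) (by fun_prop)
    exact this.measurableSet
  have h5 : ∫ p in E, dv Φ p = ∫ p in {p : E3 | 0 < p 2}, dv Φ p := by
    rw [← integral_indicator hE, ← integral_indicator hup]
    apply integral_congr_ae
    have a1 : ∀ᵐ p : E3, p ∉ (Om (2 * (h + 1)) h b ∩ C) \ E := by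
      exact measure_eq_zero_iff_ae_notMem.1 h1
    have a2 : ∀ᵐ p : E3, p ∉ (Om (2 * (h + 1)) h b ∩ {x | -x ∈ C}) ∩ E := by
      exact measure_eq_zero_iff_ae_notMem.1 h2
    filter_upwards [a1, a2] with p hp1 hp2
    by_cases hd : dv Φ p = 0
    · simp only [indicator, hd, ite_self]
    · rcases dv_TF_sign D T hd with ⟨k1, k2, k3, -⟩ | ⟨k1, k2, k3, -⟩
      · have hpE : p ∈ E := by
          by_contra hcon
          exact hp1 ⟨⟨k2, k3⟩, hcon⟩
        rw [indicator_of_mem hpE, indicator_of_mem (show p ∈ {p : E3 | 0 < p 2} from k1)]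
      · have hpE : p ∉ E := fun hcon => hp2 ⟨⟨k2, k3⟩, hcon⟩
        rw [indicator_of_notMem hpE, indicator_of_notMem (show p ∉ {p : E3 | 0 < p 2} from
          not_lt.2 (le_of_lt k1))]
  have hi : Integrable (dv Φ) := integrable_dv hΦ hcs
  have h6 : ∫ p, dv Φ p = (∫ p in {p : E3 | 0 < p 2}, dv Φ p) + ∫ p in {p : E3 | p 2 < 0}, dv Φ p := by
    rw [← integral_indicator hup, ← integral_indicator hlo,
      ← integral_add (hi.indicator hup) (hi.indicator hlo)]
    congr 1
    funext p
    by_cases hd : dv Φ p = 0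
    · simp only [indicator, hd, ite_self, add_zero]
    · rcases dv_TF_sign D T hd with ⟨k1, -⟩ | ⟨k1, -⟩
      · rw [indicator_of_mem (show p ∈ {p : E3 | 0 < p 2} from k1), indicator_of_notMem
          (show p ∉ {p : E3 | p 2 < 0} from not_lt.2 (le_of_lt k1)), add_zero]
      · rw [indicator_of_mem (show p ∈ {p : E3 | p 2 < 0} from k1), indicator_of_notMem
          (show p ∉ {p : E3 | 0 < p 2} from not_lt.2 (le_of_lt k1)), zero_add]
  have h7 := div_graph' hΦ hcs (w := fun _ => (0 : ℝ)) contDiff_const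
  simp only [deriv_const, zero_mul, sub_zero] at h7
  have h8 : ∫ p in {p : E3 | p 2 < 0}, dv Φ p =
      -((∫ y, zt r y) * ∫ x : ℝ, zr r (x ^ 2) * th h b r (x ^ 2)) := by
    rw [h7]
    exact flux_plane D
  rw [integral_dv_TF D T] at h6
  rw [h5]
  have h9 : ∫ p in {p : E3 | 0 < p 2}, dv Φ p =
      (∫ y, zt r y) * ∫ x : ℝ, zr r (x ^ 2) * th h b r (x ^ 2) := by
    linarith
  rw [h9]
  have h10 := integral_zt_ge hr hr4
  have h11 := integral_radial_ge D
  have hT : 0 ≤ 1 - 1 / (2 * (2 * (h + 1))) := by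
    have : 1 / (2 * (2 * (h + 1))) ≤ 1 := by
      rw [div_le_one (by linarith)]; linarith
    linarith
  have h12 : (2 * (1 - 2 * r)) * (2 * (b * ((1 - 4 * r) * (1 - 1 / (2 * (2 * (h + 1))))))) ≤
      (∫ y, zt r y) * ∫ x : ℝ, zr r (x ^ 2) * th h b r (x ^ 2) := by
    refine mul_le_mul h10 h11 ?_ (by linarith)
    have : 0 ≤ 1 - 4 * r := by linarith
    positivity
  refine le_trans ?_ h12
  have h13 : (1 - 6 * r) ≤ (1 - 2 * r) * (1 - 4 * r) := by nlinarith
  have h14 : 0 ≤ 4 * b * (1 - 1 / (2 * (2 * (h + 1)))) := by positivity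
  calc 4 * b * (1 - 1 / (2 * (2 * (h + 1)))) * (1 - 6 * r) ≤
      4 * b * (1 - 1 / (2 * (2 * (h + 1)))) * ((1 - 2 * r) * (1 - 4 * r)) := by gcongr
    _ = _ := by ring

end

end Pool.Agent.W789.Iso
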