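import Pool.Agent.W789.Iso.Weak

/-! Strong compactness: weak limits of sets with bounded relative perimeter are sets. -/

set_option autoImplicit false

namespace Pool.Agent.W789.Iso

open MeasureTheory Set Filter Topology Metric
open scoped ENNReal

variable {n : ℕ}

lemma ball_est {Ω A W : Set (EuclideanSpace ℝ (Fin n))} {P : ℝ} (hP : PerLE Ω A P)
    (hA : MeasurableSet A) (hW : IsOpen W) (hWc : IsCompact (closure W)) {ε : ℝ}
    (hε : cthickening ε (closure W) ⊆ Ω) :
    ∫⁻ x in A ∩ W, volume (closedBall x ε \ A) ≤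
      volume (closedBall (0 : EuclideanSpace ℝ (Fin n)) ε) * ENNReal.ofReal (ε * P) := by
  have hP0 := hP.nonneg
  set A' : Set (EuclideanSpace ℝ (Fin n)) := A ∩ W with hA'
  have hA'm : MeasurableSet A' := hA.inter hW.measurableSet
  let Q : Set (EuclideanSpace ℝ (Fin n) × EuclideanSpace ℝ (Fin n)) :=
    {p | p.1 ∈ A' ∧ p.2 ∈ closedBall (0 : EuclideanSpace ℝ (Fin n)) ε ∧ p.1 + p.2 ∉ A}
  have hQ : MeasurableSet Q := by
    refine (measurable_fst hA'm).inter ((measurable_snd measurableSet_closedBall).inter ?_)
    exact (((measurable_fst.add measurable_snd) :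
      Measurable fun p : EuclideanSpace ℝ (Fin n) × EuclideanSpace ℝ (Fin n) => p.1 + p.2)
      hA).compl
  have e1 : (volume.prod volume) Q = ∫⁻ x in A', volume (closedBall x ε \ A) := by
    rw [Measure.prod_apply hQ, ← lintegral_indicator hA'm]
    congr 1
    ext x
    by_cases hx : x ∈ A'
    · rw [indicator_of_mem hx]
      have : Prod.mk x ⁻¹' Q = (fun h => h + x) ⁻¹' (closedBall x ε \ A) := by
        ext h
        simp only [Q, mem_preimage, mem_ofPred_eq, Set.mem_sdiff, hx, true_and]
        rw [mem_closedBall, mem_closedBall, dist_zero_right, dist_eq_norm, add_sub_cancel_right,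
          add_comm h x]
      rw [this, measure_preimage_add_right]
    · rw [indicator_of_notMem hx]
      have : Prod.mk x ⁻¹' Q = ∅ := by
        ext h
        simp only [Q, mem_preimage, mem_ofPred_eq, mem_empty_iff_false, iff_false]
        exact fun h2 => hx h2.1
      rw [this, measure_empty]
  rw [← e1, Measure.prod_apply_symm hQ]
  calc ∫⁻ h, volume ((fun x => (x, h)) ⁻¹' Q)
      ≤ ∫⁻ h, (closedBall (0 : EuclideanSpace ℝ (Fin n)) ε).indicator
          (fun _ => ENNReal.ofReal (ε * P)) h := by
        refine lintegral_mono fun h => ?_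
        by_cases hh : h ∈ closedBall (0 : EuclideanSpace ℝ (Fin n)) ε
        · rw [indicator_of_mem hh]
          rw [mem_closedBall, dist_zero_right] at hh
          have h1 : (fun x => (x, h)) ⁻¹' Q ⊆ {x | x ∈ A ∩ W ∧ x + h ∉ A} := by
            rintro x ⟨hx1, -, hx3⟩
            exact ⟨hx1, hx3⟩
          refine (measure_mono h1).trans ((trans_est hP hA hW hWc ?_).trans ?_)
          · intro t ht0 ht1 x hx
            apply hε
            refine mem_cthickening_of_dist_le _ x _ _ hx ?_
            rw [dist_eq_norm, add_sub_cancel_left, norm_smul, Real.norm_of_nonneg ht0]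
            calc t * ‖h‖ ≤ 1 * ‖h‖ := by gcongr
              _ ≤ ε := by rw [one_mul]; exact hh
          · apply ENNReal.ofReal_le_ofReal
            gcongr
        · rw [indicator_of_notMem hh]
          have : (fun x => (x, h)) ⁻¹' Q = ∅ := by
            ext x
            simp only [Q, mem_preimage, mem_ofPred_eq, mem_empty_iff_false, iff_false]
            exact fun h2 => hh h2.2.1
          rw [this, measure_empty]
    _ = _ := by
        rw [lintegral_indicator measurableSet_closedBall, setLIntegral_const, mul_comm]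

/-- The density of `A` in the disc of radius `ε` about `x`. -/
noncomputable def dav (A : Set (EuclideanSpace ℝ (Fin n))) (ε : ℝ)
    (x : EuclideanSpace ℝ (Fin n)) : ℝ :=
  volume.real (A ∩ closedBall x ε) / volume.real (closedBall (0 : EuclideanSpace ℝ (Fin n)) ε)

lemma vol_cb_pos {ε : ℝ} (hε : 0 < ε) :
    0 < volume.real (closedBall (0 : EuclideanSpace ℝ (Fin n)) ε) :=
  ENNReal.toReal_pos (measure_closedBall_pos volume 0 hε).ne' measure_closedBall_lt_top.ne

lemma vol_cb (x : EuclideanSpace ℝ (Fin n)) (ε : ℝ) :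
    volume (closedBall x ε) = volume (closedBall (0 : EuclideanSpace ℝ (Fin n)) ε) :=
  Measure.addHaar_closedBall_center volume x ε

lemma vol_cb_real (x : EuclideanSpace ℝ (Fin n)) (ε : ℝ) :
    volume.real (closedBall x ε) = volume.real (closedBall (0 : EuclideanSpace ℝ (Fin n)) ε) := by
  unfold Measure.real; rw [vol_cb]

lemma dav_nonneg (A : Set (EuclideanSpace ℝ (Fin n))) (ε : ℝ) (x : EuclideanSpace ℝ (Fin n)) :
    0 ≤ dav A ε x := by
  unfold dav; positivity

lemma dav_le_one (A : Set (EuclideanSpace ℝ (Fin n))) {ε : ℝ} (hε : 0 < ε)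
    (x : EuclideanSpace ℝ (Fin n)) : dav A ε x ≤ 1 := by
  unfold dav
  rw [div_le_one (vol_cb_pos hε), ← vol_cb_real x ε]
  exact measureReal_mono inter_subset_right measure_closedBall_lt_top.ne

lemma measurable_dav {A : Set (EuclideanSpace ℝ (Fin n))} (hA : MeasurableSet A) (ε : ℝ) :
    Measurable (dav A ε) := by
  have hQ : MeasurableSet {p : EuclideanSpace ℝ (Fin n) × EuclideanSpace ℝ (Fin n) |
      p.2 ∈ A ∧ dist p.2 p.1 ≤ ε} :=
    (measurable_snd hA).inter
      (measurableSet_le (measurable_snd.dist measurable_fst) measurable_const)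
  have h1 := measurable_measure_prodMk_left
    (ν := (volume : Measure (EuclideanSpace ℝ (Fin n)))) hQ
  have h2 : Measurable fun x : EuclideanSpace ℝ (Fin n) => volume (A ∩ closedBall x ε) := h1
  exact h2.ennreal_toReal.div_const _

lemma ball_est_real {Ω A W : Set (EuclideanSpace ℝ (Fin n))} {P : ℝ} (hP : PerLE Ω A P)
    (hA : MeasurableSet A) (hW : IsOpen W) (hWc : IsCompact (closure W)) {ε : ℝ} (hε0 : 0 < ε)
    (hε : cthickening ε (closure W) ⊆ Ω) :
    ∫ x in A ∩ W, (1 - dav A ε x) ≤ ε * P := by
  have hV := vol_cb_pos (n := n) hε0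
  have hP0 := hP.nonneg
  have h1 := ball_est hP hA hW hWc hε
  have hfin : ∀ x : EuclideanSpace ℝ (Fin n), volume (closedBall x ε \ A) ≠ ⊤ := fun x =>
    ((measure_mono sdiff_subset).trans_lt measure_closedBall_lt_top).ne
  have e1 : ∀ x : EuclideanSpace ℝ (Fin n), 1 - dav A ε x = (volume (closedBall x ε \ A)).toReal /
      volume.real (closedBall (0 : EuclideanSpace ℝ (Fin n)) ε) := by
    intro x
    have h3 : volume.real (closedBall x ε) = volume.real (A ∩ closedBall x ε) +
        volume.real (closedBall x ε \ A) := by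
      rw [inter_comm]
      exact (measureReal_inter_add_sdiff hA measure_closedBall_lt_top.ne).symm
    have h2 := vol_cb_real x ε
    unfold dav
    change 1 - _ = volume.real (closedBall x ε \ A) / _
    rw [eq_div_iff hV.ne', sub_mul, one_mul, div_mul_cancel₀ _ hV.ne']
    linarith
  have hmeas : Measurable fun x : EuclideanSpace ℝ (Fin n) => volume (closedBall x ε \ A) := by
    have hQ : MeasurableSet {p : EuclideanSpace ℝ (Fin n) × EuclideanSpace ℝ (Fin n) |
        dist p.2 p.1 ≤ ε ∧ p.2 ∉ A} :=
      (measurableSet_le (measurable_snd.dist measurable_fst) measurable_const).inter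
        (measurable_snd hA).compl
    exact measurable_measure_prodMk_left (ν := (volume : Measure (EuclideanSpace ℝ (Fin n)))) hQ
  simp_rw [e1]
  rw [integral_div, integral_toReal hmeas.aemeasurable
    (Eventually.of_forall fun x => (hfin x).lt_top), div_le_iff₀ hV]
  have h4 := ENNReal.toReal_mono (by
    exact ENNReal.mul_ne_top measure_closedBall_lt_top.ne ENNReal.ofReal_ne_top) h1
  rw [ENNReal.toReal_mul, ENNReal.toReal_ofReal (by positivity)] at h4
  calc _ ≤ _ := h4
    _ = _ := by unfold Measure.real; ring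

lemma strong_aux {Ω W : Set (EuclideanSpace ℝ (Fin n))} {A : ℕ → Set (EuclideanSpace ℝ (Fin n))}
    (hΩ : MeasurableSet Ω) (hA : ∀ k, MeasurableSet (A k)) {P : ℝ} (hP : ∀ k, PerLE Ω (A k) P)
    {f : EuclideanSpace ℝ (Fin n) → ℝ}
    (hlim : ∀ h : EuclideanSpace ℝ (Fin n) → ℝ, BM h →
        Tendsto (fun k => ∫ x in A k, h x) atTop (𝓝 (∫ x in Ω, h x * f x)))
    (hW : IsOpen W) (hWc : IsCompact (closure W)) {ε : ℝ} (hε0 : 0 < ε)
    (hε : cthickening ε (closure W) ⊆ Ω)
    (hfm : Measurable fun x => ⨍ y in closedBall x ε, f y)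
    (hf01 : ∀ x, 0 ≤ (⨍ y in closedBall x ε, f y) ∧ (⨍ y in closedBall x ε, f y) ≤ 1) :
    ∫ x in W, f x * (1 - ⨍ y in closedBall x ε, f y) ≤ ε * P := by
  have hV := vol_cb_pos (n := n) hε0
  have hWΩ : W ⊆ Ω := subset_closure.trans ((self_subset_cthickening _).trans hε)
  set D : EuclideanSpace ℝ (Fin n) → ℝ := fun x => ⨍ y in closedBall x ε, f y with hD
  have hcb : ∀ x ∈ W, closedBall x ε ⊆ Ω := by
    intro x hx y hy
    apply hε
    exact mem_cthickening_of_dist_le _ x _ _ (subset_closure hx) (mem_closedBall.1 hy)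
  have hpt : ∀ x ∈ W, Tendsto (fun k => dav (A k) ε x) atTop (𝓝 (D x)) := by
    intro x hx
    have hBM : BM ((closedBall x ε).indicator fun _ => (1 : ℝ)) :=
      ⟨measurable_const.indicator measurableSet_closedBall, 1, fun y => by
        by_cases hy : y ∈ closedBall x ε
        · rw [indicator_of_mem hy]; simp
        · rw [indicator_of_notMem hy]; simp⟩
    have h1 := hlim _ hBM
    have e1 : ∀ k, ∫ y in A k, (closedBall x ε).indicator (fun _ => (1 : ℝ)) y =
        volume.real (A k ∩ closedBall x ε) := by
      intro k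
      rw [setIntegral_indicator measurableSet_closedBall]; simp
    have e2 : ∫ y in Ω, (closedBall x ε).indicator (fun _ => (1 : ℝ)) y * f y =
        ∫ y in closedBall x ε, f y := by
      have : ∀ y, (closedBall x ε).indicator (fun _ => (1 : ℝ)) y * f y =
          (closedBall x ε).indicator f y := by
        intro y
        by_cases hy : y ∈ closedBall x ε
        · rw [indicator_of_mem hy, indicator_of_mem hy, one_mul]
        · rw [indicator_of_notMem hy, indicator_of_notMem hy, zero_mul]
      simp_rw [this]
      rw [setIntegral_indicator measurableSet_closedBall, inter_eq_self_of_subset_right (hcb x hx)]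
    simp only [e1, e2] at h1
    have h2 := h1.div_const (volume.real (closedBall (0 : EuclideanSpace ℝ (Fin n)) ε))
    have e3 : D x = (∫ y in closedBall x ε, f y) /
        volume.real (closedBall (0 : EuclideanSpace ℝ (Fin n)) ε) := by
      simp only [hD]
      rw [setAverage_eq, vol_cb_real, smul_eq_mul, div_eq_inv_mul]
    rw [e3]
    exact h2
  have hbfin : volume W ≠ ⊤ := ((measure_mono subset_closure).trans_lt hWc.measure_lt_top).ne
  -- integrability helpers on the ball
  have hint : ∀ {u : EuclideanSpace ℝ (Fin n) → ℝ}, Measurable u → (∀ x, |u x| ≤ 1) →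
      ∀ S : Set (EuclideanSpace ℝ (Fin n)), S ⊆ W → IntegrableOn u S := by
    intro u hu hu1 S hS
    refine Measure.integrableOn_of_bounded (M := 1) (ne_top_of_le_ne_top hbfin (measure_mono hS))
      hu.aestronglyMeasurable (Eventually.of_forall fun x => by rw [Real.norm_eq_abs]; exact hu1 x)
  -- weak limit of the left side
  have hBM : BM (W.indicator fun x => 1 - D x) :=
    ⟨(measurable_const.sub hfm).indicator hW.measurableSet, 1, fun x => by
      by_cases hx : x ∈ W
      · rw [indicator_of_mem hx, abs_le]; constructor <;> linarith [(hf01 x).1, (hf01 x).2]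
      · rw [indicator_of_notMem hx]; simp⟩
  have hl := hlim _ hBM
  have e1 : ∀ k, ∫ x in A k, W.indicator (fun x => 1 - D x) x =
      ∫ x in A k ∩ W, (1 - D x) := fun k => setIntegral_indicator hW.measurableSet
  have e2 : ∫ x in Ω, W.indicator (fun x => 1 - D x) x * f x =
      ∫ x in W, f x * (1 - D x) := by
    have : ∀ x, W.indicator (fun x => 1 - D x) x * f x =
        W.indicator (fun x => f x * (1 - D x)) x := by
      intro x
      by_cases hx : x ∈ W
      · rw [indicator_of_mem hx, indicator_of_mem hx, mul_comm]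
      · rw [indicator_of_notMem hx, indicator_of_notMem hx, zero_mul]
    simp_rw [this]
    rw [setIntegral_indicator hW.measurableSet, inter_eq_self_of_subset_right hWΩ]
  simp only [e1, e2] at hl
  -- the error term
  have hb : Tendsto (fun k => ∫ x in W, |dav (A k) ε x - D x|) atTop (𝓝 0) := by
    have : Tendsto (fun k => ∫ x in W, |dav (A k) ε x - D x|) atTop
        (𝓝 (∫ x in W, (0 : ℝ))) := by
      refine tendsto_integral_of_dominated_convergence (fun _ => (1 : ℝ)) ?_ ?_ ?_ ?_
      · intro k
        have : Measurable fun x => |dav (A k) ε x - D x| :=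
          ((measurable_dav (hA k) ε).sub hfm).abs
        exact this.aestronglyMeasurable
      · exact hint measurable_const (by simp) _ Subset.rfl
      · intro k
        refine Eventually.of_forall fun x => ?_
        rw [Real.norm_eq_abs, abs_abs, abs_le]
        have h1 := dav_nonneg (A k) ε x
        have h2 := dav_le_one (A k) hε0 x
        constructor <;> linarith [(hf01 x).1, (hf01 x).2]
      · filter_upwards [ae_restrict_mem hW.measurableSet] with x hx
        have := ((hpt x hx).sub_const (D x)).abs
        simpa using this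
    simpa using this
  have hbound : ∀ k, ∫ x in A k ∩ W, (1 - D x) ≤ ε * P +
      ∫ x in W, |dav (A k) ε x - D x| := by
    intro k
    have i1 : IntegrableOn (fun x => 1 - dav (A k) ε x) (A k ∩ W) :=
      hint (u := fun x => 1 - dav (A k) ε x) (measurable_const.sub (measurable_dav (hA k) ε))
        (fun x => by
        have h1 := dav_nonneg (A k) ε x
        have h2 := dav_le_one (A k) hε0 x
        rw [abs_le]; constructor <;> linarith) _ inter_subset_right
    have habs : ∀ x, |dav (A k) ε x - D x| ≤ 1 := fun x => by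
      have h1 := dav_nonneg (A k) ε x
      have h2 := dav_le_one (A k) hε0 x
      rw [abs_le]; constructor <;> linarith [(hf01 x).1, (hf01 x).2]
    have m2 : Measurable fun x => |dav (A k) ε x - D x| :=
      ((measurable_dav (hA k) ε).sub hfm).abs
    have i2 : ∀ S : Set (EuclideanSpace ℝ (Fin n)), S ⊆ W →
        IntegrableOn (fun x => |dav (A k) ε x - D x|) S :=
      fun S hS => hint m2 (fun x => by rw [abs_abs]; exact habs x) S hS
    calc ∫ x in A k ∩ W, (1 - D x)
        ≤ ∫ x in A k ∩ W, ((1 - dav (A k) ε x) + |dav (A k) ε x - D x|) := by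
          refine integral_mono ?_ (i1.add (i2 _ inter_subset_right)) fun x => ?_
          · exact hint (u := fun x => 1 - D x) (measurable_const.sub hfm) (fun x => by
              rw [abs_le]; constructor <;> linarith [(hf01 x).1, (hf01 x).2]) _ inter_subset_right
          · have := le_abs_self (dav (A k) ε x - D x)
            simp only
            linarith
      _ = (∫ x in A k ∩ W, (1 - dav (A k) ε x)) +
            ∫ x in A k ∩ W, |dav (A k) ε x - D x| :=
          integral_add i1 (i2 _ inter_subset_right)
      _ ≤ ε * P + ∫ x in W, |dav (A k) ε x - D x| := by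
          refine add_le_add (ball_est_real (hP k) (hA k) hW hWc hε0 hε) ?_
          exact setIntegral_mono_set (i2 _ Subset.rfl) (Eventually.of_forall fun x => abs_nonneg _)
              (LE.le.eventuallyLE inter_subset_right)
  have hr : Tendsto (fun k => ε * P +
      ∫ x in W, |dav (A k) ε x - D x|) atTop (𝓝 (ε * P + 0)) :=
    tendsto_const_nhds.add hb
  rw [add_zero] at hr
  exact le_of_tendsto_of_tendsto' hl hr hbound

lemma measurable_avg {f : EuclideanSpace ℝ (Fin n) → ℝ} (hf : Measurable f) {ε : ℝ} :
    Measurable fun x : EuclideanSpace ℝ (Fin n) => ⨍ y in closedBall x ε, f y := by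
  have e : (fun x : EuclideanSpace ℝ (Fin n) => ⨍ y in closedBall x ε, f y) = fun x =>
      (volume.real (closedBall (0 : EuclideanSpace ℝ (Fin n)) ε))⁻¹ *
        ∫ y, ({p : EuclideanSpace ℝ (Fin n) × EuclideanSpace ℝ (Fin n) |
          dist p.2 p.1 ≤ ε}.indicator (fun p => f p.2)) (x, y) := by
    ext x
    rw [setAverage_eq, vol_cb_real, smul_eq_mul, ← integral_indicator measurableSet_closedBall]
    rfl
  rw [e]
  have hQ : MeasurableSet {p : EuclideanSpace ℝ (Fin n) × EuclideanSpace ℝ (Fin n) |
      dist p.2 p.1 ≤ ε} :=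
    measurableSet_le (measurable_snd.dist measurable_fst) measurable_const
  have h1 : StronglyMeasurable
      ({p : EuclideanSpace ℝ (Fin n) × EuclideanSpace ℝ (Fin n) |
        dist p.2 p.1 ≤ ε}.indicator (fun p => f p.2)) :=
    ((hf.comp measurable_snd).indicator hQ).stronglyMeasurable
  exact (StronglyMeasurable.integral_prod_right'
    (ν := (volume : Measure (EuclideanSpace ℝ (Fin n)))) h1).measurable.const_mul _

lemma avg01 {f : EuclideanSpace ℝ (Fin n) → ℝ} (hf : Measurable f)
    (hf01 : ∀ x, 0 ≤ f x ∧ f x ≤ 1) {ε : ℝ}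
    (hε : 0 < ε) (x : EuclideanSpace ℝ (Fin n)) :
    0 ≤ (⨍ y in closedBall x ε, f y) ∧ (⨍ y in closedBall x ε, f y) ≤ 1 := by
  have hV := vol_cb_pos (n := n) hε
  rw [setAverage_eq, vol_cb_real, smul_eq_mul]
  have h0 : 0 ≤ ∫ y in closedBall x ε, f y := integral_nonneg fun y => (hf01 y).1
  have h1 : ∫ y in closedBall x ε, f y ≤
      volume.real (closedBall (0 : EuclideanSpace ℝ (Fin n)) ε) := by
    rw [← vol_cb_real x]
    have h2 : ∫ y in closedBall x ε, f y ≤ ∫ y in closedBall x ε, (1 : ℝ) := by
      refine integral_mono ?_ ?_ fun y => (hf01 y).2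
      · exact Measure.integrableOn_of_bounded (M := 1) measure_closedBall_lt_top.ne
          hf.aestronglyMeasurable (Eventually.of_forall fun y => by
            rw [Real.norm_eq_abs, abs_le]; constructor <;> linarith [(hf01 y).1, (hf01 y).2])
      · exact integrableOn_const measure_closedBall_lt_top.ne
    simpa using h2
  refine ⟨by positivity, ?_⟩
  rw [inv_mul_le_one₀ hV]
  exact h1

/-- The weak limit density takes only the values `0` and `1` on `W`. -/
lemma strong_on {Ω W : Set (EuclideanSpace ℝ (Fin n))} {A : ℕ → Set (EuclideanSpace ℝ (Fin n))}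
    (hΩ : IsOpen Ω) (hA : ∀ k, MeasurableSet (A k)) {P : ℝ} (hP : ∀ k, PerLE Ω (A k) P)
    {f : EuclideanSpace ℝ (Fin n) → ℝ} (hf : Measurable f) (hf01 : ∀ x, 0 ≤ f x ∧ f x ≤ 1)
    (hlim : ∀ h : EuclideanSpace ℝ (Fin n) → ℝ, BM h →
        Tendsto (fun k => ∫ x in A k, h x) atTop (𝓝 (∫ x in Ω, h x * f x)))
    (hW : IsOpen W) (hWc : IsCompact (closure W)) (hWΩ : closure W ⊆ Ω) :
    ∀ᵐ x : EuclideanSpace ℝ (Fin n), x ∈ W → f x * (1 - f x) = 0 := by
  obtain ⟨δ, hδ, hδΩ⟩ := hWc.exists_cthickening_subset_open hΩ hWΩ
  have hfloc : LocallyIntegrable f (volume : Measure (EuclideanSpace ℝ (Fin n))) := by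
    intro x
    refine ⟨ball x 1, ball_mem_nhds x one_pos, ?_⟩
    exact Measure.integrableOn_of_bounded (M := 1) measure_ball_lt_top.ne hf.aestronglyMeasurable
      (Eventually.of_forall fun y => by
        rw [Real.norm_eq_abs, abs_le]; constructor <;> linarith [(hf01 y).1, (hf01 y).2])
  have hld : ∀ᵐ x : EuclideanSpace ℝ (Fin n),
      Tendsto (fun j : ℕ => ⨍ y in closedBall x (δ / ((j : ℝ) + 1)), f y) atTop (𝓝 (f x)) := by
    filter_upwards [IsUnifLocDoublingMeasure.ae_tendsto_average
      (volume : Measure (EuclideanSpace ℝ (Fin n))) hfloc 1] with x hx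
    refine hx (fun _ => x) (fun j : ℕ => δ / ((j : ℝ) + 1)) ?_ ?_
    · rw [tendsto_nhdsWithin_iff]
      refine ⟨?_, Eventually.of_forall fun j => by
        simp only [mem_Ioi]; positivity⟩
      have := tendsto_one_div_add_atTop_nhds_zero_nat (𝕜 := ℝ) |>.const_mul δ
      simpa [div_eq_mul_inv] using this
    · exact Eventually.of_forall fun j => by
        simp only [one_mul]
        exact mem_closedBall_self (by positivity)
  have hbfin : volume W ≠ ⊤ := ((measure_mono subset_closure).trans_lt hWc.measure_lt_top).ne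
  have hint : ∀ {u : EuclideanSpace ℝ (Fin n) → ℝ}, Measurable u → (∀ x, |u x| ≤ 1) →
      IntegrableOn u W := by
    intro u hu hu1
    refine Measure.integrableOn_of_bounded (M := 1) hbfin
      hu.aestronglyMeasurable (Eventually.of_forall fun x => by
        rw [Real.norm_eq_abs]; exact hu1 x)
  have h1 : Tendsto (fun j : ℕ => ∫ x in W,
      f x * (1 - ⨍ y in closedBall x (δ / ((j : ℝ) + 1)), f y)) atTop
      (𝓝 (∫ x in W, f x * (1 - f x))) := by
    refine tendsto_integral_of_dominated_convergence (fun _ => (1 : ℝ)) ?_ ?_ ?_ ?_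
    · intro j
      exact (hf.mul (measurable_const.sub (measurable_avg hf))).aestronglyMeasurable
    · exact hint measurable_const (by simp)
    · intro j
      refine Eventually.of_forall fun x => ?_
      have ha := avg01 hf hf01 (ε := δ / ((j : ℝ) + 1)) (by positivity) x
      have hx := hf01 x
      rw [Real.norm_eq_abs, abs_le]
      constructor <;> nlinarith [ha.1, ha.2, hx.1, hx.2]
    · filter_upwards [ae_restrict_of_ae hld] with x hx
      exact (tendsto_const_nhds.sub hx).const_mul _
  have h2 : ∫ x in W, f x * (1 - f x) ≤ 0 := by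
    have h3 : Tendsto (fun j : ℕ => δ / ((j : ℝ) + 1) * P) atTop
        (𝓝 (0 * P)) := by
      refine Tendsto.mul_const P ?_
      have := tendsto_one_div_add_atTop_nhds_zero_nat (𝕜 := ℝ) |>.const_mul δ
      simpa [div_eq_mul_inv] using this
    rw [zero_mul] at h3
    refine le_of_tendsto_of_tendsto' h1 h3 fun j => ?_
    have hle : δ / ((j : ℝ) + 1) ≤ δ := by
      apply div_le_self hδ.le
      have : (0 : ℝ) ≤ j := by positivity
      linarith
    refine strong_aux hΩ.measurableSet hA hP hlim hW hWc (by positivity) ?_ (measurable_avg hf)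
      (avg01 hf hf01 (by positivity))
    exact (cthickening_mono hle _).trans hδΩ
  have h4 : 0 ≤ᵐ[volume.restrict W] fun x => f x * (1 - f x) :=
    Eventually.of_forall fun x => by
      have := hf01 x
      exact mul_nonneg this.1 (by linarith [this.2])
  have h5 : IntegrableOn (fun x => f x * (1 - f x)) W :=
    hint (u := fun x => f x * (1 - f x)) (hf.mul (measurable_const.sub hf)) fun x => by
      have := hf01 x
      rw [abs_le]; constructor <;> nlinarith [this.1, this.2]
  have h6 : ∫ x in W, f x * (1 - f x) = 0 :=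
    le_antisymm h2 (integral_nonneg_of_ae h4)
  rw [integral_eq_zero_iff_of_nonneg_ae h4 h5, EventuallyEq,
    ae_restrict_iff' hW.measurableSet] at h6
  exact h6

end Pool.Agent.W789.Iso
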