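import Pool.Agent.W789.Iso.Half

/-! Geometry of a trapping cone of fixed proportion. -/

set_option autoImplicit false

namespace Pool.Agent.W789.Iso

open MeasureTheory Set Filter Topology
open scoped ENNReal

lemma vol_xslices_le {S : Set E3} (hS : MeasurableSet S) {J K : Set ℝ} (hJ : MeasurableSet J)
    (hK : MeasurableSet K) (hsub : ∀ p ∈ S, p 1 ∈ J ∧ p 2 ∈ K) {c : ℝ≥0∞}
    (hc : ∀ y z : ℝ, z ∈ K → volume {x : ℝ | mk3 (x, y, z) ∈ S} ≤ c) :
    volume S ≤ c * (volume J * volume K) := by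
  rw [volume_mk3 hS]
  have hS' : MeasurableSet (mk3 ⁻¹' S) := continuous_mk3.measurable hS
  rw [Measure.volume_eq_prod, Measure.prod_apply_symm hS']
  have h1 : ∀ q : ℝ × ℝ, volume ((fun x : ℝ => (x, q)) ⁻¹' (mk3 ⁻¹' S)) ≤
      (J ×ˢ K).indicator (fun _ => c) q := by
    intro q
    by_cases hq : q ∈ J ×ˢ K
    · rw [indicator_of_mem hq]
      exact hc q.1 q.2 hq.2
    · rw [indicator_of_notMem hq]
      have : (fun x : ℝ => (x, q)) ⁻¹' (mk3 ⁻¹' S) = ∅ := by
        ext x
        simp only [mem_preimage, mem_empty_iff_false, iff_false]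
        intro hx
        exact hq ⟨(hsub _ hx).1, (hsub _ hx).2⟩
      rw [this, measure_empty]
  refine (lintegral_mono h1).trans ?_
  rw [lintegral_indicator (hJ.prod hK), setLIntegral_const, Measure.volume_eq_prod,
    Measure.prod_prod]

/-- a subset of the body either contains points of sufficiently different slopes or is small
above height one -/
lemma slope_dichotomy {h b : ℝ} (hh : 1 < h) (hb : 0 < b) {S : Set E3} (hS : MeasurableSet S)
    (hSO : S ⊆ Om (2 * (h + 1)) h b) :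
    (∃ p ∈ S, ∃ q ∈ S, 1 < p 2 ∧ 1 < q 2 ∧ p 0 / p 2 + 1 / h ^ 2 ≤ q 0 / q 2) ∨
      volume (S ∩ {p | 1 < p 2}) ≤ ENNReal.ofReal (4 * b) := by
  by_cases hne : (S ∩ {p | 1 < p 2}).Nonempty
  · obtain ⟨p₀, hp₀, hp₀'⟩ := hne
    have hp₀'' : 1 < p₀ 2 := hp₀'
    by_cases hex : ∃ p ∈ S, ∃ q ∈ S, 1 < p 2 ∧ 1 < q 2 ∧ p 0 / p 2 + 1 / h ^ 2 ≤ q 0 / q 2
    · exact Or.inl hex
    · right
      push Not at hex
      have hgt : IsOpen {p : E3 | 1 < p 2} := isOpen_lt (by fun_prop) (by fun_prop)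
      have h1 := vol_xslices_le (S := S ∩ {p | 1 < p 2}) (hS.inter hgt.measurableSet)
        (J := Ioo (-b) b) (K := Ioo 1 h) measurableSet_Ioo measurableSet_Ioo
        (by
          rintro p ⟨hp, hp'⟩
          exact ⟨abs_lt.1 (abs1_lt (by linarith) hb (hSO hp)), hp', (abs_lt.1 (hSO hp).2.1).2⟩)
        (c := ENNReal.ofReal (2 / h)) (by
          intro y z hz
          have hz0 : 0 < z := by linarith [hz.1]
          have : {x : ℝ | mk3 (x, y, z) ∈ S ∩ {p | 1 < p 2}} ⊆
              Icc (p₀ 0 / p₀ 2 * z - 1 / h) (p₀ 0 / p₀ 2 * z + 1 / h) := by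
            rintro x ⟨hx, hx'⟩
            have k1 := hex _ hx _ hp₀ hz.1 hp₀''
            have k2 := hex _ hp₀ _ hx hp₀'' hz.1
            simp only [mk3_0, mk3_2] at k1 k2
            have e1 : 1 / h ^ 2 * z ≤ 1 / h := by
              have : 1 / h ^ 2 * z ≤ 1 / h ^ 2 * h := by
                have := hz.2.le
                gcongr
              have e : 1 / h ^ 2 * h = 1 / h := by field_simp
              linarith
            have e2 : x / z * z = x := by field_simp
            have k3 : p₀ 0 / p₀ 2 * z < (x / z + 1 / h ^ 2) * z :=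
              mul_lt_mul_of_pos_right k1 hz0
            have k4 : x / z * z < (p₀ 0 / p₀ 2 + 1 / h ^ 2) * z :=
              mul_lt_mul_of_pos_right k2 hz0
            constructor <;> nlinarith
          refine (measure_mono this).trans (le_of_eq ?_)
          rw [Real.volume_Icc]
          congr 1
          ring)
      refine h1.trans ?_
      rw [Real.volume_Ioo, Real.volume_Ioo, ← ENNReal.ofReal_mul (by linarith),
        ← ENNReal.ofReal_mul (by positivity)]
      apply ENNReal.ofReal_le_ofReal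
      rw [div_mul_eq_mul_div, div_le_iff₀ (by linarith)]
      nlinarith
  · right
    rw [not_nonempty_iff_eq_empty.1 hne, measure_empty]
    exact zero_le

/-- the property of trapping a thin sector -/
def Trap (O C : Set E3) (sm ϖ A B ρ : ℝ) : Prop :=
  ∀ p : E3, 0 < p 2 → |p 0 - sm * p 2| ≤ ϖ * p 2 → rr p < 1 →
    |p 1 - (A * p 0 + B * p 2)| ≤ ρ * p 2 → p ∈ O ∧ p ∈ C

lemma trap_of_points {h b : ℝ} (hh : 1 < h) (hb : 0 < b) {C : Set E3} (hC : Convex ℝ C)
    (hCs : ∀ μ : ℝ, 0 < μ → ∀ x ∈ C, μ • x ∈ C) {p q : E3}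
    (hp : p ∈ interior (Om (2 * (h + 1)) h b ∩ C)) (hq : q ∈ interior (Om (2 * (h + 1)) h b ∩ C))
    (hp2 : 1 < p 2) (hq2 : 1 < q 2) (hpq : p 0 / p 2 + 1 / h ^ 2 ≤ q 0 / q 2) :
    ∃ sm ϖ A B ρ : ℝ, |sm| ≤ 1 ∧ 1 / (2 * h ^ 2) ≤ ϖ ∧ ϖ ≤ 1 ∧ 0 < ρ ∧
      Trap (Om (2 * (h + 1)) h b) C sm ϖ A B ρ := by
  set O := Om (2 * (h + 1)) h b with hO
  have hOc : Convex ℝ O := convex_Om (by linarith) hb
  have h0 : (0 : E3) ∈ O := zero_mem_Om (by linarith) hb
  have hG : Convex ℝ (O ∩ C) := hOc.inter hC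
  obtain ⟨r₁, hr₁, hb₁⟩ := Metric.isOpen_iff.1 isOpen_interior p hp
  obtain ⟨r₂, hr₂, hb₂⟩ := Metric.isOpen_iff.1 isOpen_interior q hq
  set s₁ := p 0 / p 2 with hs₁
  set s₂ := q 0 / q 2 with hs₂
  set l₁ := p 1 / p 2 with hl₁
  set l₂ := q 1 / q 2 with hl₂
  have hpO : p ∈ O := (interior_subset hp).1
  have hqO : q ∈ O := (interior_subset hq).1
  have hp0 : 0 < p 2 := by linarith
  have hq0 : 0 < q 2 := by linarith
  have b₁ : |s₁| < 1 := by
    rw [hs₁, abs_div, abs_of_pos hp0, div_lt_one hp0]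
    linarith [hpO.1]
  have b₂ : |s₂| < 1 := by
    rw [hs₂, abs_div, abs_of_pos hq0, div_lt_one hq0]
    linarith [hqO.1]
  have hh2 : 0 < 1 / h ^ 2 := by positivity
  have hlt : s₁ < s₂ := by linarith
  have hd : 0 < s₂ - s₁ := by linarith
  set r := min r₁ r₂ with hr
  have hr0 : 0 < r := lt_min hr₁ hr₂
  refine ⟨(s₁ + s₂) / 2, (s₂ - s₁) / 2, (l₂ - l₁) / (s₂ - s₁),
    l₁ - (l₂ - l₁) / (s₂ - s₁) * s₁, r / (2 * h), ?_, ?_, ?_, by positivity, ?_⟩
  · rw [abs_lt] at b₁ b₂
    rw [abs_le]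
    constructor <;> linarith [b₁.1, b₁.2, b₂.1, b₂.2]
  · have : 1 / (2 * h ^ 2) = 1 / h ^ 2 / 2 := by field_simp
    rw [this]
    linarith
  · rw [abs_lt] at b₁ b₂
    linarith [b₁.1, b₂.2]
  · intro m hm hm1 hm2 hm3
    -- parameters
    set x' := m 0 / m 2 with hx'
    have ex' : m 0 = x' * m 2 := by rw [hx']; field_simp
    set τ := (x' - s₁) / (s₂ - s₁) with hτ
    have hx'b : |x' - (s₁ + s₂) / 2| ≤ (s₂ - s₁) / 2 := by
      have : m 0 - (s₁ + s₂) / 2 * m 2 = (x' - (s₁ + s₂) / 2) * m 2 := by rw [ex']; ring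
      rw [this, abs_mul, abs_of_pos hm] at hm1
      exact le_of_mul_le_mul_right hm1 hm
    rw [abs_le] at hx'b
    have hτ0 : 0 ≤ τ := div_nonneg (by linarith [hx'b.1]) hd.le
    have hτ1 : τ ≤ 1 := by
      rw [hτ, div_le_one hd]; linarith [hx'b.2]
    have ex : x' = (1 - τ) * s₁ + τ * s₂ := by
      rw [hτ]; field_simp; ring
    set e := (m 1 - ((l₂ - l₁) / (s₂ - s₁) * m 0 + (l₁ - (l₂ - l₁) / (s₂ - s₁) * s₁) * m 2)) / m 2
      with he
    have heb : |e| ≤ r / (2 * h) := by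
      rw [he, abs_div, abs_of_pos hm, div_le_iff₀ hm]
      exact hm3
    have em1 : m 1 = m 2 * ((1 - τ) * l₁ + τ * l₂ + e) := by
      have k1 : m 1 = m 2 * e + ((l₂ - l₁) / (s₂ - s₁) * m 0 +
          (l₁ - (l₂ - l₁) / (s₂ - s₁) * s₁) * m 2) := by
        rw [he]; field_simp; ring
      rw [k1, ex', hτ]
      field_simp
      ring
    have hm2' : m 2 < 1 := (le_abs_self _).trans_lt ((abs2_le_rr m).trans_lt hm2)
    -- the perturbed points
    have pert : ∀ v : E3, v ∈ O → ∀ R, r ≤ R → Metric.ball v R ⊆ interior (O ∩ C) →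
        v + (e * v 2) • EuclideanSpace.single (1 : Fin 3) (1 : ℝ) ∈ O ∩ C := by
      intro v hvO R hrR hball
      apply interior_subset
      apply hball
      rw [Metric.mem_ball, dist_eq_norm, add_sub_cancel_left, norm_smul]
      simp only [PiLp.norm_single, norm_one, mul_one, Real.norm_eq_abs, abs_mul]
      have hv2 : |v 2| < h := hvO.2.1
      have : |e| * |v 2| ≤ r / (2 * h) * h := by
        gcongr
      have e2 : r / (2 * h) * h = r / 2 := by field_simp
      linarith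
    have hP := pert p hpO r₁ (min_le_left _ _) hb₁
    have hQ := pert q hqO r₂ (min_le_right _ _) hb₂
    set P := p + (e * p 2) • EuclideanSpace.single (1 : Fin 3) (1 : ℝ) with hPdef
    set Q := q + (e * q 2) • EuclideanSpace.single (1 : Fin 3) (1 : ℝ) with hQdef
    set α := m 2 * ((1 - τ) / p 2) with hα
    set β := m 2 * (τ / q 2) with hβ
    have hα0 : 0 ≤ α := mul_nonneg hm.le (div_nonneg (by linarith) hp0.le)
    have hβ0 : 0 ≤ β := mul_nonneg hm.le (div_nonneg hτ0 hq0.le)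
    have hαβ : 0 < α + β := by
      rcases hτ0.eq_or_lt with h | h
      · have : 0 < α := by
          rw [hα, ← h]
          exact mul_pos hm (div_pos (by norm_num) hp0)
        linarith
      · have : 0 < β := mul_pos hm (div_pos h hq0)
        linarith
    have hαβ1 : α + β ≤ 1 := by
      have k1 : (1 - τ) / p 2 ≤ 1 - τ := div_le_self (by linarith) hp2.le
      have k2 : τ / q 2 ≤ τ := div_le_self hτ0 hq2.le
      have : α + β ≤ m 2 * (1 - τ) + m 2 * τ :=
        add_le_add (mul_le_mul_of_nonneg_left k1 hm.le) (mul_le_mul_of_nonneg_left k2 hm.le)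
      nlinarith
    have hmeq : m = α • P + β • Q := by
      ext i
      fin_cases i
      · have : m 0 = α * p 0 + β * q 0 := by
          rw [ex', ex, hα, hβ, hs₁, hs₂]
          field_simp
        simpa [hPdef, hQdef] using this
      · have : m 1 = α * (p 1 + e * p 2) + β * (q 1 + e * q 2) := by
          rw [em1, hα, hβ, hl₁, hl₂]
          field_simp
          ring
        rw [mul_add, mul_add] at this
        simpa [hPdef, hQdef, mul_add] using this
      · have : m 2 = α * p 2 + β * q 2 := by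
          rw [hα, hβ]
          field_simp
          ring
        simpa [hPdef, hQdef] using this
    have hM : (α / (α + β)) • P + (β / (α + β)) • Q ∈ O ∩ C :=
      hG hP hQ (by positivity) (by positivity) (by field_simp)
    have hmM : m = (α + β) • ((α / (α + β)) • P + (β / (α + β)) • Q) := by
      rw [smul_add, smul_smul, smul_smul, mul_div_cancel₀ _ hαβ.ne', mul_div_cancel₀ _ hαβ.ne']
      exact hmeq
    constructor
    · rw [hmM]
      have := hOc hM.1 h0 hαβ.le (by linarith : 0 ≤ 1 - (α + β)) (by ring)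
      simpa using this
    · rw [hmM]
      exact hCs _ hαβ _ hM.2

/-- a trapping cone of fixed proportion traps a thin sector of controlled opening -/
theorem exists_trap {h b c : ℝ} (hh : 1 < h) (hb : 0 < b) (hc : 4 < c * h)
    (Γ : ConvexCone ℝ E3)
    (hΓ : ENNReal.ofReal c * volume (Om (2 * (h + 1)) h b) ≤
      volume (Om (2 * (h + 1)) h b ∩ (Γ : Set E3))) :
    (∃ sm ϖ A B ρ : ℝ, |sm| ≤ 1 ∧ 1 / (2 * h ^ 2) ≤ ϖ ∧ ϖ ≤ 1 ∧ 0 < ρ ∧
      Trap (Om (2 * (h + 1)) h b) (Γ : Set E3) sm ϖ A B ρ) ∨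
    (∃ sm ϖ A B ρ : ℝ, |sm| ≤ 1 ∧ 1 / (2 * h ^ 2) ≤ ϖ ∧ ϖ ≤ 1 ∧ 0 < ρ ∧
      Trap (Om (2 * (h + 1)) h b) {x | -x ∈ Γ} sm ϖ A B ρ) := by
  set O := Om (2 * (h + 1)) h b with hO
  have hOc : Convex ℝ O := convex_Om (by linarith) hb
  have hΓc : Convex ℝ (Γ : Set E3) := Γ.convex
  set G := interior (O ∩ (Γ : Set E3)) with hG
  have hc0 : 0 < c := by
    by_contra hcon
    have : c * h ≤ 0 := mul_nonpos_of_nonpos_of_nonneg (not_lt.1 hcon) (by linarith)
    linarith
  have hGv : volume G = volume (O ∩ (Γ : Set E3)) := by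
    apply le_antisymm (measure_mono interior_subset)
    have h1 : O ∩ (Γ : Set E3) ⊆ G ∪ frontier (O ∩ (Γ : Set E3)) := by
      intro p hp
      by_cases hpi : p ∈ interior (O ∩ (Γ : Set E3))
      · exact Or.inl hpi
      · exact Or.inr ⟨subset_closure hp, hpi⟩
    refine (measure_mono h1).trans ((measure_union_le _ _).trans ?_)
    rw [(hOc.inter hΓc).addHaar_frontier (μ := (volume : Measure E3)), add_zero]
  set G' : Set E3 := (fun p : E3 => -p) ⁻¹' G with hG'
  have hGm : MeasurableSet G := isOpen_interior.measurableSet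
  have hG'm : MeasurableSet G' := (isOpen_interior.preimage continuous_neg).measurableSet
  have hG'eq : G' = interior (O ∩ {x | -x ∈ Γ}) := by
    have e1 : O ∩ {x | -x ∈ Γ} = (fun p : E3 => -p) ⁻¹' (O ∩ (Γ : Set E3)) := by
      ext p
      constructor
      · rintro ⟨h1, h2⟩
        exact ⟨neg_mem_Om h1, h2⟩
      · rintro ⟨h1, h2⟩
        refine ⟨?_, h2⟩
        simpa using neg_mem_Om h1
    rw [e1, hG', hG]
    exact (Homeomorph.neg E3).preimage_interior _
  have hGO : G ⊆ O := interior_subset.trans inter_subset_left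
  have hG'O : G' ⊆ O := by
    rw [hG'eq]; exact interior_subset.trans inter_subset_left
  rcases slope_dichotomy hh hb hGm hGO with ⟨p, hp, q, hq, hp2, hq2, hpq⟩ | h1
  · left
    exact trap_of_points hh hb hΓc (fun μ hμ x hx => Γ.smul_mem hμ hx) hp hq hp2 hq2 hpq
  rcases slope_dichotomy hh hb hG'm hG'O with ⟨p, hp, q, hq, hp2, hq2, hpq⟩ | h2
  · right
    rw [hG'eq] at hp hq
    refine trap_of_points hh hb ?_ ?_ hp hq hp2 hq2 hpq
    · intro x hx y hy s t hs ht hst
      have := hΓc hx hy hs ht hst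
      show -(s • x + t • y) ∈ Γ
      rw [neg_add, ← smul_neg, ← smul_neg]
      exact this
    · intro μ hμ x hx
      show -(μ • x) ∈ Γ
      rw [← smul_neg]
      exact Γ.smul_mem hμ hx
  exfalso
  have hlt : IsOpen {p : E3 | 1 < p 2} := isOpen_lt (by fun_prop) (by fun_prop)
  have h3 : volume (G ∩ {p | p 2 < -1}) = volume (G' ∩ {p | 1 < p 2}) := by
    have : (fun p : E3 => -p) ⁻¹' (G ∩ {p | p 2 < -1}) = G' ∩ {p | 1 < p 2} := by
      ext p
      simp only [mem_preimage, mem_inter_iff, hG']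
      refine and_congr_right fun _ => ?_
      show (-p) 2 < -1 ↔ 1 < p 2
      simp
    rw [← this]
    have hlt' : IsOpen {p : E3 | p 2 < -1} := isOpen_lt (by fun_prop) (by fun_prop)
    exact ((Measure.measurePreserving_neg (volume : Measure E3)).measure_preimage
      (hGm.inter hlt'.measurableSet).nullMeasurableSet).symm
  have h4 : G ⊆ (G ∩ {p | 1 < p 2}) ∪ ((G ∩ {p | p 2 < -1}) ∪
      {p : E3 | p 0 ∈ Ioo (-1) 1 ∧ p 1 ∈ Ioo (-b) b ∧ p 2 ∈ Icc (-1) 1}) := by
    intro p hp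
    by_cases k1 : 1 < p 2
    · exact Or.inl ⟨hp, k1⟩
    by_cases k2 : p 2 < -1
    · exact Or.inr (Or.inl ⟨hp, k2⟩)
    refine Or.inr (Or.inr ⟨abs_lt.1 (hGO hp).1, abs_lt.1 (abs1_lt (by linarith) hb (hGO hp)),
      not_lt.1 k2, not_lt.1 k1⟩)
  have h5 : volume G ≤ ENNReal.ofReal (16 * b) := by
    refine (measure_mono h4).trans ((measure_union_le _ _).trans ?_)
    have k3 := measure_union_le (μ := (volume : Measure E3)) (G ∩ {p | p 2 < -1})
      {p : E3 | p 0 ∈ Ioo (-1) 1 ∧ p 1 ∈ Ioo (-b) b ∧ p 2 ∈ Icc (-1) 1}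
    rw [h3, vol_box measurableSet_Ioo measurableSet_Ioo measurableSet_Icc, Real.volume_Ioo,
      Real.volume_Ioo, Real.volume_Icc, ← ENNReal.ofReal_mul (by linarith),
      ← ENNReal.ofReal_mul (by norm_num)] at k3
    refine (add_le_add h1 (k3.trans (add_le_add h2 le_rfl))).trans (le_of_eq ?_)
    rw [← ENNReal.ofReal_add (by positivity) (by nlinarith),
      ← ENNReal.ofReal_add (by positivity) (by nlinarith)]
    congr 1
    ring
  have h6 : ENNReal.ofReal c * ENNReal.ofReal (4 * h * b) ≤ ENNReal.ofReal (16 * b) := by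
    refine le_trans ?_ h5
    rw [hGv]
    refine le_trans ?_ hΓ
    gcongr
    exact vol_Om_ge (by linarith) hb
  rw [← ENNReal.ofReal_mul hc0.le, ENNReal.ofReal_le_ofReal_iff (by positivity)] at h6
  nlinarith

end Pool.Agent.W789.Iso
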